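import Pool.Agent.KS6_59.AX.Pos

/-! Decay of the characters at active positions. -/

set_option autoImplicit false
set_option linter.unusedSectionVars false

open Finset Filter Topology

namespace Pool.Agent.KS6_59.AX

open H942R3.AX

section general

variable {Ω : Type*} [Fintype Ω] (w : Ω → ℝ) (f : Ω → ℤ)

theorem ee_re (q k : ℕ) (s : ℤ) : (ee q k s).re = Real.cos (2 * Real.pi * ((k:ℝ) * s / q)) := by
  have : ee q k s = Complex.exp (((2 * Real.pi * ((k:ℝ) * s / q) : ℝ) : ℂ) * Complex.I) := by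
    rw [ee]
    congr 1
    push_cast
    ring
  rw [this, Complex.exp_ofReal_mul_I_re]

theorem norm_ee (q k : ℕ) (s : ℤ) : ‖ee q k s‖ = 1 := by
  have : ee q k s = Complex.exp (((2 * Real.pi * ((k:ℝ) * s / q) : ℝ) : ℂ) * Complex.I) := by
    rw [ee]
    congr 1
    push_cast
    ring
  rw [this, Complex.norm_exp_ofReal_mul_I]

theorem cht_norm_le (hw : ∀ ω, 0 ≤ w ω) (q k : ℕ) (t : ℤ) : ‖cht w f q k t‖ ≤ ∑ ω, w ω := by
  refine (norm_sum_le _ _).trans (Finset.sum_le_sum fun ω _ => ?_)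
  rw [norm_mul, norm_ee, mul_one, Complex.norm_real, Real.norm_eq_abs, abs_of_nonneg (hw ω)]

theorem cht_sq (q k : ℕ) (t : ℤ) : ‖cht w f q k t‖ ^ 2 =
    ∑ ω, ∑ ω', w ω * w ω' * Real.cos (2 * Real.pi * ((k:ℝ) * t / q * ((f ω - f ω' : ℤ) : ℝ))) := by
  have h1 : ((‖cht w f q k t‖ ^ 2 : ℝ) : ℂ) = ∑ ω, ∑ ω', ((w ω * w ω' : ℝ) : ℂ) *
      ee q k (t * f ω - t * f ω') := by
    push_cast
    rw [← Complex.mul_conj', cht, map_sum, Finset.sum_mul_sum]
    refine Finset.sum_congr rfl fun ω _ => Finset.sum_congr rfl fun ω' _ => ?_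
    rw [map_mul, Complex.conj_ofReal, ← ee_mul_conj]
    ring
  have h2 := congrArg Complex.re h1
  rw [Complex.ofReal_re, Complex.re_sum] at h2
  rw [h2]
  refine Finset.sum_congr rfl fun ω _ => ?_
  rw [Complex.re_sum]
  refine Finset.sum_congr rfl fun ω' _ => ?_
  rw [Complex.re_ofReal_mul, ee_re]
  congr 3
  push_cast
  ring

end general

section digit

variable {D : Type*} [Fintype D] [DecidableEq D] (p : D → ℝ) (v : D → ℤ)

theorem cos_int (y : ℝ) (n : ℤ) : Real.cos (2 * Real.pi * (y * n)) =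
    Real.cos (2 * Real.pi * (Int.fract y * n)) := by
  have h : 2 * Real.pi * (y * n) = 2 * Real.pi * (Int.fract y * n) + ((⌊y⌋ * n : ℤ) : ℝ) * (2 * Real.pi) := by
    have := Int.floor_add_fract y
    push_cast
    nth_rewrite 1 [← this]
    ring
  rw [h, Real.cos_add_int_mul_two_pi]

/-- uniform decay of the characteristic function away from the lattice -/
theorem digit_decay (hp : ∀ d, 0 < p d) (h1 : ∑ d, p d = 1) (g : ℤ)
    (hg : ∀ y : ℝ, (∀ d d', ∃ z : ℤ, y * ((v d - v d' : ℤ) : ℝ) = z) → ∃ z : ℤ, y * g = z)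
    (a : ℕ) (ha : 1 ≤ a) : ∃ ρ : ℝ, 0 < ρ ∧ ρ < 1 ∧ ∀ (q k : ℕ) (t : ℤ),
      1 / (2 * (a:ℝ)) ≤ |(k:ℝ) * t / q * g - round ((k:ℝ) * t / q * g)| → ‖cht p v q k t‖ ≤ ρ := by
  have ha0 : (0:ℝ) < a := by exact_mod_cast (by omega : 0 < a)
  have ha1 : (1:ℝ) ≤ a := by exact_mod_cast ha
  set G : ℝ → ℝ := fun y => ∑ d, ∑ d', p d * p d' * (1 - Real.cos (2 * Real.pi * (y * ((v d - v d' : ℤ) : ℝ)))) with hG
  have hGcont : Continuous G := by
    rw [hG]
    fun_prop
  have hGnn : ∀ y d d', 0 ≤ p d * p d' * (1 - Real.cos (2 * Real.pi * (y * ((v d - v d' : ℤ) : ℝ)))) := by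
    intro y d d'
    apply mul_nonneg (mul_pos (hp _) (hp _)).le
    have := Real.cos_le_one (2 * Real.pi * (y * ((v d - v d' : ℤ) : ℝ)))
    linarith
  have hG0 : ∀ y, 0 ≤ G y := fun y => Finset.sum_nonneg fun d _ => Finset.sum_nonneg fun d' _ => hGnn y d d'
  have hsq : ∀ (q k : ℕ) (t : ℤ), ‖cht p v q k t‖ ^ 2 = 1 - G ((k:ℝ) * t / q) := by
    intro q k t
    rw [cht_sq, hG]
    simp only [mul_sub, mul_one, Finset.sum_sub_distrib]
    rw [← Finset.sum_mul_sum, h1]
    ring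
  have hcos1 : Real.cos (Real.pi / a) < 1 := by
    rw [← Real.cos_zero]
    apply Real.cos_lt_cos_of_nonneg_of_le_pi le_rfl
    · exact div_le_self Real.pi_pos.le ha1
    · exact div_pos Real.pi_pos ha0
  set K : Set ℝ := {y | y ∈ Set.Icc (0:ℝ) 1 ∧ Real.cos (2 * Real.pi * (y * g)) ≤ Real.cos (Real.pi / a)} with hK
  have hKc : IsCompact K := by
    have h2 : IsClosed {y : ℝ | Real.cos (2 * Real.pi * (y * g)) ≤ Real.cos (Real.pi / a)} :=
      isClosed_le (by fun_prop) continuous_const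
    exact isCompact_Icc.inter_right h2
  have hKpos : ∀ y ∈ K, 0 < G y := by
    intro y hy
    rcases (hG0 y).lt_or_eq with h | h
    · exact h
    · exfalso
      have h2 : ∀ d d', Real.cos (2 * Real.pi * (y * ((v d - v d' : ℤ) : ℝ))) = 1 := by
        intro d d'
        have h3 := (Finset.sum_eq_zero_iff_of_nonneg (fun d _ =>
          Finset.sum_nonneg fun d' _ => hGnn y d d')).1 h.symm d (Finset.mem_univ d)
        have h4 := (Finset.sum_eq_zero_iff_of_nonneg (fun d' _ => hGnn y d d')).1 h3 d' (Finset.mem_univ d')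
        have h5 : p d * p d' ≠ 0 := (mul_pos (hp _) (hp _)).ne'
        have h6 := (mul_eq_zero.1 h4).resolve_left h5
        linarith
      have h3 : ∀ d d', ∃ z : ℤ, y * ((v d - v d' : ℤ) : ℝ) = z := by
        intro d d'
        obtain ⟨n, hn⟩ := (Real.cos_eq_one_iff _).1 (h2 d d')
        refine ⟨n, ?_⟩
        have hpi := Real.pi_pos
        have : (2 * Real.pi) * (y * ((v d - v d' : ℤ) : ℝ)) = (2 * Real.pi) * n := by rw [← hn]; ring
        exact mul_left_cancel₀ (by positivity) this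
      obtain ⟨z, hz⟩ := hg y h3
      have h4 := hy.2
      rw [hz] at h4
      have h5 : Real.cos (2 * Real.pi * (z:ℝ)) = 1 := by
        rw [Real.cos_eq_one_iff]; exact ⟨z, by ring⟩
      rw [h5] at h4
      linarith
  obtain ⟨m0, hm0, hm⟩ : ∃ m0 : ℝ, 0 < m0 ∧ ∀ y ∈ K, m0 ≤ G y := by
    rcases K.eq_empty_or_nonempty with h | h
    · exact ⟨1, one_pos, fun y hy => by rw [h] at hy; exact absurd hy (Set.notMem_empty _)⟩
    · obtain ⟨y0, hy0, hmin⟩ := hKc.exists_isMinOn h hGcont.continuousOn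
      exact ⟨G y0, hKpos y0 hy0, fun y hy => hmin hy⟩
  set m1 : ℝ := min m0 (1 / 2) with hm1
  have hm1pos : 0 < m1 := lt_min hm0 (by norm_num)
  have hm1le : m1 ≤ 1 / 2 := min_le_right _ _
  refine ⟨Real.sqrt (1 - m1), Real.sqrt_pos.2 (by linarith), ?_, fun q k t hact => ?_⟩
  · rw [Real.sqrt_lt' one_pos]; linarith
  apply Real.le_sqrt_of_sq_le
  rw [hsq]
  set y : ℝ := (k:ℝ) * t / q with hy
  have hGf : G y = G (Int.fract y) := by
    rw [hG]
    simp only
    refine Finset.sum_congr rfl fun d _ => Finset.sum_congr rfl fun d' _ => ?_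
    rw [cos_int y]
  have hmem : Int.fract y ∈ K := by
    refine ⟨⟨Int.fract_nonneg _, (Int.fract_lt_one _).le⟩, ?_⟩
    rw [← cos_int y g]
    set u : ℝ := y * g - round (y * g) with hu
    have h2 : Real.cos (2 * Real.pi * (y * g)) = Real.cos (2 * Real.pi * |u|) := by
      have h3 : 2 * Real.pi * (y * g) = 2 * Real.pi * u + (round (y * g) : ℤ) * (2 * Real.pi) := by
        rw [hu]; ring
      rw [h3, Real.cos_add_int_mul_two_pi, ← Real.cos_abs (2 * Real.pi * u), abs_mul,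
        abs_of_pos (by positivity : (0:ℝ) < 2 * Real.pi)]
    rw [h2]
    have h4 : |u| ≤ 1 / 2 := abs_sub_round _
    have hpi := Real.pi_pos
    apply Real.cos_le_cos_of_nonneg_of_le_pi
    · positivity
    · nlinarith
    · have h5 : Real.pi / a = 2 * Real.pi * (1 / (2 * a)) := by field_simp
      rw [h5]
      exact mul_le_mul_of_nonneg_left hact (by positivity)
  have h2 := hm _ hmem
  rw [hGf]
  have : m1 ≤ m0 := min_le_left _ _
  linarith

open Classical in
/-- decay for a block of digits -/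
theorem block_decay (hp : ∀ d, 0 < p d) (h1 : ∑ d, p d = 1) (g : ℤ) (a : ℕ) (ρ : ℝ) (hρ0 : 0 < ρ)
    (hρ1 : ρ < 1)
    (hρ : ∀ (q k : ℕ) (t : ℤ),
      1 / (2 * (a:ℝ)) ≤ |(k:ℝ) * t / q * g - round ((k:ℝ) * t / q * g)| → ‖cht p v q k t‖ ≤ ρ)
    (q k : ℕ) (t : ℤ) (m : ℕ) :
    ‖cht (wn p m) (vl v a) q k t‖ ≤ ρ ^ na a ((k:ℝ) * t / q * g) m := by
  rw [wn, cht_prod, norm_prod]
  calc ∏ i : Fin m, ‖cht p v q k (t * (a:ℤ) ^ (i:ℕ))‖
      ≤ ∏ i : Fin m, (if act a ((k:ℝ) * t / q * g) i then ρ else 1) := by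
        apply Finset.prod_le_prod
        · intro i _; exact norm_nonneg _
        · intro i _
          split_ifs with h
          · apply hρ
            rw [act] at h
            have e : (k:ℝ) * ((t * (a:ℤ) ^ (i:ℕ) : ℤ) : ℝ) / q * g = (k:ℝ) * t / q * g * (a:ℝ) ^ (i:ℕ) := by
              push_cast; ring
            rw [e]
            exact h
          · refine (cht_norm_le p v (fun d => (hp d).le) _ _ _).trans (le_of_eq h1)
    _ = ∏ i ∈ range m, (if act a ((k:ℝ) * t / q * g) i then ρ else 1) :=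
        Fin.prod_univ_eq_prod_range (fun i => if act a ((k:ℝ) * t / q * g) i then ρ else 1) m
    _ = ρ ^ na a ((k:ℝ) * t / q * g) m := by
        rw [Finset.prod_ite, Finset.prod_const_one, mul_one, Finset.prod_const, na]

end digit

end Pool.Agent.KS6_59.AX
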