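import Pool.Graph.R_seed8.H942R3.AXCount

/-! The moduli with an inactive frequency, for windows slightly longer than the denominators. -/

set_option autoImplicit false
set_option linter.unusedSectionVars false

open Finset Filter Topology

namespace Pool.Agent.KS6_59.AX

open H942R3.AX

variable (a K : ℕ)

theorem win_ex (ha : 2 ≤ a) (hK : 1 ≤ K) (t : ℕ) : ∃ w : ℕ, 2 ^ ((K + 1) * t) ≤ a ^ (K * w) := by
  refine ⟨2 * t, ?_⟩
  calc 2 ^ ((K + 1) * t) ≤ 2 ^ (K * (2 * t)) := by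
        apply Nat.pow_le_pow_right (by norm_num)
        nlinarith
    _ ≤ a ^ (K * (2 * t)) := Nat.pow_le_pow_left ha _

open Classical in
/-- the length of the window for denominators of size `2 ^ t` -/
noncomputable def win (t : ℕ) : ℕ :=
  if h : ∃ w : ℕ, 2 ^ ((K + 1) * t) ≤ a ^ (K * w) then Nat.find h else 0

variable {a K}

theorem win_spec (ha : 2 ≤ a) (hK : 1 ≤ K) (t : ℕ) : 2 ^ ((K + 1) * t) ≤ a ^ (K * win a K t) := by
  classical
  rw [win, dif_pos (win_ex a K ha hK t)]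
  exact Nat.find_spec (win_ex a K ha hK t)

theorem win_min (ha : 2 ≤ a) (hK : 1 ≤ K) (t w : ℕ) (h : 2 ^ ((K + 1) * t) ≤ a ^ (K * w)) :
    win a K t ≤ w := by
  classical
  rw [win, dif_pos (win_ex a K ha hK t)]
  exact Nat.find_min' _ h

theorem win_le (ha : 2 ≤ a) (hK : 1 ≤ K) (t : ℕ) : win a K t ≤ 2 * t := by
  apply win_min ha hK
  calc 2 ^ ((K + 1) * t) ≤ 2 ^ (K * (2 * t)) := by
        apply Nat.pow_le_pow_right (by norm_num)
        nlinarith
    _ ≤ a ^ (K * (2 * t)) := Nat.pow_le_pow_left ha _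

/-- `2 ^ t ≤ a ^ win t` -/
theorem win_pow (ha : 2 ≤ a) (hK : 1 ≤ K) (t : ℕ) : 2 ^ t ≤ a ^ win a K t := by
  have h1 := win_spec ha hK t
  have h2 : (2 ^ t) ^ K ≤ (a ^ win a K t) ^ K := by
    rw [← pow_mul, ← pow_mul]
    calc 2 ^ (t * K) ≤ 2 ^ ((K + 1) * t) := by
          apply Nat.pow_le_pow_right (by norm_num)
          nlinarith
      _ ≤ a ^ (K * win a K t) := h1
      _ = _ := by rw [mul_comm]
  exact (Nat.pow_le_pow_iff_left (by omega)).1 h2

/-- `4 ^ t / a ^ win t ≤ 2 ^ (t (1 - 1 / K))` -/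
theorem win_ratio (ha : 2 ≤ a) (hK : 1 ≤ K) (t : ℕ) :
    (4:ℝ) ^ t / (a:ℝ) ^ win a K t ≤ (2:ℝ) ^ ((1 - 1 / (K:ℝ)) * t) := by
  have ha0 : (0:ℝ) < a := by exact_mod_cast (by omega : 0 < a)
  have hK0 : (0:ℝ) < K := by exact_mod_cast (by omega : 0 < K)
  rw [div_le_iff₀ (by positivity)]
  have h1 : (2:ℝ) ^ ((K + 1) * t) ≤ (a:ℝ) ^ (K * win a K t) := by exact_mod_cast win_spec ha hK t
  have h2 : (2:ℝ) ^ ((1 + 1 / (K:ℝ)) * t) ≤ (a:ℝ) ^ win a K t := by
    rw [← Real.rpow_natCast (a:ℝ) (win a K t)]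
    have h3 := Real.rpow_le_rpow (by positivity) h1 (by positivity : (0:ℝ) ≤ 1 / K)
    rw [← Real.rpow_natCast (2:ℝ), ← Real.rpow_natCast (a:ℝ), ← Real.rpow_mul (by norm_num),
      ← Real.rpow_mul ha0.le] at h3
    have e1 : (((K + 1) * t : ℕ) : ℝ) * (1 / K) = (1 + 1 / (K:ℝ)) * t := by
      push_cast; field_simp
    have e2 : ((K * win a K t : ℕ) : ℝ) * (1 / K) = (win a K t : ℝ) := by
      push_cast; field_simp
    rw [e1, e2] at h3
    exact h3
  calc (4:ℝ) ^ t = (2:ℝ) ^ ((1 - 1 / (K:ℝ)) * t) * (2:ℝ) ^ ((1 + 1 / (K:ℝ)) * t) := by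
        rw [← Real.rpow_add (by norm_num)]
        have : (1 - 1 / (K:ℝ)) * t + (1 + 1 / (K:ℝ)) * t = ((2 * t : ℕ) : ℝ) := by
          push_cast; ring
        rw [this, Real.rpow_natCast, pow_mul]
        norm_num
    _ ≤ _ := mul_le_mul_of_nonneg_left h2 (by positivity)

open Classical in
/-- the denominators below `2 ^ t` of fractions with few active positions in the window -/
noncomputable def QQ (a K h t : ℕ) : Finset ℕ := (range (2 ^ t)).filter
  (fun q => 0 < q ∧ ∃ p : ℤ, IsCoprime p q ∧ h * na a ((p : ℝ) / q) (win a K t) < 2 * win a K t)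

/-- the carry sum -/
noncomputable def cs' (a w : ℕ) (c : Fin w → ℤ) : ℝ := ∑ i : Fin w, (c i : ℝ) * (a:ℝ) ^ (w - 1 - (i:ℕ))

/-- two reduced fractions that are very close are equal -/
theorem den_eq (t : ℕ) (q q' : ℕ) (p p' : ℤ) (hq : 0 < q) (hq' : 0 < q') (hqt : q < 2 ^ t)
    (hqt' : q' < 2 ^ t) (hp : IsCoprime p q) (hp' : IsCoprime p' q')
    (h : |(4:ℝ) ^ t * ((p:ℝ) / q - round ((p:ℝ) / q)) - (4:ℝ) ^ t * ((p':ℝ) / q' - round ((p':ℝ) / q'))| < 1) :
    q = q' := by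
  have hqr : (0:ℝ) < q := by exact_mod_cast hq
  have hqr' : (0:ℝ) < q' := by exact_mod_cast hq'
  set x := (p : ℝ) / q with hx
  set x' := (p' : ℝ) / q' with hx'
  set P : ℤ := p - round x * q with hP
  set P' : ℤ := p' - round x' * q' with hP'
  have e1 : x - round x = (P : ℝ) / q := by
    rw [hP, hx]; push_cast; field_simp
  have e2 : x' - round x' = (P' : ℝ) / q' := by
    rw [hP', hx']; push_cast; field_simp
  have hPc : IsCoprime P q := by
    rw [hP, sub_eq_add_neg, ← neg_mul]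
    exact IsCoprime.add_mul_right_left hp _
  have hPc' : IsCoprime P' q' := by
    rw [hP', sub_eq_add_neg, ← neg_mul]
    exact IsCoprime.add_mul_right_left hp' _
  rw [e1, e2] at h
  have h4 : (0:ℝ) < 4 ^ t := by positivity
  have h5 : |(P : ℝ) * q' - P' * q| < 1 := by
    have h6 : (4:ℝ) ^ t * ((P : ℝ) / q) - (4:ℝ) ^ t * ((P' : ℝ) / q') =
        4 ^ t * (((P : ℝ) * q' - P' * q) / (q * q')) := by
      field_simp
    rw [h6, abs_mul, abs_of_pos h4, abs_div, abs_of_pos (mul_pos hqr hqr')] at h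
    have h7 : (q:ℝ) * q' < 4 ^ t := by
      have g1 : (q:ℝ) < 2 ^ t := by exact_mod_cast hqt
      have g2 : (q':ℝ) < 2 ^ t := by exact_mod_cast hqt'
      have g3 : (4:ℝ) ^ t = 2 ^ t * 2 ^ t := by rw [← mul_pow]; norm_num
      rw [g3]
      exact mul_lt_mul g1 g2.le hqr' (by positivity)
    rw [mul_div_assoc', div_lt_one (mul_pos hqr hqr')] at h
    by_contra hcon
    push Not at hcon
    have : (4:ℝ) ^ t ≤ 4 ^ t * |(P : ℝ) * q' - P' * q| := le_mul_of_one_le_right h4.le hcon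
    linarith
  have h9 : |P * q' - P' * q| < 1 := by exact_mod_cast h5
  have h10 : P * q' = P' * q := by
    have := Int.abs_lt_one_iff.1 h9
    linarith
  have d1 : (q : ℤ) ∣ q' := by
    have : (q : ℤ) ∣ P * q' := ⟨P', by rw [h10]; ring⟩
    exact hPc.symm.dvd_of_dvd_mul_left this
  have d2 : (q' : ℤ) ∣ q := by
    have : (q' : ℤ) ∣ P' * q := ⟨P, by rw [← h10]; ring⟩
    exact hPc'.symm.dvd_of_dvd_mul_left this
  exact Nat.dvd_antisymm (Int.natCast_dvd_natCast.1 d1) (Int.natCast_dvd_natCast.1 d2)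

open Classical in
theorem QQ_card (ha : 2 ≤ a) (hK : 1 ≤ K) (h t : ℕ) (hh : 0 < h) (z : ℝ) (hz : 0 < z) (hz1 : z ≤ 1) :
    ((QQ a K h t).card : ℝ) * (z ^ ((2:ℝ) / h)) ^ win a K t ≤
      (1 + 2 * a * z) ^ win a K t * (3 * (2:ℝ) ^ ((1 - 1 / (K:ℝ)) * t)) := by
  set w := win a K t with hw
  have ha0 : (0:ℝ) < a := by exact_mod_cast (by omega : 0 < a)
  have haw : (0:ℝ) < (a:ℝ) ^ w := by positivity
  set T := (Fintype.piFinset (fun _ : Fin w => Icc (-(a:ℤ)) a)).filter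
    (fun c => h * (univ.filter (fun i => c i ≠ 0)).card < 2 * w) with hT
  set E : ℝ := (4:ℝ) ^ t / (a:ℝ) ^ w with hE
  have hE0 : 0 < E := by positivity
  have hratio : E ≤ (2:ℝ) ^ ((1 - 1 / (K:ℝ)) * t) := win_ratio ha hK t
  have hex : ∀ q ∈ QQ a K h t, ∃ p : ℤ, IsCoprime p q ∧ h * na a ((p : ℝ) / q) w < 2 * w := by
    intro q hq
    rw [QQ, Finset.mem_filter] at hq
    exact hq.2.2
  choose! P hP using hex
  set xx : ℕ → ℝ := fun q => (P q : ℝ) / q with hxx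
  set yy : ℕ → ℝ := fun q => xx q - round (xx q) with hyy
  set cc : ℕ → (Fin w → ℤ) := fun q i => cy a (xx q) i with hcc
  -- the location of `y`
  have hloc : ∀ q, E * (cs' a w (cc q) - 1 / 2) ≤ (4:ℝ) ^ t * yy q ∧
      (4:ℝ) ^ t * yy q ≤ E * (cs' a w (cc q) - 1 / 2) + E := by
    intro q
    have h1 := cy_sum a (xx q) w
    have h2 : ∑ i ∈ range w, (cy a (xx q) i : ℝ) * (a:ℝ) ^ (w - 1 - i) = cs' a w (cc q) := by
      rw [cs', ← Fin.sum_univ_eq_sum_range (fun i => (cy a (xx q) i : ℝ) * (a:ℝ) ^ (w - 1 - i))]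
    rw [h2] at h1
    have h3 := abs_le.1 (abs_sub_round (xx q * (a : ℝ) ^ w))
    rw [h1] at h3
    have h4 : (4:ℝ) ^ t * yy q = E * ((a:ℝ) ^ w * yy q) := by
      rw [hE]; field_simp
    rw [h4]
    constructor
    · apply mul_le_mul_of_nonneg_left _ hE0.le
      linarith [h3.1]
    · have : E * ((a:ℝ) ^ w * yy q) ≤ E * (cs' a w (cc q) + 1 / 2) := by
        apply mul_le_mul_of_nonneg_left _ hE0.le
        linarith [h3.2]
      linarith
  set ff : ℕ → ℤ := fun q => ⌊(4:ℝ) ^ t * yy q⌋ - ⌊E * (cs' a w (cc q) - 1 / 2)⌋ with hff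
  have hffr : ∀ q, ff q ∈ Icc (0:ℤ) (⌊E⌋ + 1) := by
    intro q
    obtain ⟨h1, h2⟩ := hloc q
    rw [Finset.mem_Icc]
    constructor
    · have := Int.floor_le_floor h1
      rw [hff]; simp only; linarith
    · have h3 := Int.floor_le_floor h2
      have h4 := Int.le_floor_add_floor (E * (cs' a w (cc q) - 1 / 2)) E
      have h5 : ⌊E * (cs' a w (cc q) - 1 / 2) + E⌋ ≤ ⌊E * (cs' a w (cc q) - 1 / 2)⌋ + ⌊E⌋ + 1 := by
        linarith
      rw [hff]; simp only; linarith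
  have h1 : (QQ a K h t).card ≤ (T ×ˢ Icc (0:ℤ) (⌊E⌋ + 1)).card := by
    apply Finset.card_le_card_of_injOn (fun q => (cc q, ff q))
    · intro q hq
      have hq' : q ∈ QQ a K h t := hq
      rw [Finset.mem_coe, Finset.mem_product]
      refine ⟨?_, hffr q⟩
      rw [hT]
      simp only [Finset.mem_filter, Fintype.mem_piFinset, Finset.mem_Icc]
      refine ⟨fun i => abs_le.1 (cy_abs a (by omega) _ _), ?_⟩
      refine lt_of_le_of_lt (Nat.mul_le_mul_left h ?_) (hP q hq').2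
      rw [na]
      apply Finset.card_le_card_of_injOn (fun i : Fin w => (i : ℕ))
      · intro i hi
        simp only [Finset.coe_filter, Finset.mem_univ, true_and, Set.mem_ofPred_eq] at hi
        simp only [Finset.coe_filter, Finset.mem_range, Set.mem_ofPred_eq]
        refine ⟨i.2, ?_⟩
        by_contra hn
        exact hi (cy_zero a (by omega) _ _ hn)
      · intro i _ j _ hij
        exact Fin.ext hij
    · intro q hq q' hq' heq
      have hqm : q ∈ QQ a K h t := hq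
      have hqm' : q' ∈ QQ a K h t := hq'
      have h1 := hqm
      have h2 := hqm'
      rw [QQ, Finset.mem_filter, Finset.mem_range] at h1 h2
      simp only [Prod.mk.injEq] at heq
      obtain ⟨hc, hf⟩ := heq
      apply den_eq t q q' (P q) (P q') h1.2.1 h2.2.1 h1.1 h2.1 (hP q hqm).1 (hP q' hqm').1
      apply Int.abs_sub_lt_one_of_floor_eq_floor
      have hf' : ⌊(4:ℝ) ^ t * yy q⌋ - ⌊E * (cs' a w (cc q) - 1 / 2)⌋ =
        ⌊(4:ℝ) ^ t * yy q'⌋ - ⌊E * (cs' a w (cc q') - 1 / 2)⌋ := hf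
      rw [hc] at hf'
      have : ⌊(4:ℝ) ^ t * yy q⌋ = ⌊(4:ℝ) ^ t * yy q'⌋ := by linarith
      exact this
  have h2 : (T.card : ℝ) * (z ^ ((2:ℝ) / h)) ^ w ≤
      ∑ c ∈ Fintype.piFinset (fun _ : Fin w => Icc (-(a:ℤ)) a), ∏ i, (if c i = 0 then (1:ℝ) else z) := by
    calc (T.card : ℝ) * (z ^ ((2:ℝ) / h)) ^ w = ∑ c ∈ T, (z ^ ((2:ℝ) / h)) ^ w := by
          rw [Finset.sum_const, nsmul_eq_mul]
      _ ≤ ∑ c ∈ T, ∏ i, (if c i = 0 then (1:ℝ) else z) := by
          apply Finset.sum_le_sum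
          intro c hc
          rw [hT, Finset.mem_filter] at hc
          rw [Finset.prod_ite, Finset.prod_const_one, one_mul, Finset.prod_const]
          rw [← Real.rpow_natCast z, ← Real.rpow_natCast (z ^ ((2:ℝ) / h)), ← Real.rpow_mul hz.le]
          apply Real.rpow_le_rpow_of_exponent_ge hz hz1
          have h3 := hc.2
          have hh' : (0:ℝ) < h := by exact_mod_cast hh
          rw [div_mul_eq_mul_div, le_div_iff₀ hh']
          have h4 : (h:ℝ) * ((univ.filter (fun i => c i ≠ 0)).card : ℝ) < 2 * w := by exact_mod_cast h3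
          have h5 : (univ.filter (fun i => ¬ c i = 0)).card = (univ.filter (fun i => c i ≠ 0)).card := rfl
          rw [h5]
          linarith
      _ ≤ _ := by
          apply Finset.sum_le_sum_of_subset_of_nonneg
          · rw [hT]; exact Finset.filter_subset _ _
          · intro c _ _
            apply Finset.prod_nonneg
            intro i _
            split_ifs <;> [norm_num; exact hz.le]
  have h3 : ∑ c ∈ Fintype.piFinset (fun _ : Fin w => Icc (-(a:ℤ)) a), ∏ i, (if c i = 0 then (1:ℝ) else z)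
      = (1 + 2 * a * z) ^ w := by
    have h4 := Finset.prod_univ_sum (fun _ : Fin w => Icc (-(a:ℤ)) a)
      (fun _ t => if t = 0 then (1:ℝ) else z)
    rw [← h4]
    rw [Finset.prod_const, Finset.card_univ, Fintype.card_fin]
    congr 1
    rw [Finset.sum_ite, Finset.sum_const, Finset.sum_const]
    have h5 : (Icc (-(a:ℤ)) a).filter (fun t => t = 0) = {0} := by
      ext t
      simp only [Finset.mem_filter, Finset.mem_Icc, Finset.mem_singleton]
      constructor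
      · rintro ⟨_, h⟩; exact h
      · rintro rfl; simp
    have h6 : ((Icc (-(a:ℤ)) a).filter (fun t => ¬ t = 0)).card = 2 * a := by
      have h7 := Finset.card_filter_add_card_filter_not (s := Icc (-(a:ℤ)) a) (fun t => t = 0)
      rw [h5, Finset.card_singleton, Int.card_Icc] at h7
      omega
    rw [h5, h6]
    simp
  rw [h3] at h2
  have h4 : ((Icc (0:ℤ) (⌊E⌋ + 1)).card : ℝ) ≤ 3 * (2:ℝ) ^ ((1 - 1 / (K:ℝ)) * t) := by
    rw [Int.card_Icc]
    have h5 : (0:ℤ) ≤ ⌊E⌋ := Int.floor_nonneg.2 hE0.le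
    have h6 : ((⌊E⌋ + 1 + 1 - 0).toNat : ℝ) = (⌊E⌋ : ℝ) + 2 := by
      have : ((⌊E⌋ + 1 + 1 - 0).toNat : ℤ) = ⌊E⌋ + 2 := by omega
      exact_mod_cast this
    rw [h6]
    have h7 : (⌊E⌋ : ℝ) ≤ E := Int.floor_le E
    have h8 : (1:ℝ) ≤ (2:ℝ) ^ ((1 - 1 / (K:ℝ)) * t) := by
      apply Real.one_le_rpow (by norm_num)
      apply mul_nonneg _ (Nat.cast_nonneg _)
      have hK1 : (1:ℝ) ≤ K := by exact_mod_cast hK
      have : 1 / (K:ℝ) ≤ 1 := (div_le_one (by linarith)).2 hK1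
      linarith
    linarith
  have h5 : ((QQ a K h t).card : ℝ) ≤ (T.card : ℝ) * ((Icc (0:ℤ) (⌊E⌋ + 1)).card : ℝ) := by
    rw [Finset.card_product] at h1
    exact_mod_cast h1
  have hz2 : 0 < (z ^ ((2:ℝ) / h)) ^ w := by positivity
  calc ((QQ a K h t).card : ℝ) * (z ^ ((2:ℝ) / h)) ^ w
      ≤ ((T.card : ℝ) * ((Icc (0:ℤ) (⌊E⌋ + 1)).card : ℝ)) * (z ^ ((2:ℝ) / h)) ^ w :=
        mul_le_mul_of_nonneg_right h5 hz2.le
    _ = ((T.card : ℝ) * (z ^ ((2:ℝ) / h)) ^ w) * ((Icc (0:ℤ) (⌊E⌋ + 1)).card : ℝ) := by ring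
    _ ≤ (1 + 2 * a * z) ^ w * (3 * (2:ℝ) ^ ((1 - 1 / (K:ℝ)) * t)) :=
        mul_le_mul h2 h4 (Nat.cast_nonneg _) (by positivity)

/-- the contraction rate -/
noncomputable def lamK (K : ℕ) : ℝ := (2:ℝ) ^ (-(1 / (2 * (K:ℝ))))

theorem lamK_pos (K : ℕ) : 0 < lamK K := Real.rpow_pos_of_pos (by norm_num) _

theorem lamK_lt (K : ℕ) (hK : 1 ≤ K) : lamK K < 1 := by
  have hK0 : (0:ℝ) < K := by exact_mod_cast (by omega : 0 < K)
  exact Real.rpow_lt_one_of_one_lt_of_neg (by norm_num) (by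
    rw [neg_lt_zero]; positivity)

theorem QQ_small (ha : 2 ≤ a) (hK : 1 ≤ K) : ∃ h0 : ℕ, 0 < h0 ∧ ∀ h ≥ h0, ∀ t : ℕ,
    ((QQ a K h t).card : ℝ) ≤ 3 * (2 * lamK K) ^ t := by
  have ha' : (0:ℝ) < a := by exact_mod_cast (by omega : 0 < a)
  have hK0 : (0:ℝ) < K := by exact_mod_cast (by omega : 0 < K)
  set β : ℝ := (2:ℝ) ^ (1 / (8 * (K:ℝ))) with hβ
  have hβ1 : 1 < β := Real.one_lt_rpow (by norm_num) (by positivity)
  have hβ0 : 0 < β := by linarith
  set z : ℝ := min 1 ((β - 1) / (2 * a)) with hz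
  have hz0 : 0 < z := lt_min one_pos (div_pos (by linarith) (by positivity))
  have hz1 : z ≤ 1 := min_le_left _ _
  have hz2 : 1 + 2 * a * z ≤ β := by
    have : z ≤ (β - 1) / (2 * a) := min_le_right _ _
    rw [le_div_iff₀ (by positivity)] at this
    linarith
  have h1 : Tendsto (fun h : ℕ => z ^ ((2:ℝ) / h)) atTop (𝓝 1) := by
    have h2 : Tendsto (fun h : ℕ => (2:ℝ) / h) atTop (𝓝 0) := tendsto_const_div_atTop_nhds_zero_nat 2
    have h3 : ContinuousAt (fun y : ℝ => z ^ y) 0 := Real.continuousAt_const_rpow hz0.ne'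
    have h4 := h3.tendsto.comp h2
    rw [Real.rpow_zero] at h4
    exact h4
  have h5 : ∀ᶠ h : ℕ in atTop, (1 / β : ℝ) < z ^ ((2:ℝ) / h) :=
    h1.eventually (lt_mem_nhds ((div_lt_one hβ0).2 hβ1))
  obtain ⟨h0, hh0⟩ := Filter.eventually_atTop.1 h5
  refine ⟨h0 + 1, by omega, fun h hh t => ?_⟩
  have h6 := QQ_card ha hK h t (by omega) z hz0 hz1
  have h7 := hh0 h (by omega)
  set w := win a K t with hw
  have hwt : w ≤ 2 * t := win_le ha hK t
  have h8 : ((QQ a K h t).card : ℝ) * (1 / β) ^ w ≤ β ^ w * (3 * (2:ℝ) ^ ((1 - 1 / (K:ℝ)) * t)) := by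
    calc ((QQ a K h t).card : ℝ) * (1 / β) ^ w ≤ ((QQ a K h t).card : ℝ) * (z ^ ((2:ℝ) / h)) ^ w := by
          apply mul_le_mul_of_nonneg_left _ (Nat.cast_nonneg _)
          exact pow_le_pow_left₀ (by positivity) h7.le w
      _ ≤ _ := h6
      _ ≤ _ := by
          apply mul_le_mul_of_nonneg_right _ (by positivity)
          exact pow_le_pow_left₀ (by positivity) hz2 w
  have h9 : ((QQ a K h t).card : ℝ) ≤ β ^ (2 * w) * (3 * (2:ℝ) ^ ((1 - 1 / (K:ℝ)) * t)) := by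
    have h10 := mul_le_mul_of_nonneg_right h8 (pow_pos hβ0 w).le
    have e1 : ((QQ a K h t).card : ℝ) * (1 / β) ^ w * β ^ w = ((QQ a K h t).card : ℝ) := by
      rw [mul_assoc, ← mul_pow, one_div_mul_cancel hβ0.ne', one_pow, mul_one]
    rw [e1] at h10
    refine h10.trans (le_of_eq ?_)
    rw [two_mul, pow_add]; ring
  refine h9.trans ?_
  have h10 : β ^ (2 * w) ≤ (2:ℝ) ^ ((1 / (2 * (K:ℝ))) * t) := by
    calc β ^ (2 * w) ≤ β ^ (4 * t) := pow_le_pow_right₀ hβ1.le (by omega)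
      _ = (2:ℝ) ^ ((1 / (2 * (K:ℝ))) * t) := by
          rw [hβ, ← Real.rpow_natCast, ← Real.rpow_mul (by norm_num)]
          congr 1
          push_cast
          field_simp
          ring
  have h11 : (2:ℝ) ^ ((1 / (2 * (K:ℝ))) * t) * (3 * (2:ℝ) ^ ((1 - 1 / (K:ℝ)) * t)) = 3 * (2 * lamK K) ^ t := by
    have e2 : (2:ℝ) * lamK K = (2:ℝ) ^ (1 - 1 / (2 * (K:ℝ))) := by
      rw [lamK]
      nth_rewrite 1 [← Real.rpow_one 2]
      rw [← Real.rpow_add (by norm_num)]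
      congr 1
    rw [e2, ← Real.rpow_natCast, ← Real.rpow_mul (by norm_num)]
    calc (2:ℝ) ^ ((1 / (2 * (K:ℝ))) * t) * (3 * (2:ℝ) ^ ((1 - 1 / (K:ℝ)) * t))
        = 3 * ((2:ℝ) ^ ((1 / (2 * (K:ℝ))) * t) * (2:ℝ) ^ ((1 - 1 / (K:ℝ)) * t)) := by ring
      _ = 3 * (2:ℝ) ^ ((1 - 1 / (2 * (K:ℝ))) * t) := by
          rw [← Real.rpow_add (by norm_num)]
          congr 2
          field_simp
          ring
  rw [← h11]
  exact mul_le_mul_of_nonneg_right h10 (by positivity)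

/-- every reduced fraction with denominator at least two is active somewhere in its window -/
theorem exists_act' (ha : 2 ≤ a) (hK : 1 ≤ K) (t q : ℕ) (p : ℤ) (hq : 2 ≤ q) (hqt : q < 2 ^ t)
    (hp : IsCoprime p q) : ∃ i < win a K t, act a ((p : ℝ) / q) i := by
  by_contra hcon
  push Not at hcon
  have hqr : (0:ℝ) < q := by exact_mod_cast (by omega : 0 < q)
  set w := win a K t with hw
  set x := (p : ℝ) / q with hx
  have h1 := cy_sum a x w
  have h3 : ∑ i ∈ range w, (cy a x i : ℝ) * (a:ℝ) ^ (w - 1 - i) = 0 := by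
    apply Finset.sum_eq_zero
    intro i hi
    rw [cy_zero a (by omega) x i (hcon i (Finset.mem_range.1 hi))]
    simp
  rw [h3, sub_zero] at h1
  have b1 := abs_sub_round (x * (a : ℝ) ^ w)
  rw [h1, abs_mul] at b1
  have haw : (q:ℝ) < (a:ℝ) ^ w := by
    have := win_pow (a := a) (K := K) ha hK t
    exact_mod_cast lt_of_lt_of_le hqt this
  have haw0 : (0:ℝ) < (a:ℝ) ^ w := lt_trans hqr haw
  rw [abs_of_pos haw0] at b1
  set P : ℤ := p - round x * q with hP
  have e1 : x - round x = (P : ℝ) / q := by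
    rw [hP, hx]; push_cast; field_simp
  have hP0 : P ≠ 0 := by
    intro h0
    have h1 : p = round x * q := by linarith
    have h2 : (q : ℤ) ∣ p := ⟨round x, by rw [h1]; ring⟩
    have h3 : IsUnit (q : ℤ) := (IsCoprime.isUnit_of_dvd' hp h2 dvd_rfl)
    rw [Int.isUnit_iff] at h3
    omega
  have h5 : (1:ℝ) ≤ |(P:ℝ)| := by
    have : (1:ℤ) ≤ |P| := Int.one_le_abs hP0
    exact_mod_cast this
  rw [e1, abs_div, abs_of_pos hqr] at b1
  rw [mul_div_assoc', div_le_iff₀ hqr] at b1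
  have h8 : (a:ℝ) ^ w ≤ (a:ℝ) ^ w * |(P:ℝ)| := le_mul_of_one_le_right haw0.le h5
  linarith

/-- the bad moduli are multiples of the special denominators -/
theorem bad_dvd' (ha : 2 ≤ a) (hK : 1 ≤ K) (h L X q : ℕ) (P : ℤ) (hX : (2 * X) ^ (K + 1) ≤ a ^ (K * L))
    (hq1 : 1 ≤ q) (hq : q ≤ X) (hqa : q.Coprime a) (hk : ¬ (q:ℤ) ∣ P)
    (hL : h * na a ((P : ℝ) / q) L < L) :
    ∃ t ∈ Ioc (h / 4) (Nat.log 2 X + 1), ∃ q' ∈ (QQ a K h t).filter (fun q' => 2 ^ (t - 1) ≤ q'), q' ∣ q := by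
  set g := Int.gcd P q with hg
  have hq0 : (q:ℤ) ≠ 0 := by exact_mod_cast (by omega : q ≠ 0)
  have hgpos : 0 < g := Int.gcd_pos_of_ne_zero_right _ hq0
  obtain ⟨p', hp'⟩ := Int.gcd_dvd_left P q
  have hgq : g ∣ q := by
    have := Int.gcd_dvd_right P q
    rw [← hg] at this
    exact_mod_cast this
  obtain ⟨q', hq'⟩ := hgq
  rw [← hg] at hp'
  have hq'2 : 2 ≤ q' := by
    by_contra hcon
    push Not at hcon
    interval_cases q'
    · omega
    · apply hk
      rw [hp', hq']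
      exact ⟨p', by push_cast; ring⟩
  have hcop : IsCoprime p' (q' : ℤ) := by
    rw [Int.isCoprime_iff_gcd_eq_one]
    have h1 : Int.gcd ((g:ℤ) * p') ((g:ℤ) * q') = g := by
      rw [← hp']
      have : (g:ℤ) * q' = q := by exact_mod_cast hq'.symm
      rw [this]
    rw [Int.gcd_mul_left, Int.natAbs_natCast] at h1
    exact Nat.eq_of_mul_eq_mul_left hgpos (by rw [h1, mul_one])
  have hq'a : Nat.Coprime q' a := Nat.Coprime.coprime_dvd_left ⟨g, by rw [hq']; ring⟩ hqa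
  set t := Nat.log 2 q' + 1 with ht
  have hq'lt : q' < 2 ^ t := Nat.lt_pow_succ_log_self (by norm_num) q'
  have hq'ge : 2 ^ (t - 1) ≤ q' := by
    rw [ht, Nat.add_sub_cancel]
    exact Nat.pow_log_le_self 2 (by omega)
  have hq'q : q' ≤ q := Nat.le_of_dvd (by omega) ⟨g, by rw [hq']; ring⟩
  have htX : t ≤ Nat.log 2 X + 1 := by
    rw [ht]
    have : Nat.log 2 q' ≤ Nat.log 2 X := Nat.log_mono_right (hq'q.trans hq)
    omega
  have hwin1 : 1 ≤ win a K t := by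
    by_contra hcon
    have h0 : win a K t = 0 := by omega
    have := win_pow (a := a) (K := K) ha hK t
    rw [h0, pow_zero] at this
    have h2 : 2 ≤ 2 ^ t := by
      calc 2 = 2 ^ 1 := by norm_num
        _ ≤ 2 ^ t := Nat.pow_le_pow_right (by norm_num) (by omega)
    omega
  have hwL : win a K t ≤ L := by
    apply win_min ha hK
    refine le_trans ?_ hX
    rw [mul_comm (K + 1) t, pow_mul]
    apply Nat.pow_le_pow_left
    calc 2 ^ t ≤ 2 ^ (Nat.log 2 X + 1) := Nat.pow_le_pow_right (by norm_num) htX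
      _ = 2 * 2 ^ Nat.log 2 X := by ring
      _ ≤ 2 * X := Nat.mul_le_mul_left 2 (Nat.pow_log_le_self 2 (by omega))
  obtain ⟨r, hr⟩ := pigeon a ((P : ℝ) / q) h (win a K t) L hwin1 hwL hL
  have hx : (P : ℝ) / q * (a:ℝ) ^ (r * win a K t) = ((p' * a ^ (r * win a K t) : ℤ) : ℝ) / q' := by
    rw [hp', hq']
    push_cast
    have h1 : (g : ℝ) ≠ 0 := by exact_mod_cast hgpos.ne'
    have h2 : (q' : ℝ) ≠ 0 := by exact_mod_cast (by omega : q' ≠ 0)
    field_simp
  rw [hx] at hr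
  have hc : IsCoprime (p' * (a:ℤ) ^ (r * win a K t)) (q' : ℤ) := by
    apply IsCoprime.mul_left hcop
    apply IsCoprime.pow_left
    exact Nat.isCoprime_iff_coprime.2 hq'a.symm
  have hmem : q' ∈ QQ a K h t := by
    classical
    rw [QQ, Finset.mem_filter, Finset.mem_range]
    exact ⟨hq'lt, by omega, _, hc, hr⟩
  obtain ⟨i, hi, hact⟩ := exists_act' ha hK t q' _ hq'2 hq'lt hc
  have hna : 1 ≤ na a (((p' * (a:ℤ) ^ (r * win a K t) : ℤ) : ℝ) / q') (win a K t) := by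
    classical
    rw [na]
    apply Finset.card_pos.2
    exact ⟨i, by rw [Finset.mem_filter, Finset.mem_range]; exact ⟨hi, hact⟩⟩
  refine ⟨t, ?_, q', ?_, ⟨g, by rw [hq']; ring⟩⟩
  · rw [Finset.mem_Ioc]
    refine ⟨?_, htX⟩
    have h1 : h * 1 ≤ h * na a (((p' * (a:ℤ) ^ (r * win a K t) : ℤ) : ℝ) / q') (win a K t) :=
      Nat.mul_le_mul_left h hna
    have h2 := win_le (a := a) (K := K) ha hK t
    omega
  · rw [Finset.mem_filter]
    exact ⟨hmem, hq'ge⟩

open Classical in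
/-- the moduli with an inactive frequency -/
noncomputable def badQ (a h L X : ℕ) : Finset ℕ := (Icc 1 X).filter (fun q : ℕ => q.Coprime a ∧
  ∃ P : ℤ, ¬ (q:ℤ) ∣ P ∧ h * na a ((P : ℝ) / q) L < L)

open Classical in
/-- counting the bad moduli -/
theorem bad_card' (ha : 2 ≤ a) (hK : 1 ≤ K) (h L X : ℕ) (hX : (2 * X) ^ (K + 1) ≤ a ^ (K * L))
    (hQ : ∀ t : ℕ, ((QQ a K h t).card : ℝ) ≤ 3 * (2 * lamK K) ^ t) :
    ((badQ a h L X).card : ℝ) ≤ X * (6 * (lamK K ^ (h / 4 + 1) / (1 - lamK K))) := by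
  have hlam0 := lamK_pos K
  have hlam1 := lamK_lt K hK
  have hsub : badQ a h L X ⊆
      (Ioc (h / 4) (Nat.log 2 X + 1)).biUnion (fun t => ((QQ a K h t).filter (fun q' => 2 ^ (t - 1) ≤ q')).biUnion
        (fun q' => (Ioc 0 X).filter (fun q : ℕ => q' ∣ q))) := by
    intro q hq
    rw [badQ, Finset.mem_filter, Finset.mem_Icc] at hq
    obtain ⟨⟨hq1, hqX⟩, hqa, P, hP, hL⟩ := hq
    obtain ⟨t, ht, q', hq', hd⟩ := bad_dvd' ha hK h L X q P hX hq1 hqX hqa hP hL
    rw [Finset.mem_biUnion]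
    refine ⟨t, ht, ?_⟩
    rw [Finset.mem_biUnion]
    refine ⟨q', hq', ?_⟩
    rw [Finset.mem_filter, Finset.mem_Ioc]
    exact ⟨⟨by omega, hqX⟩, hd⟩
  have h1 : ((badQ a h L X).card : ℝ) ≤
      ∑ t ∈ Ioc (h / 4) (Nat.log 2 X + 1), ∑ q' ∈ (QQ a K h t).filter (fun q' => 2 ^ (t - 1) ≤ q'),
        (((Ioc 0 X).filter (fun q : ℕ => q' ∣ q)).card : ℝ) := by
    have h2 : (badQ a h L X).card ≤
      ∑ t ∈ Ioc (h / 4) (Nat.log 2 X + 1), ∑ q' ∈ (QQ a K h t).filter (fun q' => 2 ^ (t - 1) ≤ q'),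
        ((Ioc 0 X).filter (fun q : ℕ => q' ∣ q)).card := by
      refine (Finset.card_le_card hsub).trans (Finset.card_biUnion_le.trans ?_)
      exact Finset.sum_le_sum fun w _ => Finset.card_biUnion_le
    exact_mod_cast h2
  refine h1.trans ?_
  have h3 : ∀ t ∈ Ioc (h / 4) (Nat.log 2 X + 1), ∑ q' ∈ (QQ a K h t).filter (fun q' => 2 ^ (t - 1) ≤ q'),
        (((Ioc 0 X).filter (fun q : ℕ => q' ∣ q)).card : ℝ) ≤ X * (6 * lamK K ^ t) := by
    intro t ht
    rw [Finset.mem_Ioc] at ht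
    have ht1 : 1 ≤ t := by omega
    have h4 : ∀ q' ∈ (QQ a K h t).filter (fun q' => 2 ^ (t - 1) ≤ q'),
        (((Ioc 0 X).filter (fun q : ℕ => q' ∣ q)).card : ℝ) ≤ X * (2 / 2 ^ t) := by
      intro q' hq'
      rw [Finset.mem_filter] at hq'
      rw [Nat.Ioc_filter_dvd_card_eq_div]
      have h5 : ((X / q' : ℕ) : ℝ) ≤ (X : ℝ) / q' := Nat.cast_div_le
      refine h5.trans ?_
      have h6 : (2:ℝ) ^ (t - 1) ≤ q' := by exact_mod_cast hq'.2
      have h7 : (2:ℝ) / 2 ^ t = 1 / 2 ^ (t - 1) := by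
        have : (2:ℝ) ^ t = 2 ^ (t - 1) * 2 := by
          rw [← pow_succ]; congr 1; omega
        rw [this]; field_simp
      rw [h7, mul_one_div]
      exact div_le_div_of_nonneg_left (by positivity) (by positivity) h6
    refine (Finset.sum_le_sum h4).trans ?_
    rw [Finset.sum_const, nsmul_eq_mul]
    have h8 : (((QQ a K h t).filter (fun q' => 2 ^ (t - 1) ≤ q')).card : ℝ) ≤ 3 * (2 * lamK K) ^ t := by
      refine le_trans ?_ (hQ t)
      exact_mod_cast Finset.card_filter_le _ _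
    calc (((QQ a K h t).filter (fun q' => 2 ^ (t - 1) ≤ q')).card : ℝ) * (X * (2 / 2 ^ t))
        ≤ (3 * (2 * lamK K) ^ t) * (X * (2 / 2 ^ t)) := mul_le_mul_of_nonneg_right h8 (by positivity)
      _ = X * (6 * lamK K ^ t) := by
          rw [mul_pow]
          field_simp
          ring
  refine (Finset.sum_le_sum h3).trans ?_
  rw [← Finset.mul_sum, ← Finset.mul_sum]
  apply mul_le_mul_of_nonneg_left _ (by positivity)
  apply mul_le_mul_of_nonneg_left _ (by norm_num)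
  have h10 : Ioc (h / 4) (Nat.log 2 X + 1) = Ico (h / 4 + 1) (Nat.log 2 X + 1 + 1) := by
    ext w; rw [Finset.mem_Ioc, Finset.mem_Ico]; omega
  rw [h10]
  exact geom_sum_Ico_le_of_lt_one hlam0.le hlam1

end Pool.Agent.KS6_59.AX
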