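import Pool.Agent.KS6_59.AX.Act
import Pool.Agent.KS6_59.AX.Cnt

/-! Blocks of digits, truncation at typical blocks, and the `L^1` distance. -/

set_option autoImplicit false
set_option linter.unusedSectionVars false

open Finset Filter Topology

namespace Pool.Agent.KS6_59.AX

open H942R3.AX

section tv

variable {Ω : Type*} [Fintype Ω] (μ ν : Ω → ℝ) (f : Ω → ℤ)

theorem lw_mono (h : ∀ ω, ν ω ≤ μ ω) (q : ℕ) (r : ℤ) : lw ν f q r ≤ lw μ f q r := by
  unfold lw
  apply Finset.sum_le_sum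
  intro ω _
  split_ifs <;> [exact h ω; exact le_rfl]

/-- comparison with a smaller measure -/
theorem l1_trunc (h1 : ∑ ω, μ ω = 1) (h : ∀ ω, ν ω ≤ μ ω) (q : ℕ) (hq : 0 < q) :
    ∑ r ∈ range q, |lw μ f q r - 1 / q| ≤
      2 * (1 - ∑ ω, ν ω) + ∑ r ∈ range q, |lw ν f q r - (∑ ω, ν ω) / q| := by
  have hq' : (0:ℝ) < q := by exact_mod_cast hq
  have hle : ∑ ω, ν ω ≤ 1 := by rw [← h1]; exact Finset.sum_le_sum fun ω _ => h ω
  have h2 : ∀ r ∈ range q, |lw μ f q r - 1 / q| ≤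
      (lw μ f q r - lw ν f q r) + |lw ν f q r - (∑ ω, ν ω) / q| + (1 - ∑ ω, ν ω) / q := by
    intro r _
    have e : lw μ f q r - 1 / q = (lw μ f q r - lw ν f q r) + (lw ν f q r - (∑ ω, ν ω) / q) +
        (-((1 - ∑ ω, ν ω) / q)) := by ring
    rw [e]
    refine (abs_add_three _ _ _).trans ?_
    rw [abs_of_nonneg (sub_nonneg.2 (lw_mono μ ν f h q r)), abs_neg,
      abs_of_nonneg (div_nonneg (by linarith) hq'.le)]
  refine (Finset.sum_le_sum h2).trans (le_of_eq ?_)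
  rw [Finset.sum_add_distrib, Finset.sum_add_distrib, Finset.sum_sub_distrib, sum_lw μ f q hq,
    sum_lw ν f q hq, h1, Finset.sum_const, Finset.card_range, nsmul_eq_mul, mul_div_cancel₀ _ hq'.ne']
  ring

theorem lw_equiv {Ω' : Type*} [Fintype Ω'] (e : Ω' ≃ Ω) (q : ℕ) (r : ℤ) :
    lw (fun x => μ (e x)) (fun x => f (e x)) q r = lw μ f q r := by
  unfold lw
  exact Equiv.sum_comp e (fun ω => if (q:ℤ) ∣ f ω - r then μ ω else 0)

end tv

section blocks

variable {D : Type*} [Fintype D] [DecidableEq D] (p : D → ℝ) (v : D → ℤ) (a : ℕ)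

/-- blocks -/
def blk (D : Type*) (R m : ℕ) : (Fin R → Fin m → D) ≃ (Fin (R * m) → D) :=
  (Equiv.curry (Fin R) (Fin m) D).symm.trans (Equiv.arrowCongr finProdFinEquiv (Equiv.refl D))

theorem blk_apply (R m : ℕ) (c : Fin R → Fin m → D) (x : Fin R × Fin m) :
    blk D R m c (finProdFinEquiv x) = c x.1 x.2 := by
  simp [blk, Function.uncurry]

theorem wn_blk (R m : ℕ) (c : Fin R → Fin m → D) :
    wn p (R * m) (blk D R m c) = PW (fun _ : Fin R => wn p m) c := by
  unfold wn PW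
  rw [← Equiv.prod_comp finProdFinEquiv, Fintype.prod_prod_type]
  refine Finset.prod_congr rfl fun r _ => Finset.prod_congr rfl fun j _ => ?_
  rw [blk_apply]

theorem vl_blk (R m : ℕ) (c : Fin R → Fin m → D) :
    vl v a (blk D R m c) = vl (fun b : Fin m → D => vl v a b) (a ^ m) c := by
  unfold vl
  rw [← Equiv.sum_comp finProdFinEquiv, Fintype.sum_prod_type]
  refine Finset.sum_congr rfl fun r _ => ?_
  rw [Finset.sum_mul]
  refine Finset.sum_congr rfl fun j _ => ?_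
  rw [blk_apply]
  have : ((finProdFinEquiv (r, j) : Fin (R * m)) : ℕ) = (j:ℕ) + m * (r:ℕ) := rfl
  rw [this, pow_add, pow_mul]
  push_cast
  ring

theorem lw_blk (R m q : ℕ) (r : ℤ) : lw (wn p (R * m)) (vl v a) q r =
    lw (PW (fun _ : Fin R => wn p m)) (vl (fun b : Fin m → D => vl v a b) (a ^ m)) q r := by
  rw [← lw_equiv (wn p (R * m)) (vl v a) (blk D R m)]
  congr 1
  · funext c; exact wn_blk p R m c
  · funext c; exact vl_blk v a R m c

/-- truncated weights -/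
noncomputable def tw (m : ℕ) (θ : ℝ) (c : Fin m → D) : ℝ :=
  if ms (wn p m) (vl v a) (vl v a c) ≤ θ then wn p m c else 0

/-- removed mass -/
noncomputable def dl (m : ℕ) (θ : ℝ) : ℝ :=
  ∑ c : Fin m → D, if θ < ms (wn p m) (vl v a) (vl v a c) then wn p m c else 0

variable {p} (hp : ∀ d, 0 < p d)

include hp

theorem tw_nonneg (m : ℕ) (θ : ℝ) (c : Fin m → D) : 0 ≤ tw p v a m θ c := by
  unfold tw
  split_ifs <;> [exact (wn_pos p hp m c).le; exact le_rfl]

theorem tw_le (m : ℕ) (θ : ℝ) (c : Fin m → D) : tw p v a m θ c ≤ wn p m c := by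
  unfold tw
  split_ifs <;> [exact le_rfl; exact (wn_pos p hp m c).le]

theorem dl_nonneg (m : ℕ) (θ : ℝ) : 0 ≤ dl p v a m θ := by
  unfold dl
  apply Finset.sum_nonneg
  intro c _
  split_ifs <;> [exact (wn_pos p hp m c).le; exact le_rfl]

omit hp in
theorem tw_sum (h1 : ∑ d, p d = 1) (m : ℕ) (θ : ℝ) : ∑ c, tw p v a m θ c = 1 - dl p v a m θ := by
  rw [eq_sub_iff_add_eq, ← wn_sum p h1 m, dl, ← Finset.sum_add_distrib]
  refine Finset.sum_congr rfl fun c _ => ?_
  unfold tw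
  by_cases h : ms (wn p m) (vl v a) (vl v a c) ≤ θ
  · rw [if_pos h, if_neg (not_lt.2 h), add_zero]
  · rw [if_neg h, if_pos (not_le.1 h), zero_add]

theorem tw_ms (m : ℕ) (θ : ℝ) (hθ : 0 ≤ θ) (s : ℤ) : ms (tw p v a m θ) (vl v a) s ≤ θ := by
  by_cases h : ms (wn p m) (vl v a) s ≤ θ
  · refine le_trans ?_ h
    unfold ms
    apply Finset.sum_le_sum
    intro c _
    split_ifs <;> [exact tw_le v a hp m θ c; exact le_rfl]
  · have : ms (tw p v a m θ) (vl v a) s = 0 := by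
      rw [ms]
      apply Finset.sum_eq_zero
      intro c _
      split_ifs with hc
      · rw [tw, if_neg]
        rw [hc]; exact h
      · rfl
    rw [this]; exact hθ

theorem tw_cht (m : ℕ) (θ : ℝ) (q k : ℕ) (t : ℤ) :
    ‖cht (tw p v a m θ) (vl v a) q k t‖ ≤ ‖cht (wn p m) (vl v a) q k t‖ + dl p v a m θ := by
  have h1 : cht (tw p v a m θ) (vl v a) q k t = cht (wn p m) (vl v a) q k t -
      ∑ c : Fin m → D, ((wn p m c - tw p v a m θ c : ℝ) : ℂ) * ee q k (t * vl v a c) := by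
    unfold cht
    rw [← Finset.sum_sub_distrib]
    refine Finset.sum_congr rfl fun c _ => ?_
    push_cast
    ring
  rw [h1]
  refine (norm_sub_le _ _).trans ?_
  apply add_le_add le_rfl
  refine (norm_sum_le _ _).trans ?_
  rw [dl]
  apply Finset.sum_le_sum
  intro c _
  rw [norm_mul, norm_ee, mul_one, Complex.norm_real, Real.norm_eq_abs,
    abs_of_nonneg (sub_nonneg.2 (tw_le v a hp m θ c))]
  unfold tw
  by_cases h : ms (wn p m) (vl v a) (vl v a c) ≤ θ
  · rw [if_pos h, if_neg (not_lt.2 h), sub_self]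
  · rw [if_neg h, if_pos (not_le.1 h), sub_zero]

/-- the weights with the block `r` frozen at `c₀` -/
noncomputable def fw (p : D → ℝ) (v : D → ℤ) (a R m : ℕ) (θ : ℝ) (c₀ : Fin m → D) (r : Fin R) :
    Fin R → (Fin m → D) → ℝ :=
  fun i c => if i = r then (if c = c₀ then 1 else 0) else tw p v a m θ c

theorem fw_nonneg (R m : ℕ) (θ : ℝ) (c₀ : Fin m → D) (r i : Fin R) (c : Fin m → D) :
    0 ≤ fw p v a R m θ c₀ r i c := by
  unfold fw
  split_ifs
  · norm_num
  · norm_num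
  · exact tw_nonneg v a hp m θ c

omit hp in
theorem cht_pt (m q k : ℕ) (t : ℤ) (c₀ : Fin m → D) :
    ‖cht (fun c : Fin m → D => if c = c₀ then (1:ℝ) else 0) (vl v a) q k t‖ = 1 := by
  have : cht (fun c : Fin m → D => if c = c₀ then (1:ℝ) else 0) (vl v a) q k t = ee q k (t * vl v a c₀) := by
    unfold cht
    rw [Finset.sum_eq_single c₀]
    · simp
    · intro c _ hc
      simp [hc]
    · intro h; exact absurd (Finset.mem_univ _) h
  rw [this, norm_ee]

omit hp in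
/-- taking out the block `r` -/
theorem cht_out (R m q k : ℕ) (θ : ℝ) (c₀ : Fin m → D) (r : Fin R) :
    ‖cht (PW (fun _ : Fin R => tw p v a m θ)) (vl (fun b : Fin m → D => vl v a b) (a ^ m)) q k 1‖ ^ 2 =
    ‖cht (tw p v a m θ) (fun b : Fin m → D => vl v a b) q k (1 * ((a ^ m : ℕ) : ℤ) ^ (r:ℕ))‖ ^ 2 *
    ‖cht (PW (fw p v a R m θ c₀ r)) (vl (fun b : Fin m → D => vl v a b) (a ^ m)) q k 1‖ ^ 2 := by
  rw [cht_prod, cht_prod, norm_prod, norm_prod, ← Finset.mul_prod_erase univ _ (Finset.mem_univ r),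
    ← Finset.mul_prod_erase univ (fun i => ‖cht (fw p v a R m θ c₀ r i) (fun b : Fin m → D => vl v a b) q k
      (1 * ((a ^ m : ℕ) : ℤ) ^ (i:ℕ))‖) (Finset.mem_univ r)]
  have e1 : fw p v a R m θ c₀ r r = fun c : Fin m → D => if c = c₀ then (1:ℝ) else 0 := by
    funext c; simp [fw]
  rw [e1]
  have e2 : ‖cht (fun c : Fin m → D => if c = c₀ then (1:ℝ) else 0) (fun b : Fin m → D => vl v a b) q k
      (1 * ((a ^ m : ℕ) : ℤ) ^ (r:ℕ))‖ = 1 := cht_pt v a m q k _ c₀
  rw [e2, mul_pow]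
  have e3 : ∏ i ∈ univ.erase r, ‖cht (tw p v a m θ) (fun b : Fin m → D => vl v a b) q k
      (1 * ((a ^ m : ℕ) : ℤ) ^ (i:ℕ))‖ = ∏ i ∈ univ.erase r, ‖cht (fw p v a R m θ c₀ r i)
        (fun b : Fin m → D => vl v a b) q k (1 * ((a ^ m : ℕ) : ℤ) ^ (i:ℕ))‖ := by
    refine Finset.prod_congr rfl fun i hi => ?_
    rw [Finset.mem_erase] at hi
    have e4 : fw p v a R m θ c₀ r i = tw p v a m θ := by
      funext c
      simp [fw, hi.1]
    rw [e4]
  rw [e3]
  simp only [one_mul]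

/-- the sum over all moduli of the collisions of the frozen weights -/
theorem frozen_avg (h1 : ∑ d, p d = 1) (ha : 2 ≤ a) (B : ℕ) (hv : ∀ d, |v d| ≤ B) (R m X : ℕ)
    (θ : ℝ) (hθ : 0 ≤ θ) (c₀ : Fin m → D) (r : Fin R) (τ : ℝ) (hτ0 : 0 ≤ τ)
    (hτ : ∀ n : ℕ, n ≠ 0 → n ≤ (2 * B + 1) * a ^ (R * m) → (n.divisors.card : ℝ) ≤ τ) :
    ∑ q ∈ Icc 1 X, ∑ k ∈ range q, ‖cht (PW (fw p v a R m θ c₀ r))
        (vl (fun b : Fin m → D => vl v a b) (a ^ m)) q k 1‖ ^ 2 ≤
      X ^ 2 * (((2 * B + 1 : ℕ) : ℝ) ^ R * θ ^ (R - 1)) + X * τ := by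
  have hX : (0:ℝ) ≤ X := Nat.cast_nonneg X
  have e1 : ∑ q ∈ Icc 1 X, ∑ k ∈ range q, ‖cht (PW (fw p v a R m θ c₀ r))
        (vl (fun b : Fin m → D => vl v a b) (a ^ m)) q k 1‖ ^ 2 =
      ∑ q ∈ Icc 1 X, (q:ℝ) * col (PW (fw p v a R m θ c₀ r)) (vl (fun b : Fin m → D => vl v a b) (a ^ m)) q := by
    refine Finset.sum_congr rfl fun q hq => ?_
    rw [Finset.mem_Icc] at hq
    exact parseval _ _ q (by omega)
  have hW0 : ∀ ω, 0 ≤ PW (fw p v a R m θ c₀ r) ω := PW_nonneg _ (fun i c => fw_nonneg v a hp R m θ c₀ r i c)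
  have hpt : ∑ c : Fin m → D, (if c = c₀ then (1:ℝ) else 0) = 1 := by simp
  have hsumle : ∀ i, ∑ c, fw p v a R m θ c₀ r i c ≤ 1 := by
    intro i
    unfold fw
    by_cases h : i = r
    · simp only [if_pos h]
      rw [hpt]
    · simp only [if_neg h]
      rw [tw_sum v a h1]
      linarith [dl_nonneg v a hp m θ]
  have hW1 : ∑ ω, PW (fw p v a R m θ c₀ r) ω ≤ 1 := by
    rw [sum_PW]
    apply Finset.prod_le_one
    · intro i _
      exact Finset.sum_nonneg fun c _ => fw_nonneg v a hp R m θ c₀ r i c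
    · intro i _; exact hsumle i
  have hW0' : 0 ≤ ∑ ω, PW (fw p v a R m θ c₀ r) ω := Finset.sum_nonneg fun ω _ => hW0 ω
  rw [e1]
  refine (avg (PW (fw p v a R m θ c₀ r)) (vl (fun b : Fin m → D => vl v a b) (a ^ m)) hW0 X
    ((2 * B + 1) * a ^ (R * m)) τ ?_ hτ0 hτ).trans ?_
  · intro ω ω'
    rw [← vl_blk, ← vl_blk]
    have h2 := vl_abs v a B ha hv (blk D R m ω)
    have h3 := vl_abs v a B ha hv (blk D R m ω')
    have h4 : |vl v a (blk D R m ω) - vl v a (blk D R m ω')| ≤ (((2 * B + 1) * a ^ (R * m) : ℕ) : ℤ) := by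
      refine (abs_sub _ _).trans ?_
      push_cast at h2 h3 ⊢
      have : (0:ℤ) ≤ (a:ℤ) ^ (R * m) := by positivity
      nlinarith
    rw [Int.abs_eq_natAbs] at h4
    exact_mod_cast h4
  · have hN : ∀ s, ms (PW (fw p v a R m θ c₀ r)) (vl (fun b : Fin m → D => vl v a b) (a ^ m)) s ≤
        ((2 * B + 1 : ℕ) : ℝ) ^ R * θ ^ (R - 1) := by
      intro s
      have ham : 1 ≤ a ^ m := Nat.one_le_pow _ _ (by omega)
      have h2 := ms_prod_le (fun b : Fin m → D => vl v a b) (a ^ m) B ham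
        (fun c => vl_abs v a B ha hv c) (fw p v a R m θ c₀ r)
        (fun i c => fw_nonneg v a hp R m θ c₀ r i c) (fun i => if i = r then 1 else θ) (by
          intro i s
          by_cases h : i = r
          · rw [if_pos h]
            refine (ms_le_sum _ _ (fun c => fw_nonneg v a hp R m θ c₀ r i c) s).trans (hsumle i)
          · rw [if_neg h]
            have : fw p v a R m θ c₀ r i = tw p v a m θ := by
              funext c; simp [fw, h]
            rw [this]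
            exact tw_ms v a hp m θ hθ s) s
      refine h2.trans (le_of_eq ?_)
      rw [Finset.prod_mul_distrib, Finset.prod_const, Finset.card_univ, Fintype.card_fin]
      congr 1
      rw [← Finset.mul_prod_erase univ _ (Finset.mem_univ r), if_pos rfl, one_mul]
      rw [Finset.prod_congr rfl (g := fun _ => θ) (fun i hi => by
        rw [Finset.mem_erase] at hi; rw [if_neg hi.1])]
      rw [Finset.prod_const, Finset.card_erase_of_mem (Finset.mem_univ r), Finset.card_univ, Fintype.card_fin]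
    have h2 := col0_le (PW (fw p v a R m θ c₀ r)) (vl (fun b : Fin m → D => vl v a b) (a ^ m)) hW0 _ hN
    have hN0 : 0 ≤ ((2 * B + 1 : ℕ) : ℝ) ^ R * θ ^ (R - 1) := by positivity
    have h3 : (∑ ω, PW (fw p v a R m θ c₀ r) ω) ^ 2 ≤ 1 := by nlinarith
    apply add_le_add
    · apply mul_le_mul_of_nonneg_left _ (by positivity)
      refine h2.trans ?_
      exact mul_le_of_le_one_right hN0 hW1
    · exact mul_le_of_le_one_right (mul_nonneg hX hτ0) h3

/-- the character sums of the truncated law for moduli without inactive frequencies -/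
theorem good_sum (R m q : ℕ) (θ κ₁ : ℝ) (hκ : 0 ≤ κ₁) (c₀ : Fin m → D)
    (hgood : ∀ k, 0 < k → k < q → ∃ r : Fin R,
      ‖cht (tw p v a m θ) (fun b : Fin m → D => vl v a b) q k (1 * ((a ^ m : ℕ) : ℤ) ^ (r:ℕ))‖ ≤ κ₁) :
    ∑ k ∈ (range q).erase 0, ‖cht (PW (fun _ : Fin R => tw p v a m θ))
        (vl (fun b : Fin m → D => vl v a b) (a ^ m)) q k 1‖ ^ 2 ≤
      ∑ r : Fin R, κ₁ ^ 2 * ∑ k ∈ range q, ‖cht (PW (fw p v a R m θ c₀ r))
        (vl (fun b : Fin m → D => vl v a b) (a ^ m)) q k 1‖ ^ 2 := by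
  calc ∑ k ∈ (range q).erase 0, ‖cht (PW (fun _ : Fin R => tw p v a m θ))
        (vl (fun b : Fin m → D => vl v a b) (a ^ m)) q k 1‖ ^ 2
      ≤ ∑ k ∈ (range q).erase 0, ∑ r : Fin R, κ₁ ^ 2 * ‖cht (PW (fw p v a R m θ c₀ r))
        (vl (fun b : Fin m → D => vl v a b) (a ^ m)) q k 1‖ ^ 2 := by
        apply Finset.sum_le_sum
        intro k hk
        rw [Finset.mem_erase, Finset.mem_range] at hk
        obtain ⟨r, hr⟩ := hgood k (Nat.pos_of_ne_zero hk.1) hk.2
        rw [cht_out v a R m q k θ c₀ r]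
        refine le_trans ?_ (Finset.single_le_sum (f := fun r : Fin R => κ₁ ^ 2 * ‖cht (PW (fw p v a R m θ c₀ r))
          (vl (fun b : Fin m → D => vl v a b) (a ^ m)) q k 1‖ ^ 2) (fun r _ => by positivity) (Finset.mem_univ r))
        apply mul_le_mul_of_nonneg_right _ (by positivity)
        exact pow_le_pow_left₀ (norm_nonneg _) hr 2
    _ ≤ ∑ k ∈ range q, ∑ r : Fin R, κ₁ ^ 2 * ‖cht (PW (fw p v a R m θ c₀ r))
        (vl (fun b : Fin m → D => vl v a b) (a ^ m)) q k 1‖ ^ 2 := by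
        apply Finset.sum_le_sum_of_subset_of_nonneg (Finset.erase_subset _ _)
        intro k _ _
        exact Finset.sum_nonneg fun r _ => by positivity
    _ = _ := by
        rw [Finset.sum_comm]
        refine Finset.sum_congr rfl fun r _ => ?_
        rw [Finset.mul_sum]

end blocks

end Pool.Agent.KS6_59.AX
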