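import Pool.Agent.KS6_59.AX.Up
import Pool.Graph.R_seed8.H942R3.AXMain

/-! Walks with steps in a finite set of integers. -/

set_option autoImplicit false
set_option linter.unusedSectionVars false
set_option maxHeartbeats 1000000

open Finset Filter Topology

namespace Pool.Agent.KS6_59.AX

open H942R3.AX

/-- `X_n = ∑_{i < n} b_i a ^ (n - 1 - i)` -/
def walk (a n : ℕ) (b : Fin n → ℤ) : ℤ := ∑ i : Fin n, b i * (a : ℤ) ^ (n - 1 - (i : ℕ))

open Classical in
/-- probabilities for i.i.d. steps with the law `p` on `S` -/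
noncomputable def prob (S : Finset ℤ) (p : ℤ → ℝ) (n : ℕ) (E : (Fin n → ℤ) → Prop) : ℝ :=
  ∑ b ∈ Fintype.piFinset (fun _ : Fin n => S), if E b then ∏ i, p (b i) else 0

section conv

variable (a : ℕ) (S : Finset ℤ) (p : ℤ → ℝ)

/-- the values of the digits -/
def vS (S : Finset ℤ) : S → ℤ := fun d => d

/-- the law on the digits -/
def pS (S : Finset ℤ) (p : ℤ → ℝ) : S → ℝ := fun d => p d

theorem sum_piFinset (n : ℕ) (F : (Fin n → ℤ) → ℝ) :
    ∑ b ∈ Fintype.piFinset (fun _ : Fin n => S), F b = ∑ b : Fin n → S, F (fun i => (b i : ℤ)) := by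
  refine Finset.sum_bij' (fun (b : Fin n → ℤ) (hb : b ∈ Fintype.piFinset (fun _ : Fin n => S)) =>
      (fun i => (⟨b i, Fintype.mem_piFinset.1 hb i⟩ : S) : Fin n → S))
    (fun (b : Fin n → S) _ => (fun i => (b i : ℤ) : Fin n → ℤ)) ?_ ?_ ?_ ?_ ?_
  · intro b hb; exact Finset.mem_univ _
  · intro b hb
    exact Fintype.mem_piFinset.2 fun i => (b i).2
  · intro b hb; rfl
  · intro b hb; rfl
  · intro b hb; rfl

theorem walk_rev (n : ℕ) (b : Fin n → S) :
    walk a n (fun i => (b (Fin.rev i) : ℤ)) = vl (vS S) a b := by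
  unfold walk vl vS
  rw [← Equiv.sum_comp Fin.revPerm]
  refine Finset.sum_congr rfl fun i _ => ?_
  simp only [Fin.revPerm_apply, Fin.rev_rev, Fin.val_rev]
  congr 2
  have := i.2
  omega

open Classical in
theorem prob_walk (n : ℕ) (Q : ℤ → Prop) : prob S p n (fun b => Q (walk a n b)) =
    ∑ b : Fin n → S, if Q (vl (vS S) a b) then wn (pS S p) n b else 0 := by
  unfold prob
  rw [sum_piFinset]
  rw [← Equiv.sum_comp (Equiv.arrowCongr Fin.revPerm (Equiv.refl S))]
  refine Finset.sum_congr rfl fun b _ => ?_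
  have h1 : (fun i => (((Equiv.arrowCongr Fin.revPerm (Equiv.refl S)) b i : S) : ℤ)) =
      fun i => (b (Fin.rev i) : ℤ) := by
    funext i
    simp [Equiv.arrowCongr]
  rw [h1]
  beta_reduce
  rw [walk_rev]
  have h2 : ∏ i : Fin n, p (b (Fin.rev i) : ℤ) = wn (pS S p) n b := by
    unfold wn PW pS
    exact Equiv.prod_comp Fin.revPerm (fun i => p (b i : ℤ))
  rw [h2]

theorem law_eq (n q : ℕ) (r : ℕ) : prob S p n (fun b => (q : ℤ) ∣ walk a n b - r) =
    lw (wn (pS S p) n) (vl (vS S) a) q r := by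
  rw [prob_walk a S p n (fun x => (q:ℤ) ∣ x - r), lw]
  refine Finset.sum_congr rfl fun b _ => ?_
  split_ifs <;> rfl

theorem atom_eq (n : ℕ) (x : ℤ) : prob S p n (fun b => walk a n b = x) =
    ms (wn (pS S p) n) (vl (vS S) a) x := by
  rw [prob_walk a S p n (fun y => y = x), ms]
  refine Finset.sum_congr rfl fun b _ => ?_
  split_ifs <;> rfl

theorem image_eq (n : ℕ) : (Fintype.piFinset (fun _ : Fin n => S)).image (walk a n) =
    univ.image (fun b : Fin n → S => vl (vS S) a b) := by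
  ext x
  rw [Finset.mem_image, Finset.mem_image]
  constructor
  · rintro ⟨b, hb, rfl⟩
    refine ⟨fun i => ⟨b (Fin.rev i), Fintype.mem_piFinset.1 hb _⟩, Finset.mem_univ _, ?_⟩
    rw [← walk_rev]
    simp
  · rintro ⟨b, _, rfl⟩
    refine ⟨fun i => (b (Fin.rev i) : ℤ), Fintype.mem_piFinset.2 fun i => (b _).2, walk_rev a S n b⟩

/-- the entropy -/
theorem entropy_eq (hp : ∀ d, 0 < pS S p d) (n : ℕ) :
    ∑ x ∈ (Fintype.piFinset (fun _ : Fin n => S)).image (walk a n),
      Real.negMulLog (prob S p n (fun b => walk a n b = x)) = Hn (pS S p) (vS S) a n := by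
  rw [image_eq, Hn, Hv, sum_atoms _ _ (fun b => (wn_pos _ hp n b).le)
    (fun s => -Real.log (ms (wn (pS S p) n) (vl (vS S) a) s))]
  refine Finset.sum_congr rfl fun x _ => ?_
  rw [atom_eq, Real.negMulLog]
  ring

/-- the greatest common divisor of the differences -/
def gp (S : Finset ℤ) : ℤ := (S ×ˢ S).gcd (fun x => x.1 - x.2)

theorem gp_lattice (y : ℝ) (h : ∀ d d' : S, ∃ z : ℤ, y * ((vS S d - vS S d' : ℤ) : ℝ) = z) :
    ∃ z : ℤ, y * (gp S : ℝ) = z := by
  set Hs : AddSubgroup ℤ := { carrier := {t | ∃ z : ℤ, y * (t:ℝ) = z}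
                              zero_mem' := ⟨0, by simp⟩
                              add_mem' := by
                                rintro s t ⟨z, hz⟩ ⟨z', hz'⟩
                                exact ⟨z + z', by push_cast; rw [mul_add, hz, hz']⟩
                              neg_mem' := by
                                rintro s ⟨z, hz⟩
                                exact ⟨-z, by push_cast; rw [mul_neg, hz]⟩ } with hHs
  obtain ⟨u, hu⟩ := Int.subgroup_cyclic Hs
  have hmem : ∀ t : ℤ, t ∈ Hs ↔ u ∣ t := by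
    intro t
    rw [hu, AddSubgroup.mem_closure_singleton]
    constructor
    · rintro ⟨n, rfl⟩; exact ⟨n, by simp [mul_comm]⟩
    · rintro ⟨n, rfl⟩; exact ⟨n, by simp [mul_comm]⟩
  have h1 : u ∣ gp S := by
    apply Finset.dvd_gcd
    intro x hx
    rw [Finset.mem_product] at hx
    rw [← hmem]
    exact h ⟨x.1, hx.1⟩ ⟨x.2, hx.2⟩
  exact (hmem _).2 h1

theorem gp_pos (hS : 2 ≤ S.card) : 0 < (gp S).natAbs := by
  obtain ⟨x, hx, y, hy, hxy⟩ := Finset.one_lt_card.1 (show 1 < S.card by omega)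
  rw [Int.natAbs_pos]
  intro h0
  rw [gp, Finset.gcd_eq_zero_iff] at h0
  have := h0 (x, y) (Finset.mem_product.2 ⟨hx, hy⟩)
  simp only at this
  exact hxy (by linarith)

end conv

section density

open Classical in
/-- almost all `q ≥ 2` coprime to `N` have the property `P` -/
def AA (N : ℕ) (P : ℕ → Prop) : Prop :=
  Tendsto (fun x : ℕ => (((Icc 2 x).filter (fun q : ℕ => q.Coprime N ∧ ¬ P q)).card : ℝ) /
    (((Icc 1 x).filter (fun q : ℕ => q.Coprime N)).card : ℝ)) atTop (𝓝 0)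

open Classical in
/-- the same with respect to all integers -/
def Thin (N : ℕ) (P : ℕ → Prop) : Prop :=
  ∀ ε : ℝ, 0 < ε → ∃ X0 : ℕ, ∀ X ≥ X0,
    (((Icc 2 X).filter (fun q : ℕ => q.Coprime N ∧ ¬ P q)).card : ℝ) ≤ ε * X

theorem aa_of_thin (a : ℕ) (ha : 1 ≤ a) (P : ℕ → Prop) (h : Thin a P) : AA a P := by
  classical
  have ha0 : (0:ℝ) < a := by
    have : 0 < a := by omega
    exact_mod_cast this
  unfold AA
  rw [Metric.tendsto_atTop]
  intro ε hε
  obtain ⟨X0, hX0⟩ := h (ε / (4 * a)) (by positivity)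
  refine ⟨max X0 a, fun X hX => ?_⟩
  have h1 := hX0 X (le_trans (le_max_left _ _) hX)
  have h2 := coprime_card a ha X (le_trans (le_max_right _ _) hX)
  have haX : a ≤ X := le_trans (le_max_right _ _) hX
  have hXpos : (0:ℝ) < X := by
    have : 0 < X := by omega
    exact_mod_cast this
  have hden : 0 < (((Icc 1 X).filter (fun q : ℕ => q.Coprime a)).card : ℝ) :=
    lt_of_lt_of_le (by positivity) h2
  rw [Real.dist_eq, sub_zero, abs_of_nonneg (by positivity), div_lt_iff₀ hden]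
  calc (((Icc 2 X).filter (fun q : ℕ => q.Coprime a ∧ ¬ P q)).card : ℝ)
      ≤ ε / (4 * a) * X := h1
    _ = ε / 2 * (X / (2 * a)) := by field_simp; ring
    _ < ε * (X / (2 * a)) := by
        apply mul_lt_mul_of_pos_right (by linarith) (by positivity)
    _ ≤ ε * (((Icc 1 X).filter (fun q : ℕ => q.Coprime a)).card : ℝ) :=
        mul_le_mul_of_nonneg_left h2 hε.le

open Classical in
theorem card_split' (N : ℕ) (P Q : ℕ → Prop) (Q0 X : ℕ)
    (h : ∀ q, Q0 ≤ q → 2 ≤ q → q.Coprime N → P q → Q q) :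
    (((Icc 2 X).filter (fun q : ℕ => q.Coprime N ∧ ¬ Q q)).card : ℝ) ≤
      ((Icc 2 X).filter (fun q : ℕ => q.Coprime N ∧ ¬ P q)).card + Q0 := by
  have h1 : (Icc 2 X).filter (fun q : ℕ => q.Coprime N ∧ ¬ Q q) ⊆
      (Icc 2 X).filter (fun q : ℕ => q.Coprime N ∧ ¬ P q) ∪ range Q0 := by
    intro q hq
    rw [Finset.mem_filter, Finset.mem_Icc] at hq
    rw [Finset.mem_union, Finset.mem_filter, Finset.mem_Icc, Finset.mem_range]
    by_cases hqQ : q < Q0
    · right; exact hqQ
    · left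
      exact ⟨hq.1, hq.2.1, fun hP => hq.2.2 (h q (not_lt.1 hqQ) hq.1.1 hq.2.1 hP)⟩
  have h2 := (Finset.card_le_card h1).trans (Finset.card_union_le _ _)
  rw [Finset.card_range] at h2
  exact_mod_cast h2

theorem thin_mono' (N : ℕ) (P Q : ℕ → Prop) (hP : Thin N P) (Q0 : ℕ)
    (h : ∀ q, Q0 ≤ q → 2 ≤ q → q.Coprime N → P q → Q q) : Thin N Q := by
  classical
  intro ε hε
  obtain ⟨X0, hX0⟩ := hP (ε / 2) (by positivity)
  obtain ⟨M, hM⟩ := exists_nat_ge (2 * Q0 / ε)
  refine ⟨max X0 M, fun X hX => ?_⟩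
  have h1 := hX0 X (le_trans (le_max_left _ _) hX)
  have h2 := card_split' N P Q Q0 X h
  have h3 : (M : ℝ) ≤ X := by exact_mod_cast le_trans (le_max_right _ _) hX
  have h4 : 2 * (Q0:ℝ) / ε ≤ X := hM.trans h3
  rw [div_le_iff₀ hε] at h4
  linarith

end density

end Pool.Agent.KS6_59.AX
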