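import Pool.Agent.KS6_59.AX.Four

/-! Entropy and exponential tail bounds for the information of base-`A` sums. -/

set_option autoImplicit false
set_option linter.unusedSectionVars false

open Finset Filter Topology

namespace Pool.Agent.KS6_59.AX

section one

variable {Ω : Type*} [Fintype Ω] (w : Ω → ℝ) (f : Ω → ℤ)

/-- the moments of the atoms -/
noncomputable def Yv (θ : ℝ) : ℝ := ∑ ω, w ω * (ms w f (f ω)) ^ θ

/-- the entropy -/
noncomputable def Hv : ℝ := ∑ ω, w ω * (-Real.log (ms w f (f ω)))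

theorem ms_pos (hw : ∀ ω, 0 < w ω) (ω : Ω) : 0 < ms w f (f ω) :=
  lt_of_lt_of_le (hw ω) (le_ms w f (fun ω => (hw ω).le) ω)

/-- sum over the atoms -/
theorem sum_atoms (hw : ∀ ω, 0 ≤ w ω) (F : ℤ → ℝ) :
    ∑ ω, w ω * F (f ω) = ∑ s ∈ univ.image f, ms w f s * F s := by
  classical
  unfold ms
  simp only [Finset.sum_mul]
  rw [Finset.sum_comm]
  refine Finset.sum_congr rfl fun ω _ => ?_
  rw [Finset.sum_eq_single (f ω)]
  · simp
  · intro s _ hs
    rw [if_neg (Ne.symm hs)]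
    ring
  · intro h
    exact absurd (Finset.mem_image_of_mem f (Finset.mem_univ ω)) h

theorem Yv_eq (hw : ∀ ω, 0 < w ω) (θ : ℝ) :
    Yv w f θ = ∑ s ∈ univ.image f, (ms w f s) ^ (1 + θ) := by
  rw [Yv, sum_atoms w f (fun ω => (hw ω).le) (fun s => (ms w f s) ^ θ)]
  refine Finset.sum_congr rfl fun s hs => ?_
  obtain ⟨ω, _, rfl⟩ := Finset.mem_image.1 hs
  rw [Real.rpow_add (ms_pos w f hw ω), Real.rpow_one]

theorem Yv_pos [Nonempty Ω] (hw : ∀ ω, 0 < w ω) (θ : ℝ) : 0 < Yv w f θ :=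
  Finset.sum_pos (fun ω _ => mul_pos (hw ω) (Real.rpow_pos_of_pos (ms_pos w f hw ω) _))
    Finset.univ_nonempty

theorem Hv_nonneg (hw : ∀ ω, 0 < w ω) (h1 : ∑ ω, w ω = 1) : 0 ≤ Hv w f := by
  apply Finset.sum_nonneg
  intro ω _
  apply mul_nonneg (hw ω).le
  have h2 := ms_le_sum w f (fun ω => (hw ω).le) (f ω)
  rw [h1] at h2
  have := Real.log_nonpos (ms_pos w f hw ω).le h2
  linarith

/-- the moments near `0` -/
theorem Yv_small (hw : ∀ ω, 0 < w ω) (h1 : ∑ ω, w ω = 1) (ε : ℝ) (hε : 0 < ε) :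
    ∃ θ₀ : ℝ, 0 < θ₀ ∧ ∀ θ : ℝ, |θ| ≤ θ₀ → Yv w f θ ≤ Real.exp (-θ * Hv w f + |θ| * ε) := by
  set I : Ω → ℝ := fun ω => -Real.log (ms w f (f ω)) with hI
  set K : ℝ := 1 + ∑ ω, |I ω| with hK
  have hK1 : 1 ≤ K := by
    have : 0 ≤ ∑ ω, |I ω| := Finset.sum_nonneg fun ω _ => abs_nonneg _
    linarith
  have hIK : ∀ ω, |I ω| ≤ K := by
    intro ω
    have := Finset.single_le_sum (f := fun ω => |I ω|) (s := univ) (fun ω _ => abs_nonneg _) (Finset.mem_univ ω)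
    linarith
  have hK0 : 0 < K := by linarith
  refine ⟨min (1 / K) (ε / K ^ 2), lt_min (by positivity) (by positivity), fun θ hθ => ?_⟩
  have hθ1 : |θ| ≤ 1 / K := hθ.trans (min_le_left _ _)
  have hθ2 : |θ| ≤ ε / K ^ 2 := hθ.trans (min_le_right _ _)
  have h2 : ∀ ω, (ms w f (f ω)) ^ θ ≤ 1 + (-θ * I ω) + θ ^ 2 * K ^ 2 := by
    intro ω
    rw [Real.rpow_def_of_pos (ms_pos w f hw ω)]
    have h3 : Real.log (ms w f (f ω)) * θ = -θ * I ω := by rw [hI]; ring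
    rw [h3]
    have h4 : |-θ * I ω| ≤ 1 := by
      rw [abs_mul, abs_neg]
      calc |θ| * |I ω| ≤ (1 / K) * K := mul_le_mul hθ1 (hIK ω) (abs_nonneg _) (by positivity)
        _ = 1 := by field_simp
    have h5 := Real.abs_exp_sub_one_sub_id_le h4
    have h6 := (abs_le.1 h5).2
    have h7 : (-θ * I ω) ^ 2 ≤ θ ^ 2 * K ^ 2 := by
      rw [mul_pow, neg_sq]
      apply mul_le_mul_of_nonneg_left _ (sq_nonneg _)
      rw [← sq_abs (I ω)]
      exact pow_le_pow_left₀ (abs_nonneg _) (hIK ω) 2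
    linarith
  have h3 : Yv w f θ ≤ 1 + -θ * Hv w f + θ ^ 2 * K ^ 2 := by
    calc Yv w f θ ≤ ∑ ω, w ω * (1 + (-θ * I ω) + θ ^ 2 * K ^ 2) := by
          unfold Yv
          apply Finset.sum_le_sum
          intro ω _
          exact mul_le_mul_of_nonneg_left (h2 ω) (hw ω).le
      _ = (∑ ω, w ω) * (1 + θ ^ 2 * K ^ 2) + -θ * Hv w f := by
          unfold Hv
          rw [Finset.sum_mul, Finset.mul_sum, ← Finset.sum_add_distrib]
          refine Finset.sum_congr rfl fun ω _ => ?_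
          rw [hI]
          ring
      _ = _ := by rw [h1]; ring
  have h4 : θ ^ 2 * K ^ 2 ≤ |θ| * ε := by
    rw [← sq_abs θ, sq]
    have : |θ| * K ^ 2 ≤ ε := by
      rw [le_div_iff₀ (by positivity)] at hθ2
      exact hθ2
    nlinarith [abs_nonneg θ]
  have h5 := Real.add_one_le_exp (-θ * Hv w f + |θ| * ε)
  linarith

/-- transport along an equivalence -/
theorem ms_equiv {Ω' : Type*} [Fintype Ω'] (e : Ω' ≃ Ω) (s : ℤ) :
    ms (fun x => w (e x)) (fun x => f (e x)) s = ms w f s := by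
  unfold ms
  exact Equiv.sum_comp e (fun ω => if f ω = s then w ω else 0)

theorem Yv_equiv {Ω' : Type*} [Fintype Ω'] (e : Ω' ≃ Ω) (θ : ℝ) :
    Yv (fun x => w (e x)) (fun x => f (e x)) θ = Yv w f θ := by
  unfold Yv
  simp only [ms_equiv]
  exact Equiv.sum_comp e (fun ω => w ω * (ms w f (f ω)) ^ θ)

theorem Hv_equiv {Ω' : Type*} [Fintype Ω'] (e : Ω' ≃ Ω) :
    Hv (fun x => w (e x)) (fun x => f (e x)) = Hv w f := by
  unfold Hv
  simp only [ms_equiv]
  exact Equiv.sum_comp e (fun ω => w ω * (-Real.log (ms w f (f ω))))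

end one

section pair

variable {Ω₁ Ω₂ : Type*} [Fintype Ω₁] [Fintype Ω₂] (w₁ : Ω₁ → ℝ) (w₂ : Ω₂ → ℝ)
  (f₁ : Ω₁ → ℤ) (f₂ : Ω₂ → ℤ) (T : ℤ)

/-- independent pairs -/
noncomputable def wp : Ω₁ × Ω₂ → ℝ := fun x => w₁ x.1 * w₂ x.2

/-- value of a pair -/
def fp : Ω₁ × Ω₂ → ℤ := fun x => f₁ x.1 + T * f₂ x.2

theorem ms_pair_expand (s : ℤ) : ms (wp w₁ w₂) (fp f₁ f₂ T) s =
    ∑ x, ∑ y, if f₁ x + T * f₂ y = s then w₁ x * w₂ y else 0 := by
  unfold ms
  rw [Fintype.sum_prod_type]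
  rfl

theorem ms_pair_ge (h₁ : ∀ ω, 0 ≤ w₁ ω) (h₂ : ∀ ω, 0 ≤ w₂ ω) (s₁ s₂ : ℤ) :
    ms w₁ f₁ s₁ * ms w₂ f₂ s₂ ≤ ms (wp w₁ w₂) (fp f₁ f₂ T) (s₁ + T * s₂) := by
  rw [ms_pair_expand]
  unfold ms
  rw [Finset.sum_mul_sum]
  apply Finset.sum_le_sum; intro x _
  apply Finset.sum_le_sum; intro y _
  by_cases hx : f₁ x = s₁
  · by_cases hy : f₂ y = s₂
    · rw [if_pos hx, if_pos hy, if_pos (by rw [hx, hy])]
    · rw [if_neg hy, mul_zero]
      split_ifs <;> [exact mul_nonneg (h₁ x) (h₂ y); exact le_rfl]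
  · rw [if_neg hx, zero_mul]
    split_ifs <;> [exact mul_nonneg (h₁ x) (h₂ y); exact le_rfl]

theorem ms_pair_eq (s : ℤ) :
    ms (wp w₁ w₂) (fp f₁ f₂ T) s =
      ∑ p ∈ ((univ.image f₁) ×ˢ (univ.image f₂)).filter (fun p => p.1 + T * p.2 = s),
        ms w₁ f₁ p.1 * ms w₂ f₂ p.2 := by
  classical
  rw [Finset.sum_filter]
  have h1 : ∀ p : ℤ × ℤ, (if p.1 + T * p.2 = s then ms w₁ f₁ p.1 * ms w₂ f₂ p.2 else 0) =
      ∑ x, ∑ y, (if f₁ x = p.1 ∧ f₂ y = p.2 then (if f₁ x + T * f₂ y = s then w₁ x * w₂ y else 0) else 0) := by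
    intro p
    unfold ms
    rw [Finset.sum_mul_sum]
    split_ifs with h
    · refine Finset.sum_congr rfl fun x _ => Finset.sum_congr rfl fun y _ => ?_
      by_cases hx : f₁ x = p.1
      · by_cases hy : f₂ y = p.2
        · rw [if_pos hx, if_pos hy, if_pos ⟨hx, hy⟩, if_pos (by rw [hx, hy]; exact h)]
        · rw [if_neg hy, if_neg (fun h : f₁ x = p.1 ∧ f₂ y = p.2 => hy h.2), mul_zero]
      · rw [if_neg hx, if_neg (fun h : f₁ x = p.1 ∧ f₂ y = p.2 => hx h.1), zero_mul]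
    · symm
      apply Finset.sum_eq_zero; intro x _
      apply Finset.sum_eq_zero; intro y _
      split_ifs with h2 h3
      · rw [h2.1, h2.2] at h3; exact absurd h3 h
      · rfl
      · rfl
  rw [Finset.sum_congr rfl fun p _ => h1 p, Finset.sum_comm]
  rw [ms_pair_expand]
  refine Finset.sum_congr rfl fun x _ => ?_
  rw [Finset.sum_comm]
  refine Finset.sum_congr rfl fun y _ => ?_
  rw [Finset.sum_eq_single (f₁ x, f₂ y)]
  · simp
  · intro p _ hp
    rw [if_neg]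
    rintro ⟨h2, h3⟩
    exact hp (Prod.ext h2.symm h3.symm)
  · intro h
    exfalso
    apply h
    rw [Finset.mem_product]
    exact ⟨Finset.mem_image_of_mem _ (Finset.mem_univ _), Finset.mem_image_of_mem _ (Finset.mem_univ _)⟩

theorem Yv_pair_le (h₁ : ∀ ω, 0 < w₁ ω) (h₂ : ∀ ω, 0 < w₂ ω) (M : ℕ)
    (hT : T ≠ 0) (hM : ∀ s, ((univ.image f₁).filter (fun s₁ => T ∣ s - s₁)).card ≤ M) (θ : ℝ) (hθ : 0 ≤ θ) :
    Yv (wp w₁ w₂) (fp f₁ f₂ T) θ ≤ (M : ℝ) ^ θ * Yv w₁ f₁ θ * Yv w₂ f₂ θ := by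
  classical
  have hwp : ∀ x, 0 < wp w₁ w₂ x := fun x => mul_pos (h₁ _) (h₂ _)
  rw [Yv_eq _ _ hwp, Yv_eq _ _ h₁, Yv_eq _ _ h₂]
  set I₁ := univ.image f₁ with hI₁
  set I₂ := univ.image f₂ with hI₂
  set X : ℤ × ℤ → ℝ := fun p => ms w₁ f₁ p.1 * ms w₂ f₂ p.2 with hX
  have hX0 : ∀ p, 0 ≤ X p := fun p =>
    mul_nonneg (ms_nonneg w₁ f₁ (fun ω => (h₁ ω).le) _) (ms_nonneg w₂ f₂ (fun ω => (h₂ ω).le) _)
  have hcard : ∀ s, ((I₁ ×ˢ I₂).filter (fun p => p.1 + T * p.2 = s)).card ≤ M := by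
    intro s
    refine le_trans ?_ (hM s)
    apply Finset.card_le_card_of_injOn (fun p => p.1)
    · intro p hp
      simp only [Finset.coe_filter, Set.mem_ofPred_eq, Finset.mem_product] at hp ⊢
      exact ⟨hp.1.1, ⟨p.2, by rw [← hp.2]; ring⟩⟩
    · intro p hp p' hp' hpp
      simp only [Finset.coe_filter, Set.mem_ofPred_eq] at hp hp'
      have h3 : T * p.2 = T * p'.2 := by
        have := hp.2.trans hp'.2.symm
        have hpp' : p.1 = p'.1 := hpp
        linarith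
      exact Prod.ext hpp (mul_left_cancel₀ hT h3)
  calc ∑ s ∈ univ.image (fp f₁ f₂ T), (ms (wp w₁ w₂) (fp f₁ f₂ T) s) ^ (1 + θ)
      ≤ ∑ s ∈ univ.image (fp f₁ f₂ T), (M : ℝ) ^ θ *
          ∑ p ∈ (I₁ ×ˢ I₂).filter (fun p => p.1 + T * p.2 = s), (X p) ^ (1 + θ) := by
        apply Finset.sum_le_sum
        intro s _
        rw [ms_pair_eq]
        have h3 := Real.rpow_sum_le_const_mul_sum_rpow_of_nonneg
          ((I₁ ×ˢ I₂).filter (fun p => p.1 + T * p.2 = s)) (f := X) (p := 1 + θ) (by linarith)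
          (fun p _ => hX0 p)
        refine h3.trans ?_
        rw [add_sub_cancel_left]
        apply mul_le_mul_of_nonneg_right
        · apply Real.rpow_le_rpow (Nat.cast_nonneg _) _ hθ
          exact_mod_cast hcard s
        · exact Finset.sum_nonneg fun p _ => Real.rpow_nonneg (hX0 p) _
    _ = (M : ℝ) ^ θ * ∑ p ∈ I₁ ×ˢ I₂, (X p) ^ (1 + θ) := by
        rw [← Finset.mul_sum]
        congr 1
        apply Finset.sum_fiberwise_of_maps_to (g := fun p : ℤ × ℤ => p.1 + T * p.2)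
        intro p hp
        rw [Finset.mem_product] at hp
        obtain ⟨x, _, hx⟩ := Finset.mem_image.1 hp.1
        obtain ⟨y, _, hy⟩ := Finset.mem_image.1 hp.2
        rw [Finset.mem_image]
        exact ⟨(x, y), Finset.mem_univ _, by simp only [fp]; rw [hx, hy]⟩
    _ = _ := by
        rw [mul_assoc, Finset.sum_mul_sum, Finset.sum_product]
        congr 1
        refine Finset.sum_congr rfl fun s _ => Finset.sum_congr rfl fun t _ => ?_
        rw [hX]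
        exact Real.mul_rpow (ms_nonneg w₁ f₁ (fun ω => (h₁ ω).le) _) (ms_nonneg w₂ f₂ (fun ω => (h₂ ω).le) _)

theorem Yv_pair_neg (h₁ : ∀ ω, 0 < w₁ ω) (h₂ : ∀ ω, 0 < w₂ ω) (θ : ℝ) (hθ : θ ≤ 0) :
    Yv (wp w₁ w₂) (fp f₁ f₂ T) θ ≤ Yv w₁ f₁ θ * Yv w₂ f₂ θ := by
  unfold Yv
  rw [Finset.sum_mul_sum, Fintype.sum_prod_type]
  apply Finset.sum_le_sum; intro x _
  apply Finset.sum_le_sum; intro y _
  have h3 := ms_pair_ge w₁ w₂ f₁ f₂ T (fun ω => (h₁ ω).le) (fun ω => (h₂ ω).le) (f₁ x) (f₂ y)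
  have h4 : 0 < ms w₁ f₁ (f₁ x) * ms w₂ f₂ (f₂ y) := mul_pos (ms_pos _ _ h₁ x) (ms_pos _ _ h₂ y)
  have h5 := Real.rpow_le_rpow_of_nonpos h4 h3 hθ
  rw [Real.mul_rpow (ms_pos _ _ h₁ x).le (ms_pos _ _ h₂ y).le] at h5
  simp only [wp, fp]
  calc w₁ x * w₂ y * ms (wp w₁ w₂) (fp f₁ f₂ T) (f₁ x + T * f₂ y) ^ θ
      ≤ w₁ x * w₂ y * (ms w₁ f₁ (f₁ x) ^ θ * ms w₂ f₂ (f₂ y) ^ θ) :=
        mul_le_mul_of_nonneg_left h5 (mul_pos (h₁ x) (h₂ y)).le
    _ = _ := by ring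

theorem Hv_pair (h₁ : ∀ ω, 0 < w₁ ω) (h₂ : ∀ ω, 0 < w₂ ω) (e₁ : ∑ ω, w₁ ω = 1) (e₂ : ∑ ω, w₂ ω = 1) :
    Hv (wp w₁ w₂) (fp f₁ f₂ T) ≤ Hv w₁ f₁ + Hv w₂ f₂ := by
  have h0 : Hv w₁ f₁ + Hv w₂ f₂ = ∑ x, ∑ y, w₁ x * w₂ y *
      (-Real.log (ms w₁ f₁ (f₁ x)) + -Real.log (ms w₂ f₂ (f₂ y))) := by
    have a1 : Hv w₁ f₁ = Hv w₁ f₁ * ∑ y, w₂ y := by rw [e₂, mul_one]
    have a2 : Hv w₂ f₂ = (∑ x, w₁ x) * Hv w₂ f₂ := by rw [e₁, one_mul]
    rw [a1, a2, Hv, Hv, Finset.sum_mul_sum, Finset.sum_mul_sum, ← Finset.sum_add_distrib]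
    refine Finset.sum_congr rfl fun x _ => ?_
    rw [← Finset.sum_add_distrib]
    refine Finset.sum_congr rfl fun y _ => ?_
    ring
  rw [h0, Hv, Fintype.sum_prod_type]
  apply Finset.sum_le_sum; intro x _
  apply Finset.sum_le_sum; intro y _
  have h3 := ms_pair_ge w₁ w₂ f₁ f₂ T (fun ω => (h₁ ω).le) (fun ω => (h₂ ω).le) (f₁ x) (f₂ y)
  have h4 : 0 < ms w₁ f₁ (f₁ x) * ms w₂ f₂ (f₂ y) := mul_pos (ms_pos _ _ h₁ x) (ms_pos _ _ h₂ y)
  have h5 := Real.log_le_log h4 h3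
  rw [Real.log_mul (ms_pos _ _ h₁ x).ne' (ms_pos _ _ h₂ y).ne'] at h5
  simp only [wp, fp]
  apply mul_le_mul_of_nonneg_left _ (mul_pos (h₁ x) (h₂ y)).le
  linarith

end pair

/-- submultiplicative sequences -/
theorem submul (y : ℕ → ℝ) (hy : ∀ n, 0 < y n) (K : ℝ) (hK : 0 < K)
    (h : ∀ u w, y (u + w) ≤ K * y u * y w) (L : ℕ) (hL : 1 ≤ L) (x : ℝ)
    (hx : K * y L ≤ Real.exp (-x)) :
    ∃ C : ℝ, 0 < C ∧ ∀ n : ℕ, y n ≤ C * Real.exp (-(x / L) * n) := by
  have key : ∀ j r : ℕ, y (L * j + r) ≤ Real.exp (-x * j) * y r := by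
    intro j
    induction j with
    | zero => intro r; simp
    | succ j ih =>
      intro r
      have h1 : L * (j + 1) + r = L + (L * j + r) := by ring
      rw [h1]
      calc y (L + (L * j + r)) ≤ K * y L * y (L * j + r) := h _ _
        _ ≤ Real.exp (-x) * (Real.exp (-x * j) * y r) :=
            mul_le_mul hx (ih r) (hy _).le (Real.exp_pos _).le
        _ = Real.exp (-x * ((j + 1 : ℕ) : ℝ)) * y r := by
            rw [← mul_assoc, ← Real.exp_add]
            congr 2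
            push_cast
            ring
  have hLr : (0:ℝ) < L := by exact_mod_cast hL
  refine ⟨Real.exp |x| * ∑ r ∈ range L, y r, ?_, fun n => ?_⟩
  · apply mul_pos (Real.exp_pos _)
    exact Finset.sum_pos (fun r _ => hy r) ⟨0, Finset.mem_range.2 (by omega)⟩
  · have h1 : n = L * (n / L) + n % L := (Nat.div_add_mod n L).symm
    have h2 : n % L < L := Nat.mod_lt _ (by omega)
    have h3 := key (n / L) (n % L)
    rw [← h1] at h3
    have h4 : y (n % L) ≤ ∑ r ∈ range L, y r :=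
      Finset.single_le_sum (f := y) (fun r _ => (hy r).le) (Finset.mem_range.2 h2)
    have h5 : Real.exp (-x * ((n / L : ℕ) : ℝ)) ≤ Real.exp |x| * Real.exp (-(x / L) * n) := by
      rw [← Real.exp_add]
      apply Real.exp_le_exp.2
      have h6 : (n : ℝ) = L * ((n / L : ℕ) : ℝ) + ((n % L : ℕ) : ℝ) := by exact_mod_cast h1
      have h7 : ((n % L : ℕ) : ℝ) ≤ L := by exact_mod_cast h2.le
      have h8 : (0:ℝ) ≤ ((n % L : ℕ) : ℝ) := Nat.cast_nonneg _
      have h9 : -(x / L) * n = -x * ((n / L : ℕ) : ℝ) - x * (((n % L : ℕ) : ℝ) / L) := by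
        nth_rewrite 1 [h6]
        field_simp
        ring
      rw [h9]
      have h10 : ((n % L : ℕ) : ℝ) / L ≤ 1 := (div_le_one hLr).2 h7
      have h11 : 0 ≤ ((n % L : ℕ) : ℝ) / L := by positivity
      have h12 : x * (((n % L : ℕ) : ℝ) / L) ≤ |x| := by
        calc x * (((n % L : ℕ) : ℝ) / L) ≤ |x| * (((n % L : ℕ) : ℝ) / L) :=
              mul_le_mul_of_nonneg_right (le_abs_self x) h11
          _ ≤ |x| * 1 := mul_le_mul_of_nonneg_left h10 (abs_nonneg x)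
          _ = |x| := mul_one _
      linarith
    calc y n ≤ Real.exp (-x * ((n / L : ℕ) : ℝ)) * y (n % L) := h3
      _ ≤ (Real.exp |x| * Real.exp (-(x / L) * n)) * ∑ r ∈ range L, y r :=
          mul_le_mul h5 h4 (hy _).le (by positivity)
      _ = _ := by ring

section strings

variable {D : Type*} [Fintype D] [DecidableEq D] (p : D → ℝ) (v : D → ℤ) (A : ℕ)

/-- weights of i.i.d. strings -/
noncomputable def wn (n : ℕ) : (Fin n → D) → ℝ := PW (fun _ : Fin n => p)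

theorem wn_pos (hp : ∀ d, 0 < p d) (n : ℕ) (b : Fin n → D) : 0 < wn p n b := by
  rw [wn, PW]
  exact Finset.prod_pos fun i _ => hp (b i)

theorem wn_sum (h1 : ∑ d, p d = 1) (n : ℕ) : ∑ b, wn p n b = 1 := by
  rw [wn, sum_PW]
  simp [h1]

theorem wn_append (u w : ℕ) (x : (Fin u → D) × (Fin w → D)) :
    wn p (u + w) (Fin.appendEquiv u w x) = wp (wn p u) (wn p w) x := by
  simp only [wn, wp, PW, Fin.appendEquiv]
  rw [Fin.prod_univ_add]
  simp

theorem vl_append (u w : ℕ) (x : (Fin u → D) × (Fin w → D)) :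
    vl v A (Fin.appendEquiv u w x) = fp (vl v A) (vl v A) ((A:ℤ) ^ u) x := by
  simp only [vl, fp, Fin.appendEquiv]
  rw [Fin.sum_univ_add, Finset.mul_sum]
  simp only [Equiv.coe_fn_mk, Fin.append_left, Fin.append_right, Fin.val_castAdd, Fin.val_natAdd, pow_add]
  congr 1
  refine Finset.sum_congr rfl fun i _ => ?_
  ring

theorem card_class (I : Finset ℤ) (T : ℤ) (hT : 0 < T) (B : ℕ) (hI : ∀ s ∈ I, |s| ≤ B * T) (t : ℤ) :
    (I.filter (fun s => T ∣ t - s)).card ≤ 2 * B + 1 := by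
  set r : ℤ := t % T with hr
  have hr0 : 0 ≤ r := Int.emod_nonneg _ hT.ne'
  have hr1 : r < T := Int.emod_lt_of_pos _ hT
  have hsub : I.filter (fun s => T ∣ t - s) ⊆ (Icc (-(B:ℤ)) B).image (fun j => r + T * j) := by
    intro s hs
    rw [Finset.mem_filter] at hs
    have h1 : T ∣ s - r := by
      have h2 : T ∣ t - r := Int.dvd_self_sub_emod
      have := dvd_sub h2 hs.2
      rwa [show t - r - (t - s) = s - r by ring] at this
    obtain ⟨j, hj⟩ := h1
    rw [Finset.mem_image]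
    refine ⟨j, ?_, by linarith⟩
    have h3 := abs_le.1 (hI s hs.1)
    rw [Finset.mem_Icc]
    constructor
    · by_contra hcon
      push Not at hcon
      have h5 : T * j ≤ T * (-(B:ℤ) - 1) := mul_le_mul_of_nonneg_left (by omega) hT.le
      nlinarith
    · by_contra hcon
      push Not at hcon
      have h5 : T * ((B:ℤ) + 1) ≤ T * j := mul_le_mul_of_nonneg_left (by omega) hT.le
      nlinarith
  refine (Finset.card_le_card hsub).trans (Finset.card_image_le.trans ?_)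
  rw [Int.card_Icc]
  omega

variable (B : ℕ)

theorem Yn_add (hp : ∀ d, 0 < p d) (hA : 2 ≤ A) (hv : ∀ d, |v d| ≤ B) (θ : ℝ) (hθ : 0 ≤ θ) (u w : ℕ) :
    Yv (wn p (u + w)) (vl v A) θ ≤
      ((2 * B + 1 : ℕ) : ℝ) ^ θ * Yv (wn p u) (vl v A) θ * Yv (wn p w) (vl v A) θ := by
  rw [← Yv_equiv _ _ (Fin.appendEquiv u w)]
  simp only [wn_append, vl_append]
  have hA0 : (0:ℤ) < (A:ℤ) ^ u := by
    have : (0:ℤ) < A := by exact_mod_cast (by omega : 0 < A)
    positivity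
  refine Yv_pair_le _ _ _ _ _ (wn_pos p hp u) (wn_pos p hp w) _ hA0.ne' ?_ θ hθ
  intro s
  apply card_class _ _ hA0
  intro s' hs'
  obtain ⟨b, _, rfl⟩ := Finset.mem_image.1 hs'
  have := vl_abs v A B hA hv b
  push_cast at this
  exact this

theorem Yn_neg (hp : ∀ d, 0 < p d) (θ : ℝ) (hθ : θ ≤ 0) (u w : ℕ) :
    Yv (wn p (u + w)) (vl v A) θ ≤ 1 * Yv (wn p u) (vl v A) θ * Yv (wn p w) (vl v A) θ := by
  rw [← Yv_equiv _ _ (Fin.appendEquiv u w), one_mul]
  simp only [wn_append, vl_append]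
  exact Yv_pair_neg _ _ _ _ _ (wn_pos p hp u) (wn_pos p hp w) θ hθ

/-- the entropy of the `n`-digit sum -/
noncomputable def Hn (n : ℕ) : ℝ := Hv (wn p n) (vl v A)

theorem Hn_sub (hp : ∀ d, 0 < p d) (h1 : ∑ d, p d = 1) : Subadditive (Hn p v A) := by
  intro u w
  unfold Hn
  rw [← Hv_equiv _ _ (Fin.appendEquiv u w)]
  simp only [wn_append, vl_append]
  exact Hv_pair _ _ _ _ _ (wn_pos p hp u) (wn_pos p hp w) (wn_sum p h1 u) (wn_sum p h1 w)

theorem Hn_nonneg (hp : ∀ d, 0 < p d) (h1 : ∑ d, p d = 1) (n : ℕ) : 0 ≤ Hn p v A n :=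
  Hv_nonneg _ _ (wn_pos p hp n) (wn_sum p h1 n)

theorem Hn_bdd (hp : ∀ d, 0 < p d) (h1 : ∑ d, p d = 1) :
    BddBelow (Set.range fun n => Hn p v A n / n) := by
  refine ⟨0, ?_⟩
  rintro _ ⟨n, rfl⟩
  exact div_nonneg (Hn_nonneg p v A hp h1 n) (Nat.cast_nonneg n)

/-- the entropy rate -/
noncomputable def hr : ℝ := sInf ((fun n : ℕ => Hn p v A n / n) '' Set.Ici 1)

theorem hr_tendsto (hp : ∀ d, 0 < p d) (h1 : ∑ d, p d = 1) :
    Tendsto (fun n => Hn p v A n / n) atTop (𝓝 (hr p v A)) := by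
  have := (Hn_sub p v A hp h1).tendsto_lim (Hn_bdd p v A hp h1)
  rwa [Subadditive.lim] at this

theorem hr_le (hp : ∀ d, 0 < p d) (h1 : ∑ d, p d = 1) (n : ℕ) (hn : n ≠ 0) :
    hr p v A ≤ Hn p v A n / n := by
  have := (Hn_sub p v A hp h1).lim_le_div (Hn_bdd p v A hp h1) hn
  rwa [Subadditive.lim] at this

/-- upper tail of the atoms -/
theorem tail_up [Nonempty D] (hp : ∀ d, 0 < p d) (h1 : ∑ d, p d = 1) (hA : 2 ≤ A) (hv : ∀ d, |v d| ≤ B)
    (ε : ℝ) (hε : 0 < ε) : ∃ c C : ℝ, 0 < c ∧ 0 < C ∧ ∀ n : ℕ,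
      (∑ b : Fin n → D, if Real.exp (-(hr p v A - ε) * n) < ms (wn p n) (vl v A) (vl v A b)
        then wn p n b else 0) ≤ C * Real.exp (-c * n) := by
  set M : ℝ := ((2 * B + 1 : ℕ) : ℝ) with hM
  have hM1 : 1 ≤ M := by rw [hM]; push_cast; linarith [(Nat.cast_nonneg B : (0:ℝ) ≤ B)]
  have hM0 : 0 < M := by linarith
  obtain ⟨L, hL⟩ := exists_nat_ge (max 1 (2 * (1 + Real.log M) / ε))
  have hL1 : (1:ℝ) ≤ L := (le_max_left _ _).trans hL
  have hL1' : 1 ≤ L := by exact_mod_cast hL1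
  have hL2 : 2 * (1 + Real.log M) ≤ ε * L := by
    have := (le_max_right _ _).trans hL
    rw [div_le_iff₀ hε] at this
    linarith
  have hL0 : (0:ℝ) < L := by linarith
  obtain ⟨θ, hθ0, hθ⟩ := Yv_small (wn p L) (vl v A) (wn_pos p hp L) (wn_sum p h1 L) 1 one_pos
  have hY := hθ θ (by rw [abs_of_pos hθ0])
  rw [abs_of_pos hθ0, mul_one] at hY
  have hK : 0 < M ^ θ := Real.rpow_pos_of_pos hM0 _
  obtain ⟨C, hC0, hC⟩ := submul (fun n => Yv (wn p n) (vl v A) θ)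
    (fun n => Yv_pos _ _ (wn_pos p hp n) θ) (M ^ θ) hK
    (fun u w => Yn_add p v A B hp hA hv θ hθ0.le u w) L hL1' (θ * (Hn p v A L - 1 - Real.log M)) (by
      calc M ^ θ * Yv (wn p L) (vl v A) θ
          ≤ Real.exp (Real.log M * θ) * Real.exp (-θ * Hv (wn p L) (vl v A) + θ) := by
            rw [← Real.rpow_def_of_pos hM0]
            exact mul_le_mul_of_nonneg_left hY hK.le
        _ = _ := by
            rw [← Real.exp_add, Hn]
            congr 1
            ring)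
  refine ⟨θ * (ε / 2), C, by positivity, hC0, fun n => ?_⟩
  have hn0 : (0:ℝ) ≤ n := Nat.cast_nonneg n
  set E : ℝ := Real.exp ((hr p v A - ε) * n) with hE
  have h2 : (∑ b : Fin n → D, if Real.exp (-(hr p v A - ε) * n) < ms (wn p n) (vl v A) (vl v A b)
        then wn p n b else 0) ≤ E ^ θ * Yv (wn p n) (vl v A) θ := by
    rw [Yv, Finset.mul_sum]
    apply Finset.sum_le_sum
    intro b _
    have hb := wn_pos p hp n b
    have hm := ms_pos (wn p n) (vl v A) (wn_pos p hp n) b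
    split_ifs with h
    · have h3 : 1 ≤ E * ms (wn p n) (vl v A) (vl v A b) := by
        have h4 : E * Real.exp (-(hr p v A - ε) * n) = 1 := by
          rw [hE, ← Real.exp_add]
          convert Real.exp_zero using 2
          ring
        rw [← h4]
        exact mul_le_mul_of_nonneg_left h.le (Real.exp_pos _).le
      have h5 : 1 ≤ (E * ms (wn p n) (vl v A) (vl v A b)) ^ θ := Real.one_le_rpow h3 hθ0.le
      rw [Real.mul_rpow (Real.exp_pos _).le hm.le] at h5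
      nlinarith
    · positivity
  refine h2.trans ?_
  have h3 : E ^ θ = Real.exp (θ * ((hr p v A - ε) * n)) := by
    rw [hE, ← Real.exp_mul]; congr 1; ring
  have h4 := hC n
  have h5 : hr p v A * L ≤ Hn p v A L := by
    have := hr_le p v A hp h1 L (by omega)
    rwa [le_div_iff₀ hL0] at this
  have h6 : hr p v A - ε / 2 ≤ (Hn p v A L - 1 - Real.log M) / L := by
    rw [le_div_iff₀ hL0]
    nlinarith
  calc E ^ θ * Yv (wn p n) (vl v A) θ
      ≤ Real.exp (θ * ((hr p v A - ε) * n)) *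
        (C * Real.exp (-(θ * (Hn p v A L - 1 - Real.log M) / L) * n)) := by
        rw [h3]; exact mul_le_mul_of_nonneg_left h4 (Real.exp_pos _).le
    _ = C * Real.exp (θ * ((hr p v A - ε) * n) + -(θ * (Hn p v A L - 1 - Real.log M) / L) * n) := by
        rw [Real.exp_add]; ring
    _ ≤ C * Real.exp (-(θ * (ε / 2)) * n) := by
        apply mul_le_mul_of_nonneg_left _ hC0.le
        apply Real.exp_le_exp.2
        have h7 : θ * (Hn p v A L - 1 - Real.log M) / L = θ * ((Hn p v A L - 1 - Real.log M) / L) := by ring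
        rw [h7]
        have h8 := mul_le_mul_of_nonneg_left h6 (mul_nonneg hθ0.le hn0)
        nlinarith

/-- lower tail of the atoms -/
theorem tail_lo [Nonempty D] (hp : ∀ d, 0 < p d) (h1 : ∑ d, p d = 1)
    (ε : ℝ) (hε : 0 < ε) : ∃ c C : ℝ, 0 < c ∧ 0 < C ∧ ∀ n : ℕ,
      (∑ b : Fin n → D, if ms (wn p n) (vl v A) (vl v A b) < Real.exp (-(hr p v A + ε) * n)
        then wn p n b else 0) ≤ C * Real.exp (-c * n) := by
  have hev := (hr_tendsto p v A hp h1).eventually (gt_mem_nhds (show hr p v A < hr p v A + ε / 4 by linarith))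
  obtain ⟨L0, hL0⟩ := Filter.eventually_atTop.1 hev
  obtain ⟨L1, hL1⟩ := exists_nat_ge (4 / ε)
  set L := max (max L0 L1) 1 with hL
  have hLr1 : (1:ℝ) ≤ L := by exact_mod_cast le_max_right _ _
  have hLpos : (0:ℝ) < L := by linarith
  have hHL := hL0 L ((le_max_left _ _).trans (le_max_left _ _))
  have hL4 : 4 / ε ≤ L := hL1.trans (by exact_mod_cast (le_max_right _ _).trans (le_max_left _ _))
  rw [div_le_iff₀ hε] at hL4
  rw [div_lt_iff₀ hLpos] at hHL
  obtain ⟨θ, hθ0, hθ⟩ := Yv_small (wn p L) (vl v A) (wn_pos p hp L) (wn_sum p h1 L) 1 one_pos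
  have hY := hθ (-θ) (by rw [abs_neg, abs_of_pos hθ0])
  rw [abs_neg, abs_of_pos hθ0, mul_one, neg_neg] at hY
  obtain ⟨C, hC0, hC⟩ := submul (fun n => Yv (wn p n) (vl v A) (-θ))
    (fun n => Yv_pos _ _ (wn_pos p hp n) _) 1 one_pos
    (fun u w => Yn_neg p v A hp (-θ) (by linarith) u w) L (le_max_right _ _) (-(θ * (Hn p v A L + 1))) (by
      rw [one_mul]
      refine hY.trans (le_of_eq ?_)
      rw [Hn]
      congr 1
      ring)
  refine ⟨θ * (ε / 2), C, by positivity, hC0, fun n => ?_⟩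
  have hn0 : (0:ℝ) ≤ n := Nat.cast_nonneg n
  set E : ℝ := Real.exp ((hr p v A + ε) * n) with hE
  have hE0 : 0 < E := Real.exp_pos _
  have h2 : (∑ b : Fin n → D, if ms (wn p n) (vl v A) (vl v A b) < Real.exp (-(hr p v A + ε) * n)
        then wn p n b else 0) ≤ E ^ (-θ) * Yv (wn p n) (vl v A) (-θ) := by
    rw [Yv, Finset.mul_sum]
    apply Finset.sum_le_sum
    intro b _
    have hb := wn_pos p hp n b
    have hm := ms_pos (wn p n) (vl v A) (wn_pos p hp n) b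
    split_ifs with h
    · have h3 : E * ms (wn p n) (vl v A) (vl v A b) ≤ 1 := by
        have h4 : E * Real.exp (-(hr p v A + ε) * n) = 1 := by
          rw [hE, ← Real.exp_add]
          convert Real.exp_zero using 2
          ring
        rw [← h4]
        exact mul_le_mul_of_nonneg_left h.le hE0.le
      have h5 : 1 ≤ (E * ms (wn p n) (vl v A) (vl v A b)) ^ (-θ) :=
        Real.one_le_rpow_of_pos_of_le_one_of_nonpos (mul_pos hE0 hm) h3 (by linarith)
      rw [Real.mul_rpow hE0.le hm.le] at h5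
      nlinarith
    · positivity
  refine h2.trans ?_
  have h3 : E ^ (-θ) = Real.exp (-θ * ((hr p v A + ε) * n)) := by
    rw [hE, ← Real.exp_mul]; congr 1; ring
  have h4 := hC n
  have h6 : (Hn p v A L + 1) / L ≤ hr p v A + ε / 2 := by
    rw [div_le_iff₀ hLpos]
    nlinarith
  calc E ^ (-θ) * Yv (wn p n) (vl v A) (-θ)
      ≤ Real.exp (-θ * ((hr p v A + ε) * n)) *
        (C * Real.exp (-(-(θ * (Hn p v A L + 1)) / L) * n)) := by
        rw [h3]; exact mul_le_mul_of_nonneg_left h4 (Real.exp_pos _).le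
    _ = C * Real.exp (-θ * ((hr p v A + ε) * n) + -(-(θ * (Hn p v A L + 1)) / L) * n) := by
        rw [Real.exp_add]; ring
    _ ≤ C * Real.exp (-(θ * (ε / 2)) * n) := by
        apply mul_le_mul_of_nonneg_left _ hC0.le
        apply Real.exp_le_exp.2
        have h7 : -(-(θ * (Hn p v A L + 1)) / L) = θ * ((Hn p v A L + 1) / L) := by ring
        rw [h7]
        have h8 := mul_le_mul_of_nonneg_left h6 (mul_nonneg hθ0.le hn0)
        nlinarith

end strings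

end Pool.Agent.KS6_59.AX
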