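import Pool.Graph.R_seed8.H942R3.AXCount

/-! Finite weighted families of integers: laws modulo `q`, characters, collisions. -/

set_option autoImplicit false
set_option linter.unusedSectionVars false

open Finset

namespace Pool.Agent.KS6_59.AX

open H942R3.AX

section abs

variable {Ω : Type*} [Fintype Ω] (w : Ω → ℝ) (f : Ω → ℤ)

/-- the weight of the residue class `r` modulo `q` -/
noncomputable def lw (q : ℕ) (r : ℤ) : ℝ := ∑ ω, if (q : ℤ) ∣ f ω - r then w ω else 0

/-- the character sum -/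
noncomputable def cht (q k : ℕ) (t : ℤ) : ℂ := ∑ ω, (w ω : ℂ) * ee q k (t * f ω)

/-- the weight of the collisions modulo `q` -/
noncomputable def col (q : ℕ) : ℝ := ∑ ω, ∑ ω', if (q : ℤ) ∣ f ω - f ω' then w ω * w ω' else 0

theorem parseval (q : ℕ) (hq : 0 < q) :
    ∑ k ∈ range q, ‖cht w f q k 1‖ ^ 2 = q * col w f q := by
  have h : (((∑ k ∈ range q, ‖cht w f q k 1‖ ^ 2 : ℝ)) : ℂ) = ((q * col w f q : ℝ) : ℂ) := by
    push_cast
    have h1 : ∀ k, ((‖cht w f q k 1‖ : ℂ)) ^ 2 =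
        ∑ ω, ∑ ω', ((w ω * w ω' : ℝ) : ℂ) * ee q k (f ω - f ω') := by
      intro k
      rw [← Complex.mul_conj', cht, map_sum, Finset.sum_mul_sum]
      refine Finset.sum_congr rfl fun ω _ => Finset.sum_congr rfl fun ω' _ => ?_
      rw [map_mul, Complex.conj_ofReal, one_mul, one_mul, ← ee_mul_conj]
      push_cast
      ring
    rw [Finset.sum_congr rfl fun k _ => h1 k, Finset.sum_comm]
    rw [col]
    push_cast
    rw [Finset.mul_sum]
    refine Finset.sum_congr rfl fun ω _ => ?_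
    rw [Finset.sum_comm, Finset.mul_sum]
    refine Finset.sum_congr rfl fun ω' _ => ?_
    rw [← Finset.mul_sum, orth q hq]
    split_ifs <;> push_cast <;> ring
  exact_mod_cast h

theorem sum_lw (q : ℕ) (hq : 0 < q) : ∑ r ∈ range q, lw w f q r = ∑ ω, w ω := by
  simp only [lw]
  rw [Finset.sum_comm]
  refine Finset.sum_congr rfl fun ω _ => ?_
  have hq' : (0:ℤ) < q := by exact_mod_cast hq
  have h0 : 0 ≤ f ω % (q:ℤ) := Int.emod_nonneg _ hq'.ne'
  have h1 : f ω % (q:ℤ) < q := Int.emod_lt_of_pos _ hq'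
  have key : ∀ r ∈ range q, ((q:ℤ) ∣ f ω - (r : ℤ)) ↔ r = (f ω % (q:ℤ)).toNat := by
    intro r hr
    rw [Finset.mem_range] at hr
    have hr' : (r:ℤ) < q := by exact_mod_cast hr
    constructor
    · intro h
      have h2 : f ω % (q:ℤ) = (r:ℤ) % q :=
        Int.emod_eq_emod_iff_emod_sub_eq_zero.2 (Int.emod_eq_zero_of_dvd h)
      rw [Int.emod_eq_of_lt (by positivity) hr'] at h2
      rw [h2]; simp
    · intro h
      have h2 : (r:ℤ) = f ω % (q:ℤ) := by rw [h, Int.toNat_of_nonneg h0]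
      rw [h2]
      exact Int.dvd_self_sub_emod
  rw [Finset.sum_congr rfl (g := fun r => if r = (f ω % (q:ℤ)).toNat then w ω else 0)]
  · rw [Finset.sum_ite_eq']
    rw [if_pos]
    rw [Finset.mem_range]
    omega
  · intro r hr
    simp only [key r hr]

theorem sum_lw_sq (q : ℕ) (hq : 0 < q) : ∑ r ∈ range q, lw w f q r ^ 2 = col w f q := by
  have h1 : ∀ r : ℕ, lw w f q r ^ 2 = ∑ ω, w ω * (if (q:ℤ) ∣ f ω - r then
      ∑ ω', (if (q:ℤ) ∣ f ω - f ω' then w ω' else 0) else 0) := by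
    intro r
    rw [sq, lw, Finset.sum_mul]
    refine Finset.sum_congr rfl fun ω _ => ?_
    split_ifs with h
    · congr 1
      refine Finset.sum_congr rfl fun ω' _ => ?_
      have : (q:ℤ) ∣ f ω' - r ↔ (q:ℤ) ∣ f ω - f ω' := by
        constructor
        · intro h'
          have := dvd_sub h h'
          rwa [sub_sub_sub_cancel_right] at this
        · intro h'
          have := dvd_sub h h'
          rwa [show f ω - (r:ℤ) - (f ω - f ω') = f ω' - r by ring] at this
      simp only [this]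
    · simp
  have h2 := sum_lw (fun ω => w ω * ∑ ω', (if (q:ℤ) ∣ f ω - f ω' then w ω' else 0)) f q hq
  rw [Finset.sum_congr rfl fun r _ => h1 r, col]
  simp only [lw] at h2
  have h3 : ∀ r : ℕ, ∑ ω, w ω * (if (q:ℤ) ∣ f ω - r then
      ∑ ω', (if (q:ℤ) ∣ f ω - f ω' then w ω' else 0) else 0) =
      ∑ ω, if (q:ℤ) ∣ f ω - r then w ω * ∑ ω', (if (q:ℤ) ∣ f ω - f ω' then w ω' else 0) else 0 := by
    intro r
    refine Finset.sum_congr rfl fun ω _ => ?_
    split_ifs <;> simp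
  rw [Finset.sum_congr rfl fun r _ => h3 r, h2]
  refine Finset.sum_congr rfl fun ω _ => ?_
  rw [Finset.mul_sum]
  refine Finset.sum_congr rfl fun ω' _ => ?_
  split_ifs <;> simp

theorem cht_zero (q : ℕ) (t : ℤ) : cht w f q 0 t = ((∑ ω, w ω : ℝ) : ℂ) := by
  rw [cht]
  push_cast
  refine Finset.sum_congr rfl fun ω _ => ?_
  rw [ee]
  simp

/-- the deviation from the uniform law in `L^1` -/
theorem l1_bound (q : ℕ) (hq : 0 < q) :
    (∑ r ∈ range q, |lw w f q r - (∑ ω, w ω) / q|) ^ 2 ≤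
      ∑ k ∈ (range q).erase 0, ‖cht w f q k 1‖ ^ 2 := by
  have hq' : (0:ℝ) < q := by exact_mod_cast hq
  have h1 : (∑ r ∈ range q, |lw w f q r - (∑ ω, w ω) / q|) ^ 2 ≤
      q * ∑ r ∈ range q, |lw w f q r - (∑ ω, w ω) / q| ^ 2 := by
    have := sq_sum_le_card_mul_sum_sq (s := range q) (f := fun r : ℕ => |lw w f q r - (∑ ω, w ω) / q|)
    rwa [Finset.card_range] at this
  refine h1.trans (le_of_eq ?_)
  have h2 : ∑ r ∈ range q, |lw w f q r - (∑ ω, w ω) / q| ^ 2 = col w f q - (∑ ω, w ω) ^ 2 / q := by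
    have : ∀ r : ℕ, |lw w f q r - (∑ ω, w ω) / q| ^ 2 =
        lw w f q r ^ 2 - 2 * (∑ ω, w ω) / q * lw w f q r + ((∑ ω, w ω) / q) ^ 2 := by
      intro r; rw [sq_abs]; ring
    rw [Finset.sum_congr rfl fun r _ => this r, Finset.sum_add_distrib, Finset.sum_sub_distrib,
      ← Finset.mul_sum, sum_lw w f q hq, sum_lw_sq w f q hq, Finset.sum_const, Finset.card_range,
      nsmul_eq_mul]
    field_simp
    ring
  have h3 : ∑ k ∈ (range q).erase 0, ‖cht w f q k 1‖ ^ 2 =
      ∑ k ∈ range q, ‖cht w f q k 1‖ ^ 2 - (∑ ω, w ω) ^ 2 := by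
    rw [← Finset.add_sum_erase (range q) _ (Finset.mem_range.2 hq), cht_zero]
    rw [Complex.norm_real, Real.norm_eq_abs, sq_abs]
    ring
  rw [h2, h3, parseval w f q hq]
  field_simp

/-- average of the collisions over the moduli -/
theorem avg (hw : ∀ ω, 0 ≤ w ω) (X B : ℕ) (τ : ℝ) (hf : ∀ ω ω', (f ω - f ω').natAbs ≤ B)
    (hτ0 : 0 ≤ τ) (hτ : ∀ n : ℕ, n ≠ 0 → n ≤ B → (n.divisors.card : ℝ) ≤ τ) :
    ∑ q ∈ Icc 1 X, (q : ℝ) * col w f q ≤
      X ^ 2 * (∑ ω, ∑ ω', if f ω = f ω' then w ω * w ω' else 0) + X * τ * (∑ ω, w ω) ^ 2 := by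
  have h1 : ∑ q ∈ Icc 1 X, (q : ℝ) * col w f q =
      ∑ ω, ∑ ω', (w ω * w ω') * ∑ q ∈ Icc 1 X, (if (q:ℤ) ∣ f ω - f ω' then (q:ℝ) else 0) := by
    simp only [col, Finset.mul_sum]
    rw [Finset.sum_comm]
    refine Finset.sum_congr rfl fun ω _ => ?_
    rw [Finset.sum_comm]
    refine Finset.sum_congr rfl fun ω' _ => ?_
    refine Finset.sum_congr rfl fun q _ => ?_
    split_ifs <;> ring
  have hX : (0:ℝ) ≤ X := Nat.cast_nonneg X
  have h2 : ∀ ω ω', ∑ q ∈ Icc 1 X, (if (q:ℤ) ∣ f ω - f ω' then (q:ℝ) else 0) ≤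
      X ^ 2 * (if f ω = f ω' then 1 else 0) + X * τ := by
    intro ω ω'
    split_ifs with h
    · have h3 : ∑ q ∈ Icc 1 X, (if (q:ℤ) ∣ f ω - f ω' then (q:ℝ) else 0) ≤ ∑ q ∈ Icc 1 X, (X:ℝ) := by
        apply Finset.sum_le_sum
        intro q hq
        rw [Finset.mem_Icc] at hq
        have : (q:ℝ) ≤ X := by exact_mod_cast hq.2
        split_ifs <;> linarith
      rw [Finset.sum_const, Nat.card_Icc, Nat.add_sub_cancel, nsmul_eq_mul] at h3
      nlinarith [mul_nonneg hX hτ0]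
    · rw [mul_zero, zero_add, ← Finset.sum_filter]
      have hne : (f ω - f ω').natAbs ≠ 0 := by
        rw [Int.natAbs_ne_zero, sub_ne_zero]; exact h
      have h3 : ((Icc 1 X).filter (fun q : ℕ => (q:ℤ) ∣ f ω - f ω')) ⊆ (f ω - f ω').natAbs.divisors := by
        intro q hq
        rw [Finset.mem_filter] at hq
        rw [Nat.mem_divisors]
        exact ⟨Int.natCast_dvd.1 hq.2, hne⟩
      calc ∑ q ∈ (Icc 1 X).filter (fun q : ℕ => (q:ℤ) ∣ f ω - f ω'), (q:ℝ)
          ≤ ∑ q ∈ (Icc 1 X).filter (fun q : ℕ => (q:ℤ) ∣ f ω - f ω'), (X:ℝ) := by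
            apply Finset.sum_le_sum
            intro q hq
            rw [Finset.mem_filter, Finset.mem_Icc] at hq
            exact_mod_cast hq.1.2
        _ = (((Icc 1 X).filter (fun q : ℕ => (q:ℤ) ∣ f ω - f ω')).card : ℝ) * X := by
            rw [Finset.sum_const, nsmul_eq_mul]
        _ ≤ τ * X := by
            apply mul_le_mul_of_nonneg_right _ hX
            refine le_trans ?_ (hτ _ hne (hf ω ω'))
            exact_mod_cast Finset.card_le_card h3
        _ = X * τ := by ring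
  rw [h1]
  calc ∑ ω, ∑ ω', (w ω * w ω') * ∑ q ∈ Icc 1 X, (if (q:ℤ) ∣ f ω - f ω' then (q:ℝ) else 0)
      ≤ ∑ ω, ∑ ω', (w ω * w ω') * (X ^ 2 * (if f ω = f ω' then 1 else 0) + X * τ) := by
        apply Finset.sum_le_sum; intro ω _
        apply Finset.sum_le_sum; intro ω' _
        exact mul_le_mul_of_nonneg_left (h2 ω ω') (mul_nonneg (hw ω) (hw ω'))
    _ = X ^ 2 * (∑ ω, ∑ ω', if f ω = f ω' then w ω * w ω' else 0) + X * τ * (∑ ω, w ω) ^ 2 := by
        rw [sq (∑ ω, w ω), Finset.sum_mul_sum, Finset.mul_sum, Finset.mul_sum, ← Finset.sum_add_distrib]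
        refine Finset.sum_congr rfl fun ω _ => ?_
        rw [Finset.mul_sum, Finset.mul_sum, ← Finset.sum_add_distrib]
        refine Finset.sum_congr rfl fun ω' _ => ?_
        split_ifs <;> ring

/-- the weight of the integer `s` -/
noncomputable def ms (s : ℤ) : ℝ := ∑ ω, if f ω = s then w ω else 0

theorem ms_nonneg (hw : ∀ ω, 0 ≤ w ω) (s : ℤ) : 0 ≤ ms w f s := by
  unfold ms
  apply Finset.sum_nonneg
  intro ω _
  split_ifs <;> [exact hw ω; exact le_rfl]

theorem le_ms (hw : ∀ ω, 0 ≤ w ω) (ω : Ω) : w ω ≤ ms w f (f ω) := by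
  unfold ms
  have := Finset.single_le_sum (f := fun ω' => if f ω' = f ω then w ω' else 0) (s := univ)
    (fun ω' _ => by split_ifs <;> [exact hw ω'; exact le_rfl]) (Finset.mem_univ ω)
  simpa using this

theorem ms_le_sum (hw : ∀ ω, 0 ≤ w ω) (s : ℤ) : ms w f s ≤ ∑ ω, w ω := by
  unfold ms
  apply Finset.sum_le_sum
  intro ω _
  split_ifs <;> [exact le_rfl; exact hw ω]

theorem col0_eq : (∑ ω, ∑ ω', if f ω = f ω' then w ω * w ω' else 0) = ∑ ω, w ω * ms w f (f ω) := by
  refine Finset.sum_congr rfl fun ω _ => ?_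
  rw [ms, Finset.mul_sum]
  refine Finset.sum_congr rfl fun ω' _ => ?_
  simp only [eq_comm (a := f ω)]
  split_ifs <;> simp

/-- the exact collisions are controlled by the largest atom -/
theorem col0_le (hw : ∀ ω, 0 ≤ w ω) (N : ℝ) (hN : ∀ s, ms w f s ≤ N) :
    (∑ ω, ∑ ω', if f ω = f ω' then w ω * w ω' else 0) ≤ N * ∑ ω, w ω := by
  rw [col0_eq, Finset.mul_sum]
  apply Finset.sum_le_sum
  intro ω _
  rw [mul_comm]
  exact mul_le_mul_of_nonneg_right (hN _) (hw ω)

end abs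

section strings

variable {D : Type*} [Fintype D]

/-- product weights, which may depend on the position -/
noncomputable def PW {R : ℕ} (w : Fin R → D → ℝ) (b : Fin R → D) : ℝ := ∏ i, w i (b i)

/-- the value of a string in base `A` -/
def vl (v : D → ℤ) (A : ℕ) {R : ℕ} (b : Fin R → D) : ℤ := ∑ i, v (b i) * (A : ℤ) ^ (i : ℕ)

theorem PW_nonneg {R : ℕ} (w : Fin R → D → ℝ) (hw : ∀ i d, 0 ≤ w i d) (b : Fin R → D) : 0 ≤ PW w b :=
  Finset.prod_nonneg fun i _ => hw i _

theorem sum_PW [DecidableEq D] {R : ℕ} (w : Fin R → D → ℝ) : ∑ b, PW w b = ∏ i, ∑ d, w i d := by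
  rw [Finset.prod_univ_sum, Fintype.piFinset_univ]
  rfl

theorem ee_sum {ι : Type*} (q k : ℕ) (s : Finset ι) (g : ι → ℤ) :
    ee q k (∑ i ∈ s, g i) = ∏ i ∈ s, ee q k (g i) := by
  classical
  induction s using Finset.induction_on with
  | empty => simp [ee]
  | insert i s hi ih => rw [Finset.sum_insert hi, Finset.prod_insert hi, ← ee_add, ih]

theorem cht_prod [DecidableEq D] {R : ℕ} (w : Fin R → D → ℝ) (v : D → ℤ) (A q k : ℕ) (t : ℤ) :
    cht (PW w) (vl v A) q k t = ∏ i : Fin R, cht (w i) v q k (t * (A : ℤ) ^ (i : ℕ)) := by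
  unfold cht
  rw [Finset.prod_univ_sum, Fintype.piFinset_univ]
  refine Finset.sum_congr rfl fun b _ => ?_
  rw [Finset.prod_mul_distrib, PW, vl, Finset.mul_sum, ee_sum]
  push_cast
  congr 1
  refine Finset.prod_congr rfl fun i _ => ?_
  congr 1
  ring

theorem PW_cons {R : ℕ} (w : Fin (R + 1) → D → ℝ) (d : D) (b : Fin R → D) :
    PW w (Fin.cons d b) = w 0 d * PW (fun i : Fin R => w i.succ) b := by
  unfold PW
  rw [Fin.prod_univ_succ]
  simp

theorem vl_cons (v : D → ℤ) (A : ℕ) {R : ℕ} (d : D) (b : Fin R → D) :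
    vl v A (Fin.cons d b : Fin (R + 1) → D) = v d + A * vl v A b := by
  unfold vl
  rw [Fin.sum_univ_succ, Finset.mul_sum]
  simp only [Fin.cons_zero, Fin.val_zero, pow_zero, mul_one, Fin.cons_succ, Fin.val_succ, pow_succ]
  congr 1
  refine Finset.sum_congr rfl fun i _ => ?_
  ring

/-- the weight of a residue class modulo `A` of digits of size at most `B A` -/
theorem class_le (w : D → ℝ) (v : D → ℤ) (A B : ℕ) (hA : 1 ≤ A)
    (hv : ∀ d, |v d| ≤ B * A) (N : ℝ) (hN : ∀ s, ms w v s ≤ N) (t : ℤ) :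
    (∑ d, if (A : ℤ) ∣ t - v d then w d else 0) ≤ (2 * B + 1 : ℕ) * N := by
  have hA' : (0:ℤ) < A := by exact_mod_cast hA
  set r : ℤ := t % A with hr
  have hr0 : 0 ≤ r := Int.emod_nonneg _ hA'.ne'
  have hr1 : r < A := Int.emod_lt_of_pos _ hA'
  have key : ∀ d, (A:ℤ) ∣ t - v d → ∃ j ∈ Icc (-(B:ℤ)) B, v d = r + A * j := by
    intro d hd
    have h1 : (A:ℤ) ∣ v d - r := by
      have h2 : (A:ℤ) ∣ t - r := Int.dvd_self_sub_emod
      have := dvd_sub h2 hd
      rwa [show t - r - (t - v d) = v d - r by ring] at this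
    obtain ⟨j, hj⟩ := h1
    refine ⟨j, ?_, by linarith⟩
    have h3 := abs_le.1 (hv d)
    rw [Finset.mem_Icc]
    constructor
    · by_contra hcon
      push Not at hcon
      have h5 : A * j ≤ A * (-(B:ℤ) - 1) := mul_le_mul_of_nonneg_left (by omega) hA'.le
      nlinarith
    · by_contra hcon
      push Not at hcon
      have h5 : (A:ℤ) * ((B:ℤ) + 1) ≤ A * j := mul_le_mul_of_nonneg_left (by omega) hA'.le
      nlinarith
  have h1 : (∑ d, if (A : ℤ) ∣ t - v d then w d else 0) =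
      ∑ j ∈ Icc (-(B:ℤ)) B, ms w v (r + A * j) := by
    unfold ms
    rw [Finset.sum_comm]
    refine Finset.sum_congr rfl fun d _ => ?_
    split_ifs with h
    · obtain ⟨j, hj, hjd⟩ := key d h
      rw [Finset.sum_eq_single j]
      · rw [if_pos hjd]
      · intro j' _ hne
        rw [if_neg]
        intro h2
        apply hne
        have : (A:ℤ) * j' = A * j := by linarith
        exact mul_left_cancel₀ hA'.ne' this
      · intro h2; exact absurd hj h2
    · symm
      apply Finset.sum_eq_zero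
      intro j _
      rw [if_neg]
      intro h2
      apply h
      have h3 : (A:ℤ) ∣ t - r := Int.dvd_self_sub_emod
      obtain ⟨c, hc⟩ := h3
      exact ⟨c - j, by rw [h2]; linear_combination hc⟩
  rw [h1]
  refine (Finset.sum_le_sum fun j _ => hN _).trans (le_of_eq ?_)
  rw [Finset.sum_const, nsmul_eq_mul, Int.card_Icc]
  congr 2
  omega

/-- the recursion for the atoms -/
theorem ms_succ [DecidableEq D] {R : ℕ} (w : Fin (R + 1) → D → ℝ) (v : D → ℤ) (A : ℕ) (hA : 1 ≤ A) (t : ℤ) :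
    ms (PW w) (vl v A) t = ∑ d, w 0 d * (if (A:ℤ) ∣ t - v d then
      ms (PW fun i : Fin R => w i.succ) (vl v A) ((t - v d) / A) else 0) := by
  have hA' : (A:ℤ) ≠ 0 := by
    have : A ≠ 0 := by omega
    exact_mod_cast this
  unfold ms
  rw [← Equiv.sum_comp (Fin.consEquiv (fun _ => D)), Fintype.sum_prod_type]
  refine Finset.sum_congr rfl fun d _ => ?_
  have h1 : ∀ b : Fin R → D, (Fin.consEquiv (fun _ => D)) (d, b) = (Fin.cons d b : Fin (R + 1) → D) :=
    fun b => rfl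
  simp only [h1, PW_cons, vl_cons]
  split_ifs with h
  · rw [Finset.mul_sum]
    refine Finset.sum_congr rfl fun b _ => ?_
    have h2 : v d + (A:ℤ) * vl v A b = t ↔ vl v A b = (t - v d) / A := by
      obtain ⟨c, hc⟩ := h
      rw [hc, Int.mul_ediv_cancel_left _ hA']
      constructor
      · intro h3
        have : (A:ℤ) * vl v A b = A * c := by linarith
        exact mul_left_cancel₀ hA' this
      · intro h3; rw [h3]; linarith
    simp only [h2]
    split_ifs <;> simp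
  · rw [mul_zero]
    apply Finset.sum_eq_zero
    intro b _
    rw [if_neg]
    intro h2
    exact h ⟨vl v A b, by linarith⟩

/-- the largest atom of a product law -/
theorem ms_prod_le [DecidableEq D] (v : D → ℤ) (A B : ℕ) (hA : 1 ≤ A) (hv : ∀ d, |v d| ≤ B * A) :
    ∀ {R : ℕ} (w : Fin R → D → ℝ) (_ : ∀ i d, 0 ≤ w i d) (N : Fin R → ℝ)
      (_ : ∀ i s, ms (w i) v s ≤ N i) (t : ℤ),
      ms (PW w) (vl v A) t ≤ ∏ i, ((2 * B + 1 : ℕ) * N i) := by
  intro R
  induction R with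
  | zero =>
    intro w _ N _ t
    rw [Finset.univ_eq_empty, Finset.prod_empty, ms]
    simp only [Fintype.sum_unique]
    split_ifs
    · simp [PW]
    · norm_num
  | succ R ih =>
    intro w hw N hN t
    rw [ms_succ w v A hA, Fin.prod_univ_succ]
    have hNn : ∀ i, 0 ≤ N i := fun i => (ms_nonneg (w i) v (hw i) 0).trans (hN i 0)
    set P : ℝ := ∏ i : Fin R, ((2 * B + 1 : ℕ) * N i.succ) with hP
    have hP0 : 0 ≤ P := Finset.prod_nonneg fun i _ => mul_nonneg (Nat.cast_nonneg _) (hNn _)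
    calc ∑ d, w 0 d * (if (A:ℤ) ∣ t - v d then
          ms (PW fun i : Fin R => w i.succ) (vl v A) ((t - v d) / A) else 0)
        ≤ ∑ d, (if (A:ℤ) ∣ t - v d then w 0 d else 0) * P := by
          apply Finset.sum_le_sum
          intro d _
          split_ifs
          · exact mul_le_mul_of_nonneg_left
              (ih (fun i => w i.succ) (fun i => hw _) (fun i => N i.succ) (fun i => hN _) _) (hw 0 d)
          · simp
      _ = (∑ d, if (A:ℤ) ∣ t - v d then w 0 d else 0) * P := by rw [Finset.sum_mul]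
      _ ≤ ((2 * B + 1 : ℕ) * N 0) * P :=
          mul_le_mul_of_nonneg_right (class_le (w 0) v A B hA hv (N 0) (hN 0) t) hP0

/-- the size of the values -/
theorem vl_abs' (v : D → ℤ) (A B : ℕ) (hA : 2 ≤ A) (hv : ∀ d, |v d| ≤ B) {R : ℕ} (b : Fin R → D) :
    |vl v A b| ≤ B * ((A:ℤ) ^ R - 1) := by
  induction R with
  | zero => simp [vl]
  | succ R ih =>
    rw [← Fin.cons_self_tail b, vl_cons]
    have h1 := ih (Fin.tail b)
    have h2 := hv (b 0)
    have hA' : (2:ℤ) ≤ A := by exact_mod_cast hA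
    have hA0 : (0:ℤ) ≤ A := by linarith
    have hB : (0:ℤ) ≤ B := Int.natCast_nonneg B
    calc |v (b 0) + (A:ℤ) * vl v A (Fin.tail b)| ≤ |v (b 0)| + |(A:ℤ) * vl v A (Fin.tail b)| :=
          abs_add_le _ _
      _ = |v (b 0)| + A * |vl v A (Fin.tail b)| := by rw [abs_mul, abs_of_nonneg hA0]
      _ ≤ B + A * (B * ((A:ℤ) ^ R - 1)) := add_le_add h2 (mul_le_mul_of_nonneg_left h1 hA0)
      _ = B * (A:ℤ) ^ (R + 1) + B * (1 - A) := by ring
      _ ≤ B * (A:ℤ) ^ (R + 1) + B * (-1) := by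
          have : (B:ℤ) * (1 - A) ≤ B * (-1) := mul_le_mul_of_nonneg_left (by linarith) hB
          linarith
      _ = B * ((A:ℤ) ^ (R + 1) - 1) := by ring

theorem vl_abs (v : D → ℤ) (A B : ℕ) (hA : 2 ≤ A) (hv : ∀ d, |v d| ≤ B) {R : ℕ} (b : Fin R → D) :
    |vl v A b| ≤ B * (A ^ R : ℕ) := by
  refine (vl_abs' v A B hA hv b).trans ?_
  have hB : (0:ℤ) ≤ B := Int.natCast_nonneg B
  push_cast
  exact mul_le_mul_of_nonneg_left (by linarith) hB

end strings

end Pool.Agent.KS6_59.AX
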