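import Pool.Agent.KS6_59.AX.Mono

/-! Most moduli have a small distance after slightly more than `log X / h` steps. -/

set_option autoImplicit false
set_option linter.unusedSectionVars false
set_option maxHeartbeats 4000000

open Finset Filter Topology

namespace Pool.Agent.KS6_59.AX

open H942R3.AX

variable {D : Type*} [Fintype D] [DecidableEq D]


variable {p : D → ℝ} {v : D → ℤ} {a : ℕ}

theorem tvv_le (hp : ∀ d, 0 < p d) (h1 : ∑ d, p d = 1) (R m q : ℕ) (hq : 0 < q) (θ : ℝ)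
    (hdl : dl p v a m θ ≤ 1) :
    tvv p v a (R * m) q ≤ 2 * (R * dl p v a m θ) +
      ∑ r ∈ range q, |lw (PW (fun _ : Fin R => tw p v a m θ)) (vl (fun b : Fin m → D => vl v a b) (a ^ m)) q r
        - (∑ ω, PW (fun _ : Fin R => tw p v a m θ) ω) / q| := by
  unfold tvv
  have e1 : ∀ r ∈ range q, |lw (wn p (R * m)) (vl v a) q r - 1 / q| =
      |lw (PW (fun _ : Fin R => wn p m)) (vl (fun b : Fin m → D => vl v a b) (a ^ m)) q r - 1 / q| := by
    intro r _
    rw [lw_blk]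
  rw [Finset.sum_congr rfl e1]
  have hsum : ∑ ω, PW (fun _ : Fin R => wn p m) ω = 1 := by
    rw [sum_PW]
    simp [wn_sum p h1]
  have hle : ∀ ω, PW (fun _ : Fin R => tw p v a m θ) ω ≤ PW (fun _ : Fin R => wn p m) ω := by
    intro ω
    unfold PW
    exact Finset.prod_le_prod (fun i _ => tw_nonneg v a hp m θ _) (fun i _ => tw_le v a hp m θ _)
  refine (l1_trunc _ (PW (fun _ : Fin R => tw p v a m θ)) _ hsum hle q hq).trans ?_
  apply add_le_add _ le_rfl
  have h2 : ∑ ω, PW (fun _ : Fin R => tw p v a m θ) ω = (1 - dl p v a m θ) ^ R := by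
    rw [sum_PW]
    simp only [tw_sum v a h1]
    rw [Finset.prod_const, Finset.card_univ, Fintype.card_fin]
  rw [h2]
  have h3 := one_add_mul_le_pow (a := -dl p v a m θ) (by linarith) R
  have h4 : (1 + -dl p v a m θ) ^ R = (1 - dl p v a m θ) ^ R := by ring
  rw [h4] at h3
  linarith

open Classical in
theorem most_good [Nonempty D] (hp : ∀ d, 0 < p d) (h1 : ∑ d, p d = 1) (ha : 2 ≤ a) (B : ℕ)
    (hv : ∀ d, |v d| ≤ B) (g : ℤ)
    (hg : ∀ y : ℝ, (∀ d d', ∃ z : ℤ, y * ((v d - v d' : ℤ) : ℝ) = z) → ∃ z : ℤ, y * g = z)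
    (R : ℕ) (hR : 2 ≤ R) (η : ℝ) (hη0 : 0 < η) (hη : η < hr p v a) (ε : ℝ) (hε : 0 < ε) :
    ∃ lam : ℝ, 0 < lam ∧ lam < 1 ∧ ∃ m0 : ℕ, ∀ m ≥ m0, ∀ X : ℕ,
      (X:ℝ) ≤ Real.exp (η * ((R - 1 : ℕ) : ℝ) * m) →
      (((Icc 1 X).filter (fun q : ℕ => (q.Coprime a ∧ q.Coprime g.natAbs) ∧
        lam ^ m < tvv p v a (R * m) q)).card : ℝ) ≤ ε * X := by
  have ha0 : (0:ℝ) < a := by exact_mod_cast (by omega : 0 < a)
  have ha1 : (1:ℝ) < a := by exact_mod_cast (by omega : 1 < a)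
  have hla : 0 < Real.log a := Real.log_pos ha1
  have hRr : (0:ℝ) < R := by exact_mod_cast (by omega : 0 < R)
  obtain ⟨ρ, hρ0, hρ1, hρ⟩ := digit_decay p v hp h1 g hg a (by omega)
  obtain ⟨c, C, hc, hC, htail⟩ := tail_up p v a B hp h1 ha hv (hr p v a - η) (by linarith)
  have hdlC : ∀ m : ℕ, dl p v a m (Real.exp (-η * m)) ≤ C * Real.exp (-c * m) := by
    intro m
    have := htail m
    rw [show -(hr p v a - (hr p v a - η)) * (m:ℝ) = -η * m by ring] at this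
    exact this
  obtain ⟨h0, hh0, hQ⟩ := QQ_small (a := a) (K := R) ha (by omega)
  have hlam0 := lamK_pos R
  have hlam1 := lamK_lt R (by omega)
  -- choose `h`
  have hlim : Tendsto (fun n : ℕ => 6 * (lamK R ^ n / (1 - lamK R))) atTop (𝓝 (6 * (0 / (1 - lamK R)))) :=
    ((tendsto_pow_atTop_nhds_zero_of_lt_one hlam0.le hlam1).div_const _).const_mul _
  rw [zero_div, mul_zero] at hlim
  obtain ⟨n1, hn1⟩ := Filter.eventually_atTop.1 (hlim.eventually (gt_mem_nhds (show 0 < ε / 2 by linarith)))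
  set h := max h0 (4 * n1) with hh
  have hhn : n1 ≤ h / 4 + 1 := by
    have : 4 * n1 ≤ h := le_max_right _ _
    omega
  have hhpos : 0 < h := lt_of_lt_of_le hh0 (le_max_left _ _)
  have hQh := hQ h (le_max_left _ _)
  have hhr : (0:ℝ) < h := by exact_mod_cast hhpos
  -- the contraction factors
  set κ : ℝ := ρ ^ ((1:ℝ) / h) with hκd
  have hκ0 : 0 < κ := Real.rpow_pos_of_pos hρ0 _
  have hκ1 : κ < 1 := Real.rpow_lt_one hρ0.le hρ1 (by positivity)
  have hκh : κ ^ h = ρ := by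
    rw [hκd, ← Real.rpow_natCast, ← Real.rpow_mul hρ0.le, one_div_mul_cancel hhr.ne', Real.rpow_one]
  set κ₁ : ℝ := max κ (Real.exp (-c)) with hκ₁
  have hκ₁0 : 0 < κ₁ := lt_max_of_lt_left hκ0
  have hκ₁1 : κ₁ < 1 := max_lt hκ1 (by rw [Real.exp_lt_one_iff]; linarith)
  set lam : ℝ := κ₁ ^ ((1:ℝ) / 4) with hlamd
  have hlm0 : 0 < lam := Real.rpow_pos_of_pos hκ₁0 _
  have hlm1 : lam < 1 := Real.rpow_lt_one hκ₁0.le hκ₁1 (by norm_num)
  have hlm4 : lam ^ 4 = κ₁ := by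
    rw [hlamd, ← Real.rpow_natCast, ← Real.rpow_mul hκ₁0.le]
    norm_num
  have hdl4 : ∀ m : ℕ, dl p v a m (Real.exp (-η * m)) ≤ C * κ₁ ^ m := by
    intro m
    refine (hdlC m).trans ?_
    apply mul_le_mul_of_nonneg_left _ hC.le
    rw [show -c * (m:ℝ) = (m:ℝ) * (-c) by ring, Real.exp_nat_mul]
    exact pow_le_pow_left₀ (Real.exp_pos _).le (le_max_right _ _) m
  -- the divisor bound
  set e1 : ℝ := -Real.log κ₁ / (R * Real.log a) with he1
  have hlκ : Real.log κ₁ < 0 := Real.log_neg hκ₁0 hκ₁1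
  have he1pos : 0 < e1 := div_pos (by linarith) (by positivity)
  obtain ⟨C0, hC00, hC0⟩ := H353.divisor_bound_real e1 he1pos
  set C6 : ℝ := C0 * ((2 * B + 1 : ℕ) : ℝ) ^ e1 with hC6
  have hC60 : 0 ≤ C6 := by positivity
  have hτ : ∀ m : ℕ, ∀ n : ℕ, n ≠ 0 → n ≤ (2 * B + 1) * a ^ (R * m) →
      (n.divisors.card : ℝ) ≤ C6 * (κ₁ ^ m)⁻¹ := by
    intro m n hn hnL
    refine (hC0 n hn).trans ?_
    rw [hC6, mul_assoc]
    apply mul_le_mul_of_nonneg_left _ hC00.le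
    have h2 : (n:ℝ) ≤ ((2 * B + 1 : ℕ) : ℝ) * (a:ℝ) ^ (R * m) := by exact_mod_cast hnL
    refine (Real.rpow_le_rpow (Nat.cast_nonneg _) h2 he1pos.le).trans (le_of_eq ?_)
    rw [Real.mul_rpow (Nat.cast_nonneg _) (by positivity)]
    congr 1
    rw [← Real.rpow_natCast (a:ℝ), ← Real.rpow_mul ha0.le, Real.rpow_def_of_pos ha0]
    have h3 : Real.log a * (((R * m : ℕ) : ℝ) * e1) = (m:ℝ) * (-Real.log κ₁) := by
      rw [he1]; push_cast; field_simp
    rw [h3, Real.exp_nat_mul, Real.exp_neg, Real.exp_log hκ₁0, inv_pow]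
  set MM : ℝ := ((2 * B + 1 : ℕ) : ℝ) ^ R with hMM
  have hMM0 : 0 ≤ MM := by positivity
  set C5 : ℝ := R * (1 + C) ^ 2 * (MM + C6) with hC5
  have hC50 : 0 ≤ C5 := by positivity
  -- large `m`
  have l1 : Tendsto (fun m : ℕ => 4 * R * C * (lam ^ 3) ^ m) atTop (𝓝 (4 * R * C * 0)) :=
    (tendsto_pow_atTop_nhds_zero_of_lt_one (by positivity) (pow_lt_one₀ hlm0.le hlm1 (by norm_num))).const_mul _
  rw [mul_zero] at l1
  have l2 : Tendsto (fun m : ℕ => 4 * C5 * (lam ^ 2) ^ m) atTop (𝓝 (4 * C5 * 0)) :=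
    (tendsto_pow_atTop_nhds_zero_of_lt_one (by positivity) (pow_lt_one₀ hlm0.le hlm1 (by norm_num))).const_mul _
  rw [mul_zero] at l2
  obtain ⟨m1, hm1⟩ := Filter.eventually_atTop.1 (l1.eventually (gt_mem_nhds (show (0:ℝ) < 1 by norm_num)))
  obtain ⟨m2, hm2⟩ := Filter.eventually_atTop.1 (l2.eventually (gt_mem_nhds (show 0 < ε / 2 by linarith)))
  have l3 : Tendsto (fun m : ℕ => C * κ₁ ^ m) atTop (𝓝 (C * 0)) :=
    (tendsto_pow_atTop_nhds_zero_of_lt_one hκ₁0.le hκ₁1).const_mul _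
  rw [mul_zero] at l3
  obtain ⟨m3, hm3⟩ := Filter.eventually_atTop.1 (l3.eventually (gt_mem_nhds (show (0:ℝ) < 1 by norm_num)))
  refine ⟨lam, hlm0, hlm1, max (max m1 m2) (max m3 (R + 1)), fun m hm X hX => ?_⟩
  have hmm1 : m1 ≤ m := (le_max_left _ _).trans ((le_max_left _ _).trans hm)
  have hmm2 : m2 ≤ m := (le_max_right _ _).trans ((le_max_left _ _).trans hm)
  have hmm3 : m3 ≤ m := (le_max_left _ _).trans ((le_max_right _ _).trans hm)
  have hmR : R + 1 ≤ m := (le_max_right _ _).trans ((le_max_right _ _).trans hm)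
  have hX0 : (0:ℝ) ≤ X := Nat.cast_nonneg X
  set θ : ℝ := Real.exp (-η * m) with hθ
  have hθ0 : 0 < θ := Real.exp_pos _
  have hXθ : (X:ℝ) * θ ^ (R - 1) ≤ 1 := by
    have h2 : Real.exp (η * ((R - 1 : ℕ) : ℝ) * m) * θ ^ (R - 1) = 1 := by
      rw [hθ, ← Real.exp_nat_mul, ← Real.exp_add]
      convert Real.exp_zero using 2
      ring
    rw [← h2]
    exact mul_le_mul_of_nonneg_right hX (by positivity)
  have hXa : X ≤ a ^ ((R - 1) * m) := by
    have h2 : (X:ℝ) ≤ (a:ℝ) ^ ((R - 1) * m) := by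
      refine hX.trans ?_
      rw [← Real.rpow_natCast (a:ℝ), Real.rpow_def_of_pos ha0]
      apply Real.exp_le_exp.2
      push_cast
      have h3 : η ≤ Real.log a := hη.le.trans (hr_le_log p v a B hp h1 ha hv)
      have h4 : (0:ℝ) ≤ ((R - 1 : ℕ) : ℝ) * m := by positivity
      nlinarith
    exact_mod_cast h2
  have hX2 : (2 * X) ^ (R + 1) ≤ a ^ (R * (R * m)) := by
    calc (2 * X) ^ (R + 1) ≤ (2 * a ^ ((R - 1) * m)) ^ (R + 1) :=
          Nat.pow_le_pow_left (Nat.mul_le_mul_left 2 hXa) _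
      _ = 2 ^ (R + 1) * a ^ ((R - 1) * m * (R + 1)) := by rw [mul_pow, ← pow_mul]
      _ ≤ a ^ m * a ^ ((R - 1) * m * (R + 1)) := by
          apply Nat.mul_le_mul_right
          calc 2 ^ (R + 1) ≤ 2 ^ m := Nat.pow_le_pow_right (by norm_num) hmR
            _ ≤ a ^ m := Nat.pow_le_pow_left ha m
      _ = a ^ (R * (R * m)) := by
          rw [← pow_add]
          congr 1
          obtain ⟨s, rfl⟩ : ∃ s, R = s + 1 := ⟨R - 1, by omega⟩
          rw [Nat.add_sub_cancel]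
          ring
  have hbad : ((badQ a h (R * m) X).card : ℝ) ≤ ε / 2 * X := by
    have h2 := bad_card' (a := a) (K := R) ha (by omega) h (R * m) X hX2 hQh
    have h3 := hn1 (h / 4 + 1) hhn
    nlinarith
  set c₀ : Fin m → D := fun _ => Classical.arbitrary D with hc₀
  set κ₂ : ℝ := (1 + C) * κ₁ ^ m with hκ₂
  have hκ₂0 : 0 ≤ κ₂ := by positivity
  set G := (Icc 1 X).filter (fun q : ℕ => ((q.Coprime a ∧ q.Coprime g.natAbs) ∧
        lam ^ m < tvv p v a (R * m) q) ∧ q ∉ badQ a h (R * m) X) with hG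
  have hcover : (Icc 1 X).filter (fun q : ℕ => (q.Coprime a ∧ q.Coprime g.natAbs) ∧
        lam ^ m < tvv p v a (R * m) q) ⊆ badQ a h (R * m) X ∪ G := by
    intro q hq
    rw [Finset.mem_filter] at hq
    rw [Finset.mem_union, hG, Finset.mem_filter]
    by_cases hb : q ∈ badQ a h (R * m) X
    · left; exact hb
    · right; exact ⟨hq.1, hq.2, hb⟩
  set SS : ℕ → ℝ := fun q => ∑ r : Fin R, κ₂ ^ 2 * ∑ k ∈ range q, ‖cht (PW (fw p v a R m θ c₀ r))
        (vl (fun b : Fin m → D => vl v a b) (a ^ m)) q k 1‖ ^ 2 with hSS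
  have hSS0 : ∀ q, 0 ≤ SS q := fun q => Finset.sum_nonneg fun r _ =>
    mul_nonneg (by positivity) (Finset.sum_nonneg fun k _ => by positivity)
  have hGq : ∀ q ∈ G, (lam ^ m) ^ 2 / 4 ≤ SS q := by
    intro q hq
    rw [hG, Finset.mem_filter, Finset.mem_Icc] at hq
    obtain ⟨⟨hq1, hqX⟩, ⟨⟨hqa, hqg⟩, hlt⟩, hnb⟩ := hq
    have hqr : (0:ℝ) < q := by exact_mod_cast (by omega : 0 < q)
    have hgood : ∀ k, 0 < k → k < q → ∃ r : Fin R,
        ‖cht (tw p v a m θ) (fun b : Fin m → D => vl v a b) q k (1 * ((a ^ m : ℕ) : ℤ) ^ (r:ℕ))‖ ≤ κ₂ := by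
      intro k hk hkq
      have hnd : ¬ (q:ℤ) ∣ g * k := by
        intro hd
        have h2 : q ∣ g.natAbs * k := by
          have := Int.natAbs_dvd_natAbs.2 hd
          rwa [Int.natAbs_natCast, Int.natAbs_mul, Int.natAbs_natCast] at this
        have h3 : q ∣ k := Nat.Coprime.dvd_of_dvd_mul_left hqg h2
        exact absurd (Nat.le_of_dvd hk h3) (by omega)
      have h2 : ¬ (h * na a (((g * k : ℤ) : ℝ) / q) (R * m) < R * m) := by
        intro h3
        apply hnb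
        rw [badQ, Finset.mem_filter, Finset.mem_Icc]
        exact ⟨⟨hq1, hqX⟩, hqa, g * k, hnd, h3⟩
      push Not at h2
      obtain ⟨r, hr, hr2⟩ : ∃ r < R, m ≤ h * na a (((g * k : ℤ) : ℝ) / q * (a:ℝ) ^ (r * m)) m := by
        by_contra hcon
        push Not at hcon
        rw [na_mul, Finset.mul_sum] at h2
        have h3 : ∑ r ∈ range R, h * na a (((g * k : ℤ) : ℝ) / q * (a:ℝ) ^ (r * m)) m < ∑ r ∈ range R, m := by
          apply Finset.sum_lt_sum_of_nonempty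
          · exact ⟨0, Finset.mem_range.2 (by omega)⟩
          · intro r hr
            exact hcon r (Finset.mem_range.1 hr)
        rw [Finset.sum_const, Finset.card_range, smul_eq_mul] at h3
        omega
      refine ⟨⟨r, hr⟩, ?_⟩
      refine (tw_cht v a hp m θ q k _).trans ?_
      have h3 := block_decay p v hp h1 g a ρ hρ0 hρ1 hρ q k (1 * ((a ^ m : ℕ) : ℤ) ^ r) m
      have h4 : (k:ℝ) * ((1 * ((a ^ m : ℕ) : ℤ) ^ r : ℤ) : ℝ) / q * g =
          ((g * k : ℤ) : ℝ) / q * (a:ℝ) ^ (r * m) := by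
        push_cast
        rw [mul_comm r m, pow_mul]
        ring
      rw [h4] at h3
      have h5 : ρ ^ na a (((g * k : ℤ) : ℝ) / q * (a:ℝ) ^ (r * m)) m ≤ κ₁ ^ m := by
        rw [← hκh, ← pow_mul]
        calc κ ^ (h * na a (((g * k : ℤ) : ℝ) / q * (a:ℝ) ^ (r * m)) m) ≤ κ ^ m :=
              pow_le_pow_of_le_one hκ0.le hκ1.le hr2
          _ ≤ κ₁ ^ m := pow_le_pow_left₀ hκ0.le (le_max_left _ _) m
      have h6 := hdl4 m
      calc ‖cht (wn p m) (vl v a) q k (1 * ((a ^ m : ℕ) : ℤ) ^ r)‖ + dl p v a m θ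
          ≤ κ₁ ^ m + C * κ₁ ^ m := add_le_add (h3.trans h5) h6
        _ = κ₂ := by rw [hκ₂]; ring
    have hsum := good_sum v a hp R m q θ κ₂ hκ₂0 c₀ hgood
    have hl1 := l1_bound (PW (fun _ : Fin R => tw p v a m θ))
      (vl (fun b : Fin m → D => vl v a b) (a ^ m)) q (by omega)
    have hdl1 : dl p v a m θ ≤ 1 := (hdl4 m).trans (hm3 m hmm3).le
    have htv := tvv_le (v := v) (a := a) hp h1 R m q (by omega) θ hdl1
    set T := ∑ r ∈ range q, |lw (PW (fun _ : Fin R => tw p v a m θ)) (vl (fun b : Fin m → D => vl v a b) (a ^ m)) q r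
        - (∑ ω, PW (fun _ : Fin R => tw p v a m θ) ω) / q| with hT
    have h2 : T ^ 2 ≤ SS q := hl1.trans hsum
    have h3 : 2 * (R * dl p v a m θ) ≤ lam ^ m / 2 := by
      have h4 := (hm1 m hmm1).le
      have h5 : 2 * (R * dl p v a m θ) ≤ 2 * (R * (C * κ₁ ^ m)) := by
        have := hdl4 m
        gcongr
      refine h5.trans ?_
      have h6 : κ₁ ^ m = lam ^ m * (lam ^ 3) ^ m := by
        rw [← hlm4, ← mul_pow]; congr 1; ring
      rw [h6]
      have h7 : 0 < lam ^ m := by positivity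
      nlinarith
    have h4 : lam ^ m / 2 ≤ T := by linarith
    have h5 : 0 < lam ^ m := by positivity
    calc (lam ^ m) ^ 2 / 4 = (lam ^ m / 2) ^ 2 := by ring
      _ ≤ T ^ 2 := pow_le_pow_left₀ (by positivity) h4 2
      _ ≤ SS q := h2
  have hGsum : (G.card : ℝ) * ((lam ^ m) ^ 2 / 4) ≤ C5 * κ₁ ^ m * X := by
    calc (G.card : ℝ) * ((lam ^ m) ^ 2 / 4) = ∑ q ∈ G, (lam ^ m) ^ 2 / 4 := by
          rw [Finset.sum_const, nsmul_eq_mul]
      _ ≤ ∑ q ∈ G, SS q := Finset.sum_le_sum hGq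
      _ ≤ ∑ q ∈ Icc 1 X, SS q := by
          apply Finset.sum_le_sum_of_subset_of_nonneg
          · rw [hG]; exact Finset.filter_subset _ _
          · intro q _ _; exact hSS0 q
      _ = ∑ r : Fin R, κ₂ ^ 2 * ∑ q ∈ Icc 1 X, ∑ k ∈ range q, ‖cht (PW (fw p v a R m θ c₀ r))
            (vl (fun b : Fin m → D => vl v a b) (a ^ m)) q k 1‖ ^ 2 := by
          rw [hSS, Finset.sum_comm]
          refine Finset.sum_congr rfl fun r _ => ?_
          rw [Finset.mul_sum]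
      _ ≤ ∑ r : Fin R, κ₂ ^ 2 * (X * (MM + C6 * (κ₁ ^ m)⁻¹)) := by
          apply Finset.sum_le_sum
          intro r _
          apply mul_le_mul_of_nonneg_left _ (by positivity)
          refine (frozen_avg v a hp h1 ha B hv R m X θ hθ0.le c₀ r (C6 * (κ₁ ^ m)⁻¹)
            (by positivity) (hτ m)).trans ?_
          have h2 : (X:ℝ) ^ 2 * (((2 * B + 1 : ℕ) : ℝ) ^ R * θ ^ (R - 1)) = X * MM * (X * θ ^ (R - 1)) := by
            rw [hMM]; ring
          rw [h2]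
          have h3 : X * MM * (X * θ ^ (R - 1)) ≤ X * MM * 1 :=
            mul_le_mul_of_nonneg_left hXθ (mul_nonneg hX0 hMM0)
          linarith
      _ = R * (κ₂ ^ 2 * (X * (MM + C6 * (κ₁ ^ m)⁻¹))) := by
          rw [Finset.sum_const, Finset.card_univ, Fintype.card_fin, nsmul_eq_mul]
      _ ≤ C5 * κ₁ ^ m * X := by
          have hk0 : 0 < κ₁ ^ m := by positivity
          have hk1 : κ₁ ^ m ≤ 1 := pow_le_one₀ hκ₁0.le hκ₁1.le
          have h2 : κ₂ ^ 2 * (MM + C6 * (κ₁ ^ m)⁻¹) ≤ (1 + C) ^ 2 * (κ₁ ^ m * (MM + C6)) := by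
            have h3 : κ₂ ^ 2 * (MM + C6 * (κ₁ ^ m)⁻¹) = (1 + C) ^ 2 * (κ₁ ^ m * (κ₁ ^ m * MM + C6)) := by
              rw [hκ₂]; field_simp
            rw [h3]
            apply mul_le_mul_of_nonneg_left _ (by positivity)
            apply mul_le_mul_of_nonneg_left _ hk0.le
            nlinarith
          calc R * (κ₂ ^ 2 * (X * (MM + C6 * (κ₁ ^ m)⁻¹))) = R * X * (κ₂ ^ 2 * (MM + C6 * (κ₁ ^ m)⁻¹)) := by ring
            _ ≤ R * X * ((1 + C) ^ 2 * (κ₁ ^ m * (MM + C6))) :=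
                mul_le_mul_of_nonneg_left h2 (by positivity)
            _ = _ := by rw [hC5]; ring
  have hGcard : (G.card : ℝ) ≤ ε / 2 * X := by
    have h2 := (hm2 m hmm2).le
    have h3 : κ₁ ^ m = (lam ^ m) ^ 2 * (lam ^ 2) ^ m := by
      rw [← hlm4, ← pow_mul, ← pow_mul, ← pow_mul, ← pow_add]
      congr 1
      ring
    rw [h3] at hGsum
    have h4 : 0 < (lam ^ m) ^ 2 := by positivity
    have h5 : (G.card : ℝ) ≤ 4 * C5 * (lam ^ 2) ^ m * X := by
      have h6 : (lam ^ m) ^ 2 * (G.card : ℝ) ≤ (lam ^ m) ^ 2 * (4 * C5 * (lam ^ 2) ^ m * X) := by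
        nlinarith
      exact le_of_mul_le_mul_left h6 h4
    exact h5.trans (mul_le_mul_of_nonneg_right h2 hX0)
  have hfin := (Finset.card_le_card hcover).trans (Finset.card_union_le _ _)
  have hfin' : (((Icc 1 X).filter (fun q : ℕ => (q.Coprime a ∧ q.Coprime g.natAbs) ∧
        lam ^ m < tvv p v a (R * m) q)).card : ℝ) ≤ (badQ a h (R * m) X).card + G.card := by
    exact_mod_cast hfin
  linarith

end Pool.Agent.KS6_59.AX
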