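import Pool.Agent.KS6_59.AX.Blk

/-! Monotonicity of the distance, and the lower bound from the entropy. -/

set_option autoImplicit false
set_option linter.unusedSectionVars false
set_option maxHeartbeats 1000000

open Finset Filter Topology

namespace Pool.Agent.KS6_59.AX

open H942R3.AX

variable {D : Type*} [Fintype D] [DecidableEq D]

/-- the `L^1` distance to the uniform law -/
noncomputable def tvv (p : D → ℝ) (v : D → ℤ) (a n q : ℕ) : ℝ :=
  ∑ r ∈ range q, |lw (wn p n) (vl v a) q r - 1 / q|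

variable {p : D → ℝ} {v : D → ℤ} {a : ℕ}

theorem lw_congr {Ω : Type*} [Fintype Ω] (w : Ω → ℝ) (f : Ω → ℤ) (q : ℕ) (r s : ℤ)
    (h : (q:ℤ) ∣ r - s) : lw w f q r = lw w f q s := by
  unfold lw
  refine Finset.sum_congr rfl fun ω _ => ?_
  have : (q:ℤ) ∣ f ω - r ↔ (q:ℤ) ∣ f ω - s := by
    constructor
    · intro h2
      have := dvd_add h2 h
      rwa [sub_add_sub_cancel] at this
    · intro h2
      have := dvd_sub h2 h
      rwa [show f ω - s - (r - s) = f ω - r by ring] at this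
  simp only [this]

/-- the residue of the solution of `a x + c = r` runs over all residues -/
theorem sum_perm_int (a q : ℕ) (c : ℤ) (hq : 0 < q) (hqa : q.Coprime a) (F : ℤ → ℝ)
    (hF : ∀ r s : ℤ, (q:ℤ) ∣ r - s → F r = F s) :
    ∑ x ∈ range q, F (a * x + c) = ∑ s ∈ range q, F s := by
  have hq' : (0:ℤ) < q := by exact_mod_cast hq
  have hmaps : ∀ x ∈ range q, (((a:ℤ) * x + c) % q).toNat ∈ range q := by
    intro x _
    rw [Finset.mem_range]
    have h1 := Int.emod_lt_of_pos ((a:ℤ) * x + c) hq'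
    have h2 := Int.emod_nonneg ((a:ℤ) * x + c) hq'.ne'
    omega
  have hinj : Set.InjOn (fun x : ℕ => (((a:ℤ) * x + c) % q).toNat) (range q : Set ℕ) := by
    intro x hx y hy hxy
    rw [Finset.mem_coe, Finset.mem_range] at hx hy
    simp only at hxy
    have h1 := Int.emod_nonneg ((a:ℤ) * x + c) hq'.ne'
    have h2 := Int.emod_nonneg ((a:ℤ) * y + c) hq'.ne'
    have h3 : ((a:ℤ) * x + c) % q = ((a:ℤ) * y + c) % q := by omega
    have h4 : (q:ℤ) ∣ (a:ℤ) * (x - y) := by
      have := Int.emod_emod_of_dvd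
      have h5 := Int.sub_emod ((a:ℤ) * x + c) ((a:ℤ) * y + c) q
      rw [h3, sub_self, Int.zero_emod] at h5
      have := Int.dvd_of_emod_eq_zero h5
      rwa [show (a:ℤ) * x + c - (a * y + c) = a * (x - y) by ring] at this
    have h5 : IsCoprime (q:ℤ) (a:ℤ) := Nat.isCoprime_iff_coprime.2 hqa
    have h6 : (q:ℤ) ∣ (x:ℤ) - y := h5.dvd_of_dvd_mul_left h4
    have h7 : ((x:ℤ) - y).natAbs < q := by omega
    have h8 := Int.eq_zero_of_dvd_of_natAbs_lt_natAbs h6 (by rw [Int.natAbs_natCast]; exact h7)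
    omega
  have hsurj := Finset.surjOn_of_injOn_of_card_le (fun x : ℕ => (((a:ℤ) * x + c) % q).toNat)
    (s := range q) (t := range q) hmaps hinj le_rfl
  apply Finset.sum_nbij (fun x : ℕ => (((a:ℤ) * x + c) % q).toNat) hmaps hinj hsurj
  intro x _
  apply hF
  have h2 := Int.emod_nonneg ((a:ℤ) * x + c) hq'.ne'
  rw [Int.toNat_of_nonneg h2]
  exact Int.dvd_self_sub_emod

theorem lw_succ (n q : ℕ) (s : ℤ) :
    lw (wn p (n + 1)) (vl v a) q s = ∑ d, p d * ∑ b : Fin n → D,
      (if (q:ℤ) ∣ v d + a * vl v a b - s then wn p n b else 0) := by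
  unfold lw
  rw [← Equiv.sum_comp (Fin.consEquiv (fun _ => D)), Fintype.sum_prod_type]
  refine Finset.sum_congr rfl fun d _ => ?_
  rw [Finset.mul_sum]
  refine Finset.sum_congr rfl fun b _ => ?_
  have h1 : (Fin.consEquiv (fun _ => D)) (d, b) = (Fin.cons d b : Fin (n + 1) → D) := rfl
  have h2 : wn p (n + 1) (Fin.cons d b : Fin (n + 1) → D) = p d * wn p n b := PW_cons (fun _ => p) d b
  rw [h1, vl_cons, h2]
  split_ifs <;> simp

/-- the distance is non-increasing -/
theorem tvv_succ (hp : ∀ d, 0 < p d) (h1 : ∑ d, p d = 1) (n q : ℕ) (hq : 0 < q) (hqa : q.Coprime a) :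
    tvv p v a (n + 1) q ≤ tvv p v a n q := by
  have hq' : (0:ℝ) < q := by exact_mod_cast hq
  unfold tvv
  -- the inner laws
  set L : D → ℤ → ℝ := fun d s => ∑ b : Fin n → D,
      (if (q:ℤ) ∣ v d + a * vl v a b - s then wn p n b else 0) with hL
  have hLc : ∀ d (r s : ℤ), (q:ℤ) ∣ r - s → L d r = L d s := by
    intro d r s h
    rw [hL]
    exact lw_congr (wn p n) (fun b => v d + a * vl v a b) q r s h
  have hLa : ∀ d (x : ℤ), L d (a * x + v d) = lw (wn p n) (vl v a) q x := by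
    intro d x
    rw [hL, lw]
    refine Finset.sum_congr rfl fun b _ => ?_
    have h5 : IsCoprime (q:ℤ) (a:ℤ) := Nat.isCoprime_iff_coprime.2 hqa
    have : (q:ℤ) ∣ v d + a * vl v a b - (a * x + v d) ↔ (q:ℤ) ∣ vl v a b - x := by
      rw [show v d + a * vl v a b - (a * x + v d) = a * (vl v a b - x) by ring]
      exact ⟨fun h => h5.dvd_of_dvd_mul_left h, fun h => Dvd.dvd.mul_left h _⟩
    simp only [this]
  have hLs : ∀ d, ∑ r ∈ range q, |L d r - 1 / q| = ∑ x ∈ range q, |lw (wn p n) (vl v a) q x - 1 / q| := by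
    intro d
    have := sum_perm_int a q (v d) hq hqa (fun s => |L d s - 1 / q|) (fun r s h => by
      simp only [hLc d r s h])
    rw [← this]
    refine Finset.sum_congr rfl fun x _ => ?_
    rw [hLa]
  calc ∑ r ∈ range q, |lw (wn p (n + 1)) (vl v a) q r - 1 / q|
      ≤ ∑ r ∈ range q, ∑ d, p d * |L d r - 1 / q| := by
        apply Finset.sum_le_sum
        intro r _
        have e : lw (wn p (n + 1)) (vl v a) q r - 1 / q = ∑ d, p d * (L d r - 1 / q) := by
          simp only [mul_sub, Finset.sum_sub_distrib]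
          rw [← Finset.sum_mul, h1, one_mul, lw_succ]
        rw [e]
        refine (Finset.abs_sum_le_sum_abs _ _).trans (Finset.sum_le_sum fun d _ => ?_)
        rw [abs_mul, abs_of_pos (hp d)]
    _ = ∑ d, p d * ∑ r ∈ range q, |L d r - 1 / q| := by
        rw [Finset.sum_comm]
        refine Finset.sum_congr rfl fun d _ => ?_
        rw [Finset.mul_sum]
    _ = ∑ x ∈ range q, |lw (wn p n) (vl v a) q x - 1 / q| := by
        simp only [hLs]
        rw [← Finset.sum_mul, h1, one_mul]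

theorem tvv_mono (hp : ∀ d, 0 < p d) (h1 : ∑ d, p d = 1) (q : ℕ) (hq : 0 < q) (hqa : q.Coprime a) :
    Antitone (fun n => tvv p v a n q) :=
  antitone_nat_of_succ_le fun n => tvv_succ hp h1 n q hq hqa

/-- the distance from below: a small set of values with a large mass -/
theorem tvv_ge (hp : ∀ d, 0 < p d) (h1 : ∑ d, p d = 1) (n q : ℕ) (hq : 0 < q) (S : Finset ℤ) :
    2 * ((∑ b : Fin n → D, if vl v a b ∈ S then wn p n b else 0) - S.card / q) ≤ tvv p v a n q := by
  classical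
  have hq' : (0:ℝ) < q := by exact_mod_cast hq
  have hqz : (0:ℤ) < q := by exact_mod_cast hq
  set T : Finset ℕ := S.image (fun s => (s % (q:ℤ)).toNat) with hT
  have hTr : T ⊆ range q := by
    intro r hr
    obtain ⟨s, _, rfl⟩ := Finset.mem_image.1 hr
    rw [Finset.mem_range]
    have h1 := Int.emod_lt_of_pos s hqz
    have h2 := Int.emod_nonneg s hqz.ne'
    omega
  have hTc : (T.card : ℝ) ≤ S.card := by exact_mod_cast Finset.card_image_le
  have hmass : (∑ b : Fin n → D, if vl v a b ∈ S then wn p n b else 0) ≤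
      ∑ r ∈ T, lw (wn p n) (vl v a) q r := by
    unfold lw
    rw [Finset.sum_comm]
    apply Finset.sum_le_sum
    intro b _
    split_ifs with hb
    · have hmem : ((vl v a b) % (q:ℤ)).toNat ∈ T := Finset.mem_image_of_mem _ hb
      have h3 := Finset.single_le_sum (f := fun r : ℕ => if (q:ℤ) ∣ vl v a b - r then wn p n b else 0) (s := T)
        (fun r _ => by split_ifs <;> [exact (wn_pos p hp n b).le; exact le_rfl]) hmem
      refine le_trans (le_of_eq ?_) h3
      rw [if_pos]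
      rw [Int.toNat_of_nonneg (Int.emod_nonneg _ hqz.ne')]
      exact Int.dvd_self_sub_emod
    · exact Finset.sum_nonneg fun r _ => by split_ifs <;> [exact (wn_pos p hp n b).le; exact le_rfl]
  have hsum0 : ∑ r ∈ range q, (lw (wn p n) (vl v a) q r - 1 / q) = 0 := by
    rw [Finset.sum_sub_distrib, sum_lw _ _ q hq, wn_sum p h1, Finset.sum_const, Finset.card_range,
      nsmul_eq_mul, mul_one_div_cancel hq'.ne', sub_self]
  have h2 : 2 * ∑ r ∈ T, (lw (wn p n) (vl v a) q r - 1 / q) ≤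
      ∑ r ∈ range q, |lw (wn p n) (vl v a) q r - 1 / q| := by
    have h3 := Finset.sum_sdiff hTr (f := fun r : ℕ => lw (wn p n) (vl v a) q r - 1 / q)
    rw [hsum0] at h3
    have h4 := Finset.sum_sdiff hTr (f := fun r : ℕ => |lw (wn p n) (vl v a) q r - 1 / q|)
    have h5 : ∑ r ∈ T, (lw (wn p n) (vl v a) q r - 1 / q) ≤ ∑ r ∈ T, |lw (wn p n) (vl v a) q r - 1 / q| :=
      Finset.sum_le_sum fun r _ => le_abs_self _
    have h6 : -∑ r ∈ range q \ T, (lw (wn p n) (vl v a) q r - 1 / q) ≤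
        ∑ r ∈ range q \ T, |lw (wn p n) (vl v a) q r - 1 / q| := by
      rw [← Finset.sum_neg_distrib]
      exact Finset.sum_le_sum fun r _ => neg_le_abs _
    linarith
  have h3 : ∑ r ∈ T, (lw (wn p n) (vl v a) q r - 1 / q) =
      ∑ r ∈ T, lw (wn p n) (vl v a) q r - T.card / q := by
    rw [Finset.sum_sub_distrib, Finset.sum_const, nsmul_eq_mul, mul_one_div]
  have h4 : (T.card : ℝ) / q ≤ S.card / q := div_le_div_of_nonneg_right hTc hq'.le
  unfold tvv
  linarith

/-- the lower bound at one time -/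
theorem tvv_ent (hp : ∀ d, 0 < p d) (h1 : ∑ d, p d = 1) (n q : ℕ) (hq : 0 < q) (θ : ℝ) (hθ : 0 < θ) :
    2 * (1 - (∑ b : Fin n → D, if ms (wn p n) (vl v a) (vl v a b) < θ then wn p n b else 0) - θ⁻¹ / q) ≤
      tvv p v a n q := by
  classical
  have hq' : (0:ℝ) < q := by exact_mod_cast hq
  set S : Finset ℤ := (univ.image (fun b : Fin n → D => vl v a b)).filter
    (fun s => θ ≤ ms (wn p n) (vl v a) s) with hS
  have hnn := fun b => (wn_pos p hp n b).le
  have hSc : (S.card : ℝ) ≤ θ⁻¹ := by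
    have h2 : (S.card : ℝ) * θ ≤ 1 := by
      rw [← nsmul_eq_mul, ← Finset.sum_const]
      calc ∑ s ∈ S, θ ≤ ∑ s ∈ S, ms (wn p n) (vl v a) s :=
            Finset.sum_le_sum fun s hs => (Finset.mem_filter.1 hs).2
        _ ≤ ∑ s ∈ univ.image (fun b : Fin n → D => vl v a b), ms (wn p n) (vl v a) s := by
            apply Finset.sum_le_sum_of_subset_of_nonneg
            · exact Finset.filter_subset _ _
            · intro s _ _; exact ms_nonneg _ _ hnn s
        _ = 1 := by
            have := sum_atoms (wn p n) (vl v a) hnn (fun _ => 1)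
            simp only [mul_one] at this
            rw [← wn_sum p h1 n, this]
    rw [← one_div, le_div_iff₀ hθ]
    exact h2
  have hmass : (∑ b : Fin n → D, if vl v a b ∈ S then wn p n b else 0) =
      1 - (∑ b : Fin n → D, if ms (wn p n) (vl v a) (vl v a b) < θ then wn p n b else 0) := by
    rw [eq_sub_iff_add_eq, ← wn_sum p h1 n, ← Finset.sum_add_distrib]
    refine Finset.sum_congr rfl fun b _ => ?_
    have hiff : vl v a b ∈ S ↔ ¬ (ms (wn p n) (vl v a) (vl v a b) < θ) := by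
      rw [hS, Finset.mem_filter, not_lt]
      exact ⟨fun h => h.2, fun h => ⟨Finset.mem_image_of_mem _ (Finset.mem_univ b), h⟩⟩
    by_cases h : ms (wn p n) (vl v a) (vl v a b) < θ
    · rw [if_neg (fun h' => (hiff.1 h') h), if_pos h, zero_add]
    · rw [if_pos (hiff.2 h), if_neg h, add_zero]
  have h2 := tvv_ge (v := v) (a := a) hp h1 n q hq S
  rw [hmass] at h2
  have h3 : (S.card : ℝ) / q ≤ θ⁻¹ / q := div_le_div_of_nonneg_right hSc hq'.le
  linarith

/-- the lower bound before the entropic time -/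
theorem lower [Nonempty D] (hp : ∀ d, 0 < p d) (h1 : ∑ d, p d = 1) (hh : 0 < hr p v a) (δ : ℝ) (hδ : 0 < δ) :
    ∃ c : ℝ, 0 < c ∧ ∃ Q0 : ℕ, ∀ q ≥ Q0, q.Coprime a → ∀ n : ℕ,
      (n:ℝ) ≤ (1 - δ) * (Real.log q / hr p v a) → 2 * (1 - (q:ℝ) ^ (-c)) ≤ tvv p v a n q := by
  set H := hr p v a with hH
  set δ' : ℝ := min δ (1 / 2) with hδ'
  have hδ'0 : 0 < δ' := lt_min hδ (by norm_num)
  have hδ'2 : δ' ≤ 1 / 2 := min_le_right _ _
  obtain ⟨c, C, hc, hC, ht⟩ := tail_lo p v a hp h1 (H * (δ' / 2)) (by positivity)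
  rw [← hH] at ht
  set c1 : ℝ := min (c * (1 / (2 * H))) (δ' / 2) with hc1
  have hc10 : 0 < c1 := lt_min (by positivity) (by positivity)
  -- constants
  set K : ℝ := C * Real.exp c + 1 with hK
  have hK0 : 0 < K := by positivity
  obtain ⟨Q0, hQ0⟩ := exists_nat_ge (max 2 (K ^ (2 / c1)))
  refine ⟨c1 / 2, by positivity, Q0, fun q hq hqa n hn => ?_⟩
  have hqr : max 2 (K ^ (2 / c1)) ≤ (q:ℝ) := hQ0.trans (by exact_mod_cast hq)
  have hq2 : (2:ℝ) ≤ q := (le_max_left _ _).trans hqr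
  have hqK : K ^ (2 / c1) ≤ (q:ℝ) := (le_max_right _ _).trans hqr
  have hqpos : (0:ℝ) < q := by linarith
  have hqn : 0 < q := by exact_mod_cast hqpos
  have hlq : 0 < Real.log q := Real.log_pos (by linarith)
  have hKq : K ≤ (q:ℝ) ^ (c1 / 2) := by
    have h2 := Real.rpow_le_rpow (by positivity) hqK (by positivity : (0:ℝ) ≤ c1 / 2)
    rw [← Real.rpow_mul hK0.le] at h2
    have : 2 / c1 * (c1 / 2) = 1 := by field_simp
    rwa [this, Real.rpow_one] at h2
  set n1 : ℕ := ⌊(1 - δ') * (Real.log q / H)⌋₊ with hn1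
  have hT0 : 0 ≤ (1 - δ') * (Real.log q / H) := mul_nonneg (by linarith) (by positivity)
  have hnn1 : n ≤ n1 := by
    apply Nat.le_floor
    refine hn.trans ?_
    apply mul_le_mul_of_nonneg_right _ (by positivity)
    have : δ' ≤ δ := min_le_left _ _
    linarith
  have hn1le : (n1:ℝ) ≤ (1 - δ') * (Real.log q / H) := Nat.floor_le hT0
  have hn1ge : (1 - δ') * (Real.log q / H) - 1 ≤ n1 := by
    have := Nat.lt_floor_add_one ((1 - δ') * (Real.log q / H))
    rw [← hn1] at this
    linarith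
  refine le_trans ?_ (tvv_mono (v := v) hp h1 q hqn hqa hnn1)
  refine le_trans ?_ (tvv_ent (v := v) (a := a) hp h1 n1 q hqn (Real.exp (-(H + H * (δ' / 2)) * n1)) (Real.exp_pos _))
  have h2 := ht n1
  have h3 : C * Real.exp (-c * n1) ≤ C * Real.exp c * (q:ℝ) ^ (-c1) := by
    rw [Real.rpow_def_of_pos hqpos, mul_assoc, ← Real.exp_add]
    apply mul_le_mul_of_nonneg_left _ hC.le
    apply Real.exp_le_exp.2
    have h4 : c1 ≤ c * (1 / (2 * H)) := min_le_left _ _
    have h5 : c * ((1 - δ') * (Real.log q / H)) ≥ c1 * Real.log q := by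
      have h6 : c * ((1 / 2) * (Real.log q / H)) ≤ c * ((1 - δ') * (Real.log q / H)) := by
        apply mul_le_mul_of_nonneg_left _ hc.le
        apply mul_le_mul_of_nonneg_right _ (by positivity)
        linarith
      have h7 : c * ((1 / 2) * (Real.log q / H)) = c * (1 / (2 * H)) * Real.log q := by
        field_simp
      rw [h7] at h6
      have h8 := mul_le_mul_of_nonneg_right h4 hlq.le
      linarith
    nlinarith
  have h4 : (Real.exp (-(H + H * (δ' / 2)) * n1))⁻¹ / q ≤ (q:ℝ) ^ (-c1) := by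
    rw [← Real.exp_neg, div_eq_mul_inv, ← Real.rpow_neg_one (q:ℝ), Real.rpow_def_of_pos hqpos,
      Real.rpow_def_of_pos hqpos, ← Real.exp_add]
    apply Real.exp_le_exp.2
    have h5 : (H + H * (δ' / 2)) * n1 ≤ (H + H * (δ' / 2)) * ((1 - δ') * (Real.log q / H)) := by
      apply mul_le_mul_of_nonneg_left hn1le
      positivity
    have h6 : (H + H * (δ' / 2)) * ((1 - δ') * (Real.log q / H)) = (1 + δ' / 2) * (1 - δ') * Real.log q := by
      field_simp
    have h7 : (1 + δ' / 2) * (1 - δ') ≤ 1 - δ' / 2 := by nlinarith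
    have h8 := mul_le_mul_of_nonneg_right h7 hlq.le
    have h9 : c1 ≤ δ' / 2 := min_le_right _ _
    have h10 := mul_le_mul_of_nonneg_right h9 hlq.le
    nlinarith
  have h5 : C * Real.exp c * (q:ℝ) ^ (-c1) + (q:ℝ) ^ (-c1) ≤ (q:ℝ) ^ (-(c1 / 2)) := by
    have h6 : C * Real.exp c * (q:ℝ) ^ (-c1) + (q:ℝ) ^ (-c1) = K * (q:ℝ) ^ (-c1) := by rw [hK]; ring
    rw [h6]
    calc K * (q:ℝ) ^ (-c1) ≤ (q:ℝ) ^ (c1 / 2) * (q:ℝ) ^ (-c1) :=
          mul_le_mul_of_nonneg_right hKq (by positivity)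
      _ = (q:ℝ) ^ (-(c1 / 2)) := by
          rw [← Real.rpow_add hqpos]; congr 1; ring
  linarith

end Pool.Agent.KS6_59.AX
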