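import Pool.Agent.KS6_59.AX.Ent

/-! Bounds and exact values of the entropy rate. -/

set_option autoImplicit false
set_option linter.unusedSectionVars false

open Finset Filter Topology

namespace Pool.Agent.KS6_59.AX

variable {D : Type*} [Fintype D] [DecidableEq D] (p : D → ℝ) (v : D → ℤ) (A : ℕ) (B : ℕ)

/-- the atoms decay when the digits are not constant -/
theorem class_lt (hp : ∀ d, 0 < p d) (h1 : ∑ d, p d = 1) (hA : 2 ≤ A) (d₀ d₁ : D) (hd : v d₀ ≠ v d₁) :
    ∃ k : ℕ, 1 ≤ k ∧ ∃ ρ : ℝ, 0 < ρ ∧ ρ < 1 ∧ ∀ t : ℤ,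
      (∑ b : Fin k → D, if ((A:ℤ) ^ k) ∣ t - vl v A b then wn p k b else 0) ≤ ρ := by
  obtain ⟨k, hk⟩ : ∃ k : ℕ, (v d₀ - v d₁).natAbs < k := ⟨_, Nat.lt_succ_self _⟩
  have hk1 : 1 ≤ k := by omega
  set b₀ : Fin k → D := fun _ => d₀ with hb₀
  set b₁ : Fin k → D := Function.update b₀ ⟨0, by omega⟩ d₁ with hb₁
  have hw0 := wn_pos p hp k b₀
  have hw1 := wn_pos p hp k b₁
  have hne : b₀ ≠ b₁ := by
    intro h
    have h2 := congrFun h ⟨0, by omega⟩
    rw [hb₁, Function.update_self, hb₀] at h2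
    exact hd (congrArg v h2)
  have hval : vl v A b₀ - vl v A b₁ = v d₀ - v d₁ := by
    unfold vl
    rw [← Finset.sum_sub_distrib]
    rw [Finset.sum_eq_single (⟨0, by omega⟩ : Fin k)]
    · rw [hb₁, Function.update_self, hb₀]; simp
    · intro i _ hi
      rw [hb₁, Function.update_of_ne hi]; ring
    · intro h; exact absurd (Finset.mem_univ _) h
  have hAk : (v d₀ - v d₁).natAbs < A ^ k :=
    lt_trans hk (Nat.lt_pow_self (by omega))
  have hnot : ¬ ((A:ℤ) ^ k) ∣ vl v A b₀ - vl v A b₁ := by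
    rw [hval]
    intro h
    have h2 : A ^ k ∣ (v d₀ - v d₁).natAbs := by
      have := Int.natAbs_dvd_natAbs.2 h
      rwa [Int.natAbs_pow, Int.natAbs_natCast] at this
    have h3 : (v d₀ - v d₁).natAbs = 0 := Nat.eq_zero_of_dvd_of_lt h2 hAk
    rw [Int.natAbs_eq_zero, sub_eq_zero] at h3
    exact hd h3
  set c : ℝ := min (wn p k b₀) (wn p k b₁) with hc
  have hc0 : 0 < c := lt_min hw0 hw1
  have hsum := wn_sum p h1 k
  have hc1 : c ≤ 1 := by
    refine (min_le_left _ _).trans ?_
    rw [← hsum]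
    exact Finset.single_le_sum (f := wn p k) (fun b _ => (wn_pos p hp k b).le) (Finset.mem_univ b₀)
  refine ⟨k, hk1, 1 - c / 2, by linarith, by linarith, fun t => ?_⟩
  -- one of the two strings is not in the class
  have hex : ∃ b, ¬ ((A:ℤ) ^ k ∣ t - vl v A b) ∧ c ≤ wn p k b := by
    by_cases h : (A:ℤ) ^ k ∣ t - vl v A b₀
    · refine ⟨b₁, fun h' => hnot ?_, min_le_right _ _⟩
      have := dvd_sub h' h
      rwa [sub_sub_sub_cancel_left] at this
    · exact ⟨b₀, h, min_le_left _ _⟩
  obtain ⟨b, hb, hcb⟩ := hex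
  have h2 : (∑ b : Fin k → D, if ((A:ℤ) ^ k) ∣ t - vl v A b then wn p k b else 0) ≤
      ∑ b' ∈ univ.erase b, wn p k b' := by
    rw [← Finset.add_sum_erase univ _ (Finset.mem_univ b), if_neg hb, zero_add]
    apply Finset.sum_le_sum
    intro b' _
    split_ifs <;> [exact le_rfl; exact (wn_pos p hp k b').le]
  have h3 := Finset.add_sum_erase univ (wn p k) (Finset.mem_univ b)
  rw [hsum] at h3
  linarith

theorem ms_add_le (k n : ℕ) (hp : ∀ d, 0 < p d) (hA : 1 ≤ A) (S : ℝ)
    (hS : ∀ s, ms (wn p n) (vl v A) s ≤ S) (ρ : ℝ)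
    (hρ : ∀ t : ℤ, (∑ b : Fin k → D, if ((A:ℤ) ^ k) ∣ t - vl v A b then wn p k b else 0) ≤ ρ) (s : ℤ) :
    ms (wn p (k + n)) (vl v A) s ≤ ρ * S := by
  have hS0 : 0 ≤ S := (ms_nonneg _ _ (fun b => (wn_pos p hp n b).le) 0).trans (hS 0)
  have hA0 : ((A:ℤ) ^ k) ≠ 0 := by
    have : (A:ℤ) ≠ 0 := by exact_mod_cast (by omega : A ≠ 0)
    positivity
  rw [← ms_equiv _ _ (Fin.appendEquiv k n)]
  simp only [wn_append, vl_append]
  have e1 : ms (fun x => wp (wn p k) (wn p n) x) (fun x => fp (vl v A) (vl v A) ((A:ℤ) ^ k) x) s =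
      ∑ x, ∑ y, if vl v A x + (A:ℤ) ^ k * vl v A y = s then wn p k x * wn p n y else 0 :=
    ms_pair_expand _ _ _ _ _ _
  rw [e1]
  calc ∑ x, ∑ y, (if vl v A x + (A:ℤ) ^ k * vl v A y = s then wn p k x * wn p n y else 0)
      ≤ ∑ x : Fin k → D, (if ((A:ℤ) ^ k) ∣ s - vl v A x then wn p k x else 0) * S := by
        apply Finset.sum_le_sum
        intro x _
        split_ifs with h
        · obtain ⟨c, hc⟩ := h
          have h3 : ∑ y, (if vl v A x + (A:ℤ) ^ k * vl v A y = s then wn p k x * wn p n y else 0) =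
              wn p k x * ms (wn p n) (vl v A) c := by
            rw [ms, Finset.mul_sum]
            refine Finset.sum_congr rfl fun y _ => ?_
            have : vl v A x + (A:ℤ) ^ k * vl v A y = s ↔ vl v A y = c := by
              constructor
              · intro h4
                have : (A:ℤ) ^ k * vl v A y = (A:ℤ) ^ k * c := by linarith
                exact mul_left_cancel₀ hA0 this
              · intro h4; rw [h4]; linarith
            simp only [this]
            split_ifs <;> simp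
          rw [h3]
          exact mul_le_mul_of_nonneg_left (hS c) (wn_pos p hp k x).le
        · rw [zero_mul]
          apply le_of_eq
          apply Finset.sum_eq_zero
          intro y _
          rw [if_neg]
          intro h4
          exact h ⟨vl v A y, by linarith⟩
    _ = (∑ x : Fin k → D, (if ((A:ℤ) ^ k) ∣ s - vl v A x then wn p k x else 0)) * S := by
        rw [Finset.sum_mul]
    _ ≤ ρ * S := mul_le_mul_of_nonneg_right (hρ s) hS0

theorem hr_pos (hp : ∀ d, 0 < p d) (h1 : ∑ d, p d = 1) (hA : 2 ≤ A) (d₀ d₁ : D) (hd : v d₀ ≠ v d₁) :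
    0 < hr p v A := by
  obtain ⟨k, hk, ρ, hρ0, hρ1, hρ⟩ := class_lt p v A hp h1 hA d₀ d₁ hd
  have key : ∀ j n : ℕ, n = k * j → ∀ s, ms (wn p n) (vl v A) s ≤ ρ ^ j := by
    intro j
    induction j with
    | zero =>
      intro n hn s
      refine (ms_le_sum _ _ (fun b => (wn_pos p hp n b).le) s).trans ?_
      rw [wn_sum p h1, pow_zero]
    | succ j ih =>
      intro n hn s
      have hn' : n = k + k * j := by rw [hn]; ring
      subst hn'
      rw [pow_succ, mul_comm (ρ ^ j) ρ]
      exact ms_add_le p v A k (k * j) hp (by omega) (ρ ^ j) (ih (k * j) rfl) ρ hρ s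
  have hkr : (0:ℝ) < k := by exact_mod_cast hk
  have hl : 0 < -Real.log ρ := by
    have := Real.log_neg hρ0 hρ1
    linarith
  have hlow : ∀ j : ℕ, 1 ≤ j → -Real.log ρ / k ≤ Hn p v A (k * j) / ((k * j : ℕ) : ℝ) := by
    intro j hj
    have hjr : (0:ℝ) < j := by exact_mod_cast hj
    rw [div_le_div_iff₀ hkr (by push_cast; positivity)]
    have h2 : (j:ℝ) * (-Real.log ρ) ≤ Hn p v A (k * j) := by
      rw [Hn, Hv]
      calc (j:ℝ) * (-Real.log ρ) = ∑ b, wn p (k * j) b * ((j:ℝ) * (-Real.log ρ)) := by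
            rw [← Finset.sum_mul, wn_sum p h1, one_mul]
        _ ≤ _ := by
            apply Finset.sum_le_sum
            intro b _
            apply mul_le_mul_of_nonneg_left _ (wn_pos p hp _ b).le
            have h3 := Real.log_le_log (ms_pos _ _ (wn_pos p hp _) b) (key j (k * j) rfl (vl v A b))
            rw [Real.log_pow] at h3
            linarith
    push_cast
    nlinarith
  have htend : Tendsto (fun j : ℕ => Hn p v A (k * j) / ((k * j : ℕ) : ℝ)) atTop (𝓝 (hr p v A)) :=
    (hr_tendsto p v A hp h1).comp (tendsto_id.const_mul_atTop' (by omega))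
  have h3 : -Real.log ρ / k ≤ hr p v A := by
    apply ge_of_tendsto htend
    filter_upwards [eventually_ge_atTop 1] with j hj
    exact hlow j hj
  exact lt_of_lt_of_le (div_pos hl hkr) h3

/-- the number of values -/
theorem card_values (hA : 2 ≤ A) (hv : ∀ d, |v d| ≤ B) (n : ℕ) :
    ((univ.image (fun b : Fin n → D => vl v A b)).card : ℝ) ≤ (2 * B + 1) * (A:ℝ) ^ n := by
  have hsub : univ.image (fun b : Fin n → D => vl v A b) ⊆ Icc (-((B:ℤ) * (A ^ n : ℕ))) ((B:ℤ) * (A ^ n : ℕ)) := by
    intro s hs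
    obtain ⟨b, _, rfl⟩ := Finset.mem_image.1 hs
    rw [Finset.mem_Icc]
    exact abs_le.1 (vl_abs v A B hA hv b)
  have h2 := Finset.card_le_card hsub
  rw [Int.card_Icc] at h2
  have h3 : ((B:ℤ) * (A ^ n : ℕ) + 1 - -((B:ℤ) * (A ^ n : ℕ))).toNat = 2 * (B * A ^ n) + 1 := by
    have : (B:ℤ) * (A ^ n : ℕ) = ((B * A ^ n : ℕ) : ℤ) := by push_cast; ring
    rw [this]; omega
  rw [h3] at h2
  have hAn : 1 ≤ A ^ n := Nat.one_le_pow _ _ (by omega)
  have h4 : (univ.image (fun b : Fin n → D => vl v A b)).card ≤ (2 * B + 1) * A ^ n := by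
    refine h2.trans ?_
    nlinarith
  exact_mod_cast h4

/-- the entropy rate is at most `log A` -/
theorem hr_le_log [Nonempty D] (hp : ∀ d, 0 < p d) (h1 : ∑ d, p d = 1) (hA : 2 ≤ A) (hv : ∀ d, |v d| ≤ B) :
    hr p v A ≤ Real.log A := by
  have hA0 : (0:ℝ) < A := by exact_mod_cast (by omega : 0 < A)
  apply le_of_forall_pos_le_add
  intro ε hε
  obtain ⟨c, C, hc, hC, ht⟩ := tail_up p v A B hp h1 hA hv ε hε
  have hl1 : Tendsto (fun n : ℕ => C * Real.exp (-c * n)) atTop (𝓝 (C * 0)) := by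
    apply Tendsto.const_mul
    apply Real.tendsto_exp_atBot.comp
    exact (tendsto_natCast_atTop_atTop (R := ℝ)).const_mul_atTop_of_neg (by linarith)
  rw [mul_zero] at hl1
  obtain ⟨n0, hn0⟩ := Filter.eventually_atTop.1 (hl1.eventually (gt_mem_nhds (show (0:ℝ) < 1 / 2 by norm_num)))
  have key : ∀ n ≥ n0, (hr p v A - ε) * n ≤ n * Real.log A + Real.log (2 * (2 * B + 1)) := by
    intro n hn
    have h2 := (ht n).trans (hn0 n hn).le
    set E : ℝ := Real.exp (-(hr p v A - ε) * n) with hE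
    have h3 : 1 / 2 ≤ ∑ b : Fin n → D, (if ms (wn p n) (vl v A) (vl v A b) ≤ E then wn p n b else 0) := by
      have h4 : (∑ b : Fin n → D, (if ms (wn p n) (vl v A) (vl v A b) ≤ E then wn p n b else 0)) +
          (∑ b : Fin n → D, if E < ms (wn p n) (vl v A) (vl v A b) then wn p n b else 0) = 1 := by
        rw [← Finset.sum_add_distrib, ← wn_sum p h1 n]
        refine Finset.sum_congr rfl fun b _ => ?_
        by_cases h : ms (wn p n) (vl v A) (vl v A b) ≤ E
        · rw [if_pos h, if_neg (not_lt.2 h), add_zero]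
        · rw [if_neg h, if_pos (not_le.1 h), zero_add]
      linarith
    have h4 : ∑ b : Fin n → D, (if ms (wn p n) (vl v A) (vl v A b) ≤ E then wn p n b else 0) ≤
        ((univ.image (fun b : Fin n → D => vl v A b)).card : ℝ) * E := by
      have h5 := sum_atoms (wn p n) (vl v A) (fun b => (wn_pos p hp n b).le)
        (fun s => if ms (wn p n) (vl v A) s ≤ E then 1 else 0)
      have h6 : ∑ b : Fin n → D, (if ms (wn p n) (vl v A) (vl v A b) ≤ E then wn p n b else 0) =
          ∑ b, wn p n b * (if ms (wn p n) (vl v A) (vl v A b) ≤ E then 1 else 0) := by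
        refine Finset.sum_congr rfl fun b _ => ?_
        split_ifs <;> simp
      rw [h6, h5, ← nsmul_eq_mul, ← Finset.sum_const]
      apply Finset.sum_le_sum
      intro s _
      split_ifs with h
      · rw [mul_one]; exact h
      · rw [mul_zero]; exact (Real.exp_pos _).le
    have h5 := card_values v A B hA hv n
    have h6 : 1 / 2 ≤ ((2 * B + 1) * (A:ℝ) ^ n) * E :=
      (h3.trans h4).trans (mul_le_mul_of_nonneg_right h5 (Real.exp_pos _).le)
    have h7 : Real.exp ((hr p v A - ε) * n) ≤ 2 * (2 * B + 1) * (A:ℝ) ^ n := by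
      have h8 : Real.exp ((hr p v A - ε) * n) * E = 1 := by
        rw [hE, ← Real.exp_add]
        convert Real.exp_zero using 2
        ring
      have h9 := mul_le_mul_of_nonneg_left h6 (Real.exp_pos ((hr p v A - ε) * n)).le
      have h10 : Real.exp ((hr p v A - ε) * n) * ((2 * B + 1) * (A:ℝ) ^ n * E) =
          (2 * B + 1) * (A:ℝ) ^ n := by
        rw [mul_comm ((2 * (B:ℝ) + 1) * (A:ℝ) ^ n) E, ← mul_assoc, h8, one_mul]
      rw [h10] at h9
      linarith
    have hB : (0:ℝ) ≤ B := Nat.cast_nonneg B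
    have h8 := Real.log_le_log (Real.exp_pos _) h7
    rw [Real.log_exp, Real.log_mul (by positivity) (by positivity), Real.log_pow] at h8
    linarith
  -- let `n` tend to infinity
  by_contra hcon
  push Not at hcon
  set g : ℝ := hr p v A - ε - Real.log A with hg
  have hg0 : 0 < g := by rw [hg]; linarith
  obtain ⟨n, hn⟩ := exists_nat_gt (Real.log (2 * (2 * B + 1)) / g)
  have h2 := key (max n n0) (le_max_right _ _)
  have h3 : (n:ℝ) ≤ ((max n n0 : ℕ) : ℝ) := by exact_mod_cast le_max_left _ _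
  rw [div_lt_iff₀ hg0] at hn
  have h4 : g * ((max n n0 : ℕ) : ℝ) ≤ Real.log (2 * (2 * B + 1)) := by
    rw [hg]; nlinarith
  nlinarith

/-- no overlaps: the strings are determined by their values -/
theorem vl_inj (hA : 1 ≤ A) (hinj : ∀ d d', (A:ℤ) ∣ v d - v d' → d = d') :
    ∀ n : ℕ, Function.Injective (fun b : Fin n → D => vl v A b) := by
  have hA0 : (A:ℤ) ≠ 0 := by exact_mod_cast (by omega : A ≠ 0)
  intro n
  induction n with
  | zero => intro b b' _; exact Subsingleton.elim _ _
  | succ n ih =>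
    intro b b' h
    simp only at h
    rw [← Fin.cons_self_tail b, ← Fin.cons_self_tail b', vl_cons, vl_cons] at h
    have h0 : b 0 = b' 0 := hinj _ _ ⟨vl v A (Fin.tail b') - vl v A (Fin.tail b), by linear_combination h⟩
    rw [h0] at h
    have h2 : (A:ℤ) * vl v A (Fin.tail b) = A * vl v A (Fin.tail b') := by linarith
    have h3 := ih (mul_left_cancel₀ hA0 h2)
    rw [← Fin.cons_self_tail b, ← Fin.cons_self_tail b', h0, h3]

theorem ms_inj (n : ℕ) (hinj : Function.Injective (fun b : Fin n → D => vl v A b)) (b : Fin n → D) :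
    ms (wn p n) (vl v A) (vl v A b) = wn p n b := by
  rw [ms, Finset.sum_eq_single b]
  · simp
  · intro b' _ hb'
    rw [if_neg]
    intro h
    exact hb' (hinj h)
  · intro h; exact absurd (Finset.mem_univ _) h

/-- the entropy rate without overlaps -/
theorem hr_eq (hp : ∀ d, 0 < p d) (h1 : ∑ d, p d = 1) (hA : 1 ≤ A)
    (hinj : ∀ d d', (A:ℤ) ∣ v d - v d' → d = d') :
    hr p v A = ∑ d, p d * (-Real.log (p d)) := by
  have key : ∀ n : ℕ, Hn p v A n = n * ∑ d, p d * (-Real.log (p d)) := by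
    intro n
    have h2 : ∀ n : ℕ, Hn p v A n = ∑ b : Fin n → D, wn p n b * (-Real.log (wn p n b)) := by
      intro n
      rw [Hn, Hv]
      refine Finset.sum_congr rfl fun b _ => ?_
      rw [ms_inj p v A n (vl_inj v A hA hinj n) b]
    rw [h2]
    induction n with
    | zero => simp [wn, PW]
    | succ n ih =>
      rw [← Equiv.sum_comp (Fin.consEquiv (fun _ => D)), Fintype.sum_prod_type]
      have h3 : ∀ (d : D) (b : Fin n → D), wn p (n + 1) ((Fin.consEquiv (fun _ => D)) (d, b)) = p d * wn p n b := by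
        intro d b
        exact PW_cons (fun _ => p) d b
      simp only [h3]
      have h4 : ∀ (d : D) (b : Fin n → D), p d * wn p n b * (-Real.log (p d * wn p n b)) =
          wn p n b * (p d * (-Real.log (p d))) + p d * (wn p n b * (-Real.log (wn p n b))) := by
        intro d b
        rw [Real.log_mul (hp d).ne' (wn_pos p hp n b).ne']
        ring
      simp only [h4, Finset.sum_add_distrib, ← Finset.mul_sum, ← Finset.sum_mul]
      rw [wn_sum p h1, h1, ih]
      push_cast
      ring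
  have h2 := hr_tendsto p v A hp h1
  have h3 : Tendsto (fun n : ℕ => Hn p v A n / n) atTop (𝓝 (∑ d, p d * (-Real.log (p d)))) := by
    refine tendsto_const_nhds.congr' ?_
    filter_upwards [eventually_ge_atTop 1] with n hn
    have : (n:ℝ) ≠ 0 := by
      have : n ≠ 0 := by omega
      exact_mod_cast this
    rw [key n, mul_div_cancel_left₀ _ this]
  exact tendsto_nhds_unique h2 h3

end Pool.Agent.KS6_59.AX
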