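import Pool.Agent.KS6_59.AX.Good

/-! The upper bound after the entropic time, for almost all moduli. -/

set_option autoImplicit false
set_option linter.unusedSectionVars false
set_option maxHeartbeats 1000000

open Finset Filter Topology

namespace Pool.Agent.KS6_59.AX

variable {D : Type*} [Fintype D] [DecidableEq D] {p : D → ℝ} {v : D → ℤ} {a : ℕ}

open Classical in
theorem up_small [Nonempty D] (hp : ∀ d, 0 < p d) (h1 : ∑ d, p d = 1) (ha : 2 ≤ a) (B : ℕ)
    (hv : ∀ d, |v d| ≤ B) (g : ℤ)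
    (hg : ∀ y : ℝ, (∀ d d', ∃ z : ℤ, y * ((v d - v d' : ℤ) : ℝ) = z) → ∃ z : ℤ, y * g = z)
    (hh : 0 < hr p v a) (δ : ℝ) (hδ : 0 < δ) (ε : ℝ) (hε : 0 < ε) :
    ∃ c : ℝ, 0 < c ∧ ∃ X0 : ℕ, ∀ X ≥ X0,
      (((Icc 1 X).filter (fun q : ℕ => (q.Coprime a ∧ q.Coprime g.natAbs) ∧
        ¬ ∀ n : ℕ, (1 + δ) * (Real.log q / hr p v a) ≤ n → tvv p v a n q ≤ (q:ℝ) ^ (-c))).card : ℝ) ≤ ε * X := by
  set H := hr p v a with hH
  obtain ⟨R, hR⟩ := exists_nat_ge (6 / δ + 3)
  have hδ6 : 0 < 6 / δ := by positivity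
  have hR3 : (3:ℝ) ≤ R := by linarith
  have hR3' : 3 ≤ R := by exact_mod_cast hR3
  have hR1 : ((R - 1 : ℕ) : ℝ) = (R:ℝ) - 1 := by rw [Nat.cast_sub (by omega)]; simp
  have hR1pos : (0:ℝ) < (R:ℝ) - 1 := by linarith
  set η : ℝ := H / (1 + δ / 3) with hη
  have hη0 : 0 < η := by positivity
  have hηH : η < H := by
    rw [hη, div_lt_iff₀ (by positivity)]
    nlinarith
  -- the ratio
  have hratio : (R:ℝ) / ((R:ℝ) - 1) * (1 + δ / 3) ≤ 1 + δ / 2 := by
    have h2 : δ * (6 / δ + 2) ≤ δ * ((R:ℝ) - 1) := mul_le_mul_of_nonneg_left (by linarith) hδ.le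
    have h3 : δ * (6 / δ + 2) = 6 + 2 * δ := by field_simp
    rw [h3] at h2
    rw [div_mul_eq_mul_div, div_le_iff₀ hR1pos]
    nlinarith
  obtain ⟨lam, hl0, hl1, m0, hm0⟩ := most_good (v := v) hp h1 ha B hv g hg R (by omega) η hη0 hηH (ε / 2) (by linarith)
  rw [hR1] at hm0
  set θ : ℝ := min (ε / 2) 1 with hθ
  have hθ0 : 0 < θ := lt_min (by linarith) one_pos
  have hθε : θ ≤ ε / 2 := min_le_left _ _
  set A : ℝ := η * ((R:ℝ) - 1) with hA
  have hA0 : 0 < A := mul_pos hη0 hR1pos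
  have hll : 0 < -Real.log lam := by
    have := Real.log_neg hl0 hl1
    linarith
  refine ⟨-Real.log lam / A, by positivity, ?_⟩
  -- large `X`
  obtain ⟨X1, hX1⟩ := exists_nat_ge (Real.exp (max (A * m0) ((R - (1 + δ) * Real.log θ / H) * (2 * H / δ))))
  refine ⟨max 1 X1, fun X hX => ?_⟩
  have hX1' : 1 ≤ X := (le_max_left _ _).trans hX
  have hXpos : (0:ℝ) < X := by exact_mod_cast (by omega : 0 < X)
  have hXX1 : (X1:ℝ) ≤ X := by exact_mod_cast (le_max_right _ _).trans hX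
  set LX := Real.log X with hLX
  have hlog : max (A * m0) ((R - (1 + δ) * Real.log θ / H) * (2 * H / δ)) ≤ LX := by
    rw [hLX, Real.le_log_iff_exp_le hXpos]
    exact hX1.trans hXX1
  have hL1 : A * m0 ≤ LX := (le_max_left _ _).trans hlog
  have hL2 : (R - (1 + δ) * Real.log θ / H) * (2 * H / δ) ≤ LX := (le_max_right _ _).trans hlog
  have hLX0 : 0 ≤ LX := Real.log_nonneg (by exact_mod_cast hX1')
  set m : ℕ := ⌈LX / A⌉₊ with hm
  have hmge : LX / A ≤ m := Nat.le_ceil _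
  have hmle : (m:ℝ) ≤ LX / A + 1 := (Nat.ceil_lt_add_one (by positivity)).le
  have hmm0 : m0 ≤ m := by
    have h2 : (m0:ℝ) ≤ LX / A := by
      rw [le_div_iff₀ hA0]; linarith
    exact_mod_cast h2.trans hmge
  have hXm : (X:ℝ) ≤ Real.exp (A * m) := by
    rw [← Real.log_le_iff_le_exp hXpos]
    rw [div_le_iff₀ hA0] at hmge
    linarith
  have hcount := hm0 m hmm0 X hXm
  have hRm : ((R * m : ℕ) : ℝ) ≤ (1 + δ / 2) * (LX / H) + R := by
    push_cast
    calc (R:ℝ) * m ≤ R * (LX / A + 1) := mul_le_mul_of_nonneg_left hmle (by positivity)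
      _ = ((R:ℝ) / ((R:ℝ) - 1) * (1 + δ / 3)) * (LX / H) + R := by
          rw [hA, hη]; field_simp
      _ ≤ (1 + δ / 2) * (LX / H) + R := by
          have := mul_le_mul_of_nonneg_right hratio (div_nonneg hLX0 hh.le)
          linarith
  have hkey : ((R * m : ℕ) : ℝ) ≤ (1 + δ) * ((LX + Real.log θ) / H) := by
    refine hRm.trans ?_
    have h2 : (R - (1 + δ) * Real.log θ / H) ≤ LX * (δ / (2 * H)) := by
      have h3 := mul_le_mul_of_nonneg_right hL2 (by positivity : (0:ℝ) ≤ δ / (2 * H))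
      have h4 : (R - (1 + δ) * Real.log θ / H) * (2 * H / δ) * (δ / (2 * H)) = R - (1 + δ) * Real.log θ / H := by
        field_simp
      rw [h4] at h3
      exact h3
    have h3 : (1 + δ) * ((LX + Real.log θ) / H) = (1 + δ / 2) * (LX / H) + LX * (δ / (2 * H)) + (1 + δ) * Real.log θ / H := by
      field_simp
      ring
    rw [h3]
    linarith
  -- cover
  have hcover : (Icc 1 X).filter (fun q : ℕ => (q.Coprime a ∧ q.Coprime g.natAbs) ∧
        ¬ ∀ n : ℕ, (1 + δ) * (Real.log q / H) ≤ n → tvv p v a n q ≤ (q:ℝ) ^ (-(-Real.log lam / A))) ⊆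
      ((Icc 1 X).filter (fun q : ℕ => (q.Coprime a ∧ q.Coprime g.natAbs) ∧ lam ^ m < tvv p v a (R * m) q)) ∪
      (Icc 1 X).filter (fun q : ℕ => (q : ℝ) ≤ θ * X) := by
    intro q hq
    rw [Finset.mem_filter, Finset.mem_Icc] at hq
    obtain ⟨⟨hq1, hqX⟩, ⟨hqa, hqg⟩, hno⟩ := hq
    rw [Finset.mem_union, Finset.mem_filter, Finset.mem_filter, Finset.mem_Icc]
    by_contra hcon
    push Not at hcon
    obtain ⟨hc1, hc2⟩ := hcon
    have hAA := hc1 ⟨hq1, hqX⟩ ⟨hqa, hqg⟩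
    have hBB := hc2 ⟨hq1, hqX⟩
    apply hno
    intro n hn
    have hqpos : (0:ℝ) < q := by exact_mod_cast (by omega : 0 < q)
    have hLq : LX + Real.log θ ≤ Real.log q := by
      rw [hLX, add_comm, ← Real.log_mul hθ0.ne' hXpos.ne']
      exact Real.log_le_log (by positivity) hBB.le
    have hRmn : R * m ≤ n := by
      have h2 : ((R * m : ℕ) : ℝ) ≤ (n : ℝ) := by
        refine hkey.trans (le_trans ?_ hn)
        apply mul_le_mul_of_nonneg_left _ (by linarith)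
        exact div_le_div_of_nonneg_right hLq hh.le
      exact_mod_cast h2
    refine (tvv_mono (v := v) hp h1 q (by omega) hqa hRmn).trans (hAA.trans ?_)
    have h3 : Real.log q ≤ LX := Real.log_le_log hqpos (by exact_mod_cast hqX)
    have h4 : Real.log q / A ≤ m := (div_le_div_of_nonneg_right h3 hA0.le).trans hmge
    rw [Real.rpow_def_of_pos hqpos, ← Real.rpow_natCast, Real.rpow_def_of_pos hl0]
    apply Real.exp_le_exp.2
    have h5 : Real.log q * -(-Real.log lam / A) = -((-Real.log lam) * (Real.log q / A)) := by ring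
    rw [h5]
    have h6 := mul_le_mul_of_nonneg_left h4 hll.le
    linarith
  have hcard2 : (((Icc 1 X).filter (fun q : ℕ => (q : ℝ) ≤ θ * X)).card : ℝ) ≤ θ * X := by
    have h2 : (Icc 1 X).filter (fun q : ℕ => (q : ℝ) ≤ θ * X) ⊆ Icc 1 ⌊θ * X⌋₊ := by
      intro q hq
      rw [Finset.mem_filter, Finset.mem_Icc] at hq
      rw [Finset.mem_Icc]
      exact ⟨hq.1.1, Nat.le_floor hq.2⟩
    have h3 := Finset.card_le_card h2
    rw [Nat.card_Icc, Nat.add_sub_cancel] at h3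
    calc (((Icc 1 X).filter (fun q : ℕ => (q : ℝ) ≤ θ * X)).card : ℝ) ≤ (⌊θ * X⌋₊ : ℝ) := by exact_mod_cast h3
      _ ≤ θ * X := Nat.floor_le (by positivity)
  have h5 := (Finset.card_le_card hcover).trans (Finset.card_union_le _ _)
  have h5' : (((Icc 1 X).filter (fun q : ℕ => (q.Coprime a ∧ q.Coprime g.natAbs) ∧
        ¬ ∀ n : ℕ, (1 + δ) * (Real.log q / H) ≤ n → tvv p v a n q ≤ (q:ℝ) ^ (-(-Real.log lam / A)))).card : ℝ) ≤
      (((Icc 1 X).filter (fun q : ℕ => (q.Coprime a ∧ q.Coprime g.natAbs) ∧ lam ^ m < tvv p v a (R * m) q)).card : ℝ) +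
      (((Icc 1 X).filter (fun q : ℕ => (q : ℝ) ≤ θ * X)).card : ℝ) := by
    exact_mod_cast h5
  have h6 : θ * X ≤ ε / 2 * X := mul_le_mul_of_nonneg_right hθε hXpos.le
  linarith

end Pool.Agent.KS6_59.AX
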